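import Pool.Agent.TH192.DT.Fin

set_option autoImplicit false
set_option linter.unusedSectionVars false
set_option linter.unusedVariables false

/-! # Square roots of power series; restriction to an axis -/

namespace Pool.Agent.TH192.DT

open MvPowerSeries Pool.Agent.W574.SM

theorem dvd_of_sq {σ : Type} (z : σ) (a : ℕ) (F : MvPowerSeries σ ℂ)
    (h : X z ^ (2 * a) ∣ F ^ 2) : X z ^ a ∣ F := by
  classical
  have hw : ∀ d : σ →₀ ℕ, Finsupp.weight (Pi.single z 1 : σ → ℕ) d = d z :=
    fun d => Finsupp.weight_single_one_apply z d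
  have h1 : ((2 * a : ℕ) : ℕ∞) ≤ (F ^ 2).weightedOrder (Pi.single z 1) := by
    refine nat_le_weightedOrder _ fun d hd => ?_
    rw [hw] at hd
    exact X_pow_dvd_iff.1 h d hd
  have h2 : (a : ℕ∞) ≤ F.weightedOrder (Pi.single z 1) := by
    rw [pow_two, weightedOrder_mul] at h1
    by_contra hcon
    rw [not_le] at hcon
    have h3 : F.weightedOrder (Pi.single z 1) + F.weightedOrder (Pi.single z 1)
        < (a : ℕ∞) + a := ENat.add_lt_add hcon hcon
    rw [Nat.cast_mul, Nat.cast_two, two_mul] at h1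
    exact absurd h3 (not_lt.2 h1)
  rw [X_pow_dvd_iff]
  intro m hm
  apply coeff_eq_zero_of_lt_weightedOrder (w := Pi.single z 1)
  rw [hw]
  exact lt_of_lt_of_le (by exact_mod_cast hm) h2

/-- If `F ^ 2 = z ^ (2 a) V` then `F = z ^ a w` with `w ^ 2 = V`. -/
theorem exists_root {σ : Type} (z : σ) (a : ℕ) (F V : MvPowerSeries σ ℂ)
    (h : F ^ 2 = X z ^ (2 * a) * V) : ∃ w, F = X z ^ a * w ∧ w ^ 2 = V := by
  obtain ⟨w, hw⟩ := dvd_of_sq z a F ⟨V, h⟩
  refine ⟨w, hw, ?_⟩
  have h1 : (X z : MvPowerSeries σ ℂ) ^ (2 * a) ≠ 0 := pow_ne_zero _ (X_ne0 z)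
  apply mul_left_cancel₀ h1
  rw [← h, hw]
  ring

/-- the restriction of a power series to the axis of index `l` -/
noncomputable def axis {σ : Type} (l : σ) : MvPowerSeries σ ℂ →+* PowerSeries ℂ where
  toFun f := PowerSeries.mk fun n => coeff (Finsupp.single l n) f
  map_zero' := by
    ext n
    rw [PowerSeries.coeff_mk, map_zero, map_zero]
  map_one' := by
    classical
    ext n
    rw [PowerSeries.coeff_mk, MvPowerSeries.coeff_one, PowerSeries.coeff_one]
    simp
  map_add' f g := by
    ext n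
    rw [PowerSeries.coeff_mk, map_add, map_add, PowerSeries.coeff_mk, PowerSeries.coeff_mk]
  map_mul' f g := by
    classical
    ext n
    rw [PowerSeries.coeff_mk, MvPowerSeries.coeff_mul, PowerSeries.coeff_mul,
      Finsupp.antidiagonal_single, Finset.sum_map]
    refine Finset.sum_congr rfl fun p _ => ?_
    rw [PowerSeries.coeff_mk, PowerSeries.coeff_mk]
    rfl

theorem coeff_axis {σ : Type} (l : σ) (f : MvPowerSeries σ ℂ) (n : ℕ) :
    PowerSeries.coeff n (axis l f) = coeff (Finsupp.single l n) f := by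
  change PowerSeries.coeff n (PowerSeries.mk fun n => coeff (Finsupp.single l n) f) = _
  rw [PowerSeries.coeff_mk]

theorem cc_axis {σ : Type} (l : σ) (f : MvPowerSeries σ ℂ) :
    PowerSeries.constantCoeff (axis l f) = constantCoeff f := by
  rw [← PowerSeries.coeff_zero_eq_constantCoeff_apply, coeff_axis, Finsupp.single_zero,
    coeff_zero_eq_constantCoeff_apply]

theorem axis_C {σ : Type} (l : σ) (c : ℂ) :
    axis l (MvPowerSeries.C c) = PowerSeries.C c := by
  classical
  ext n
  rw [coeff_axis, MvPowerSeries.coeff_C, PowerSeries.coeff_C]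
  simp

theorem axis_X {σ : Type} [DecidableEq σ] (l i : σ) :
    axis l (X i : MvPowerSeries σ ℂ) = if l = i then PowerSeries.X else 0 := by
  classical
  ext n
  rw [coeff_axis, MvPowerSeries.coeff_X]
  by_cases h : l = i
  · subst h
    rw [if_pos rfl, PowerSeries.coeff_X]
    by_cases hn : n = 1
    · subst hn; simp
    · rw [if_neg, if_neg hn]
      intro h
      exact hn (Finsupp.single_injective l h)
  · rw [if_neg h, map_zero, if_neg]
    intro h1
    have h2 := congrArg (fun f => f i) h1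
    simp only [Finsupp.single_eq_same] at h2
    rw [Finsupp.single_eq_of_ne (Ne.symm h)] at h2
    omega

namespace Mt

variable {A T1 T2 σ : Type} [Fintype A] [DecidableEq A] [Fintype T1] [DecidableEq T1]
  [Fintype T2] [DecidableEq T2] [Fintype σ] [DecidableEq σ] (D : Mt A T1 T2 σ)

theorem jet_mY (l : σ) (r : T1) (c : T2) :
    jet l (D.mY r c) = TrivSqZeroExt.inl (D.Y0 r c) + TrivSqZeroExt.inr
      (if l = D.ix (Sum.inr r) (Sum.inr c) ∧ l ≠ D.z then D.sg (Sum.inr r) (Sum.inr c)
        else 0) := by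
  rw [jet_apply, Mt.pderiv_mY]
  congr 2
  · rw [Mt.mY, Matrix.of_apply, map_add, constantCoeff_C]
    split_ifs
    · rw [map_zero, add_zero]
    · rw [Mt.v, map_mul, constantCoeff_X, mul_zero, add_zero]
  · split_ifs
    · rw [constantCoeff_C]
    · exact map_zero _

theorem axis_v (l : σ) (x : A ⊕ T1) (y : A ⊕ T2) :
    axis l (D.v x y) = PowerSeries.C (D.sg x y) *
      if l = D.ix x y then PowerSeries.X else 0 := by
  rw [v, map_mul, axis_C, axis_X]

theorem axis_mY (l : σ) (hl : l ≠ D.z) (r : T1) (c : T2) :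
    axis l (D.mY r c) = PowerSeries.C (D.Y0 r c) + PowerSeries.C (D.sg (Sum.inr r) (Sum.inr c)) *
      if l = D.ix (Sum.inr r) (Sum.inr c) then PowerSeries.X else 0 := by
  rw [mY, Matrix.of_apply, map_add, axis_C]
  congr 1
  by_cases h : D.ix (Sum.inr r) (Sum.inr c) = D.z
  · rw [if_pos h, map_zero, if_neg, mul_zero]
    intro h1
    exact hl (h1.trans h)
  · rw [if_neg h, axis_v]

/-- along the axis of an exceptional coordinate the block `A` is constant -/
theorem axis_mA (l : σ) (hl : D.IsExc l) (a b : A) :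
    axis l (D.mA a b) = PowerSeries.C (D.A0 a b) := by
  rw [mA, Matrix.add_apply, map_add, Matrix.map_apply, axis_C, Matrix.of_apply, axis_v]
  by_cases h : D.sg (Sum.inl a) (Sum.inl b) = 0
  · rw [h, map_zero, zero_mul, add_zero]
  · rw [if_neg, mul_zero, add_zero]
    obtain ⟨r, c, h1, rfl⟩ := hl
    intro h2
    obtain ⟨⟨r', hr⟩, _⟩ := D.exc r c _ _ h1 h h2
    simp at hr

theorem axis_detA (l : σ) (hl : D.IsExc l) : axis l D.mA.det = PowerSeries.C D.A0.det := by
  rw [RingHom.map_det, RingHom.map_det]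
  congr 1
  ext1 a b
  rw [RingHom.mapMatrix_apply, Matrix.map_apply, D.axis_mA l hl]
  rfl

end Mt

end Pool.Agent.TH192.DT
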