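import Pool.Agent.TH192.DT.Span

set_option autoImplicit false
set_option linter.unusedSectionVars false
set_option linter.unusedVariables false

/-! # Charts on the divisors over the matrices of bounded rank

The entries of the matrix are the variables of a polynomial ring, up to signs; they may coincide
(symmetric matrices), or vanish (skew symmetric matrices). -/

namespace Pool.Agent.TH192.DT

open MvPowerSeries Pool.Agent.W574.SM

/-- A matrix with the rows `A ⊕ T1` and the columns `A ⊕ T2`, the entries of which are the variables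
`X (ix x y)`, multiplied by the sign (or zero) `sg x y`, and a base point: the block `A` is `A0`,
and the lower right block is `z Y0`, where `z` is the coordinate at the place `(r0, c0)`. -/
structure Mt (A T1 T2 σ : Type) [Fintype A] [DecidableEq A] where
  ix : A ⊕ T1 → A ⊕ T2 → σ
  sg : A ⊕ T1 → A ⊕ T2 → ℂ
  sg_sq : ∀ x y, sg x y ≠ 0 → sg x y * sg x y = 1
  surj : ∀ t, ∃ x y, sg x y ≠ 0 ∧ t = ix x y
  exc : ∀ r c x y, sg (Sum.inr r) (Sum.inr c) ≠ 0 → sg x y ≠ 0 →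
    ix (Sum.inr r) (Sum.inr c) = ix x y → (∃ r', x = Sum.inr r') ∧ (∃ c', y = Sum.inr c')
  A0 : Matrix A A ℂ
  hA0 : A0.det ≠ 0
  Y0 : Matrix T1 T2 ℂ
  r0 : T1
  c0 : T2
  sg0 : sg (Sum.inr r0) (Sum.inr c0) ≠ 0
  Y0z : ∀ r c, sg (Sum.inr r) (Sum.inr c) ≠ 0 →
    ix (Sum.inr r) (Sum.inr c) = ix (Sum.inr r0) (Sum.inr c0) → Y0 r c = sg (Sum.inr r) (Sum.inr c)

namespace Mt

variable {A T1 T2 σ : Type} [Fintype A] [DecidableEq A] [Fintype T1] [DecidableEq T1]
  [Fintype T2] [DecidableEq T2] [Fintype σ] [DecidableEq σ] (D : Mt A T1 T2 σ)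

/-- the entries of the matrix of variables -/
noncomputable def v (x : A ⊕ T1) (y : A ⊕ T2) : MvPowerSeries σ ℂ :=
  MvPowerSeries.C (D.sg x y) * X (D.ix x y)

/-- the index of the equation of the divisor -/
def z : σ := D.ix (Sum.inr D.r0) (Sum.inr D.c0)

noncomputable def mA : Matrix A A (MvPowerSeries σ ℂ) :=
  D.A0.map MvPowerSeries.C + Matrix.of fun a b => D.v (Sum.inl a) (Sum.inl b)

noncomputable def mB : Matrix A T2 (MvPowerSeries σ ℂ) :=
  Matrix.of fun a c => D.v (Sum.inl a) (Sum.inr c)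

noncomputable def mC : Matrix T1 A (MvPowerSeries σ ℂ) :=
  Matrix.of fun r a => D.v (Sum.inr r) (Sum.inl a)

/-- the coordinates on the exceptional divisor -/
noncomputable def mY : Matrix T1 T2 (MvPowerSeries σ ℂ) :=
  Matrix.of fun r c => MvPowerSeries.C (D.Y0 r c) +
    if D.ix (Sum.inr r) (Sum.inr c) = D.z then 0 else D.v (Sum.inr r) (Sum.inr c)

/-- the matrix in the chart -/
noncomputable def mX : Matrix (A ⊕ T1) (A ⊕ T2) (MvPowerSeries σ ℂ) :=
  Matrix.fromBlocks D.mA D.mB D.mC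
    (D.mC * D.mA⁻¹ * D.mB + (X D.z : MvPowerSeries σ ℂ) • D.mY)

/-- `ξ` is the chart. -/
def IsChart (ξ : σ → MvPowerSeries σ ℂ) : Prop :=
  ∀ x y, D.mX x y = MvPowerSeries.C (D.sg x y) * ξ (D.ix x y)

/-- the matrix of variables -/
noncomputable def mP : Matrix (A ⊕ T1) (A ⊕ T2) (MvPolynomial σ ℂ) :=
  Matrix.of fun x y => MvPolynomial.C (D.sg x y) * MvPolynomial.X (D.ix x y)

theorem aeval_mP {ξ : σ → MvPowerSeries σ ℂ} (hξ : D.IsChart ξ) (x : A ⊕ T1) (y : A ⊕ T2) :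
    MvPolynomial.aeval ξ (D.mP x y) = D.mX x y := by
  rw [hξ x y, mP, Matrix.of_apply, map_mul, MvPolynomial.aeval_X, MvPolynomial.aeval_C]
  rfl

theorem aeval_det {ξ : σ → MvPowerSeries σ ℂ} (hξ : D.IsChart ξ) {P : Type} [Fintype P]
    [DecidableEq P] (r : P → A ⊕ T1) (c : P → A ⊕ T2) :
    MvPolynomial.aeval ξ (D.mP.submatrix r c).det = (D.mX.submatrix r c).det := by
  rw [AlgHom.map_det]
  congr 1
  ext1 i j
  rw [AlgHom.mapMatrix_apply, Matrix.map_apply, Matrix.submatrix_apply, D.aeval_mP hξ]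
  rfl

theorem cc_mA : (constantCoeff : MvPowerSeries σ ℂ →+* ℂ).mapMatrix D.mA = D.A0 := by
  rw [mA, map_add]
  ext i j
  simp [v]

theorem cc_detA : constantCoeff D.mA.det = D.A0.det := by
  rw [RingHom.map_det, D.cc_mA]

theorem mA_unit : IsUnit D.mA.det := by
  rw [MvPowerSeries.isUnit_iff_constantCoeff, D.cc_detA]
  exact isUnit_iff_ne_zero.2 D.hA0

theorem mX_eq : D.mX = Matrix.fromRows D.mA D.mC * Matrix.fromCols 1 (D.mA⁻¹ * D.mB)
    + (X D.z : MvPowerSeries σ ℂ) • Matrix.fromBlocks 0 0 0 D.mY := by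
  rw [Matrix.fromRows_mul_fromCols, Matrix.fromBlocks_smul, Matrix.fromBlocks_add, mX,
    ← Matrix.mul_assoc, ← Matrix.mul_assoc, Matrix.mul_nonsing_inv _ D.mA_unit]
  simp

theorem dvd_minor {P : Type} [Fintype P] [DecidableEq P] (q : ℕ)
    (hP : Fintype.card P = Fintype.card A + q) (r : P → A ⊕ T1) (c : P → A ⊕ T2) :
    X D.z ^ q ∣ (D.mX.submatrix r c).det := by
  have h1 : D.mX.submatrix r c
      = (Matrix.fromRows D.mA D.mC).submatrix r id *
        (Matrix.fromCols 1 (D.mA⁻¹ * D.mB)).submatrix id c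
      + (X D.z : MvPowerSeries σ ℂ) • (Matrix.fromBlocks 0 0 0 D.mY).submatrix r c := by
    rw [mX_eq]
    rfl
  have h2 := det_rank_add ((Matrix.fromRows D.mA D.mC).submatrix r id)
    ((Matrix.fromCols 1 (D.mA⁻¹ * D.mB)).submatrix id c)
    ((Matrix.fromBlocks 0 0 0 D.mY).submatrix r c) (X D.z)
  rw [← h1, hP, pow_add, mul_assoc] at h2
  exact ⟨_, mul_left_cancel₀ (pow_ne_zero _ (X_ne0 _)) h2⟩

theorem special_minor {P Q : Type} [Fintype P] [DecidableEq P] [Fintype Q] [DecidableEq Q]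
    (eP : A ⊕ Q ≃ P) (ρ : Q → T1) (χ : Q → T2) :
    (D.mX.submatrix (fun i => Sum.map id ρ (eP.symm i)) (fun i => Sum.map id χ (eP.symm i))).det
      = X D.z ^ Fintype.card Q * (D.mA.det * (D.mY.submatrix ρ χ).det) := by
  have h1 : D.mX.submatrix (fun i => Sum.map id ρ (eP.symm i))
      (fun i => Sum.map id χ (eP.symm i))
      = (D.mX.submatrix (Sum.map id ρ) (Sum.map id χ)).submatrix eP.symm eP.symm := rfl
  rw [h1, Matrix.det_submatrix_equiv_self]
  have h2 : D.mX.submatrix (Sum.map id ρ) (Sum.map id χ)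
      = Matrix.fromBlocks D.mA (D.mB.submatrix id χ)
        (D.mC.submatrix ρ id) ((D.mC * D.mA⁻¹ * D.mB
          + (X D.z : MvPowerSeries σ ℂ) • D.mY).submatrix ρ χ) := by
    ext i j
    rcases i with i | i <;> rcases j with j | j <;> rfl
  have : Invertible D.mA := Matrix.invertibleOfIsUnitDet _ D.mA_unit
  rw [h2, Matrix.det_fromBlocks₁₁]
  have h3 : (D.mC * D.mA⁻¹ * D.mB + (X D.z : MvPowerSeries σ ℂ) • D.mY).submatrix ρ χ
        - D.mC.submatrix ρ id * ⅟D.mA * D.mB.submatrix id χ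
      = (X D.z : MvPowerSeries σ ℂ) • D.mY.submatrix ρ χ := by
    rw [Matrix.invOf_eq_nonsing_inv]
    have h4 : D.mC.submatrix ρ id * D.mA⁻¹ * D.mB.submatrix id χ
        = (D.mC * D.mA⁻¹ * D.mB).submatrix ρ χ := rfl
    rw [h4, Matrix.submatrix_add, Matrix.submatrix_smul]
    simp
  rw [h3, Matrix.det_smul]
  ring

/-- the minors inside of the block `A` -/
theorem minor_A {P : Type} [Fintype P] [DecidableEq P] (r c : P → A) :
    constantCoeff (D.mX.submatrix (fun i => Sum.inl (r i)) (fun i => Sum.inl (c i))).det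
      = (D.A0.submatrix r c).det := by
  rw [RingHom.map_det]
  congr 1
  ext1 i j
  have h := congrFun (congrFun D.cc_mA (r i)) (c j)
  rw [RingHom.mapMatrix_apply, Matrix.map_apply] at h
  rw [RingHom.mapMatrix_apply, Matrix.map_apply, Matrix.submatrix_apply, Matrix.submatrix_apply,
    ← h]
  rfl

/-! ### The Jacobian determinant -/

theorem pderiv_v (t : σ) (x : A ⊕ T1) (y : A ⊕ T2) :
    pderiv ℂ t (D.v x y) = if t = D.ix x y then MvPowerSeries.C (D.sg x y) else 0 := by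
  rw [v, Derivation.leibniz, pderiv_C, smul_zero, add_zero, smul_eq_mul]
  by_cases h : t = D.ix x y
  · rw [if_pos h, h, pderiv_X_self, mul_one]
  · rw [if_neg h, pderiv_X_of_ne (Ne.symm h), mul_zero]

/-- a coordinate of the exceptional block -/
def IsExc (t : σ) : Prop :=
  ∃ (r : T1) (c : T2), D.sg (Sum.inr r) (Sum.inr c) ≠ 0 ∧ t = D.ix (Sum.inr r) (Sum.inr c)

theorem pderiv_v_zero (t : σ) (ht : D.IsExc t) (x : A ⊕ T1) (y : A ⊕ T2)
    (h : (∀ r', x ≠ Sum.inr r') ∨ (∀ c', y ≠ Sum.inr c')) : pderiv ℂ t (D.v x y) = 0 := by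
  rw [pderiv_v]
  split_ifs with h1
  · obtain ⟨r, c, h2, rfl⟩ := ht
    by_cases h3 : D.sg x y = 0
    · rw [h3, map_zero]
    · obtain ⟨⟨r', hr'⟩, ⟨c', hc'⟩⟩ := D.exc r c x y h2 h3 h1
      rcases h with h | h
      · exact absurd hr' (h r')
      · exact absurd hc' (h c')
  · rfl

theorem pderiv_mA (t : σ) (ht : D.IsExc t) (a b : A) : pderiv ℂ t (D.mA a b) = 0 := by
  rw [mA, Matrix.add_apply, map_add, Matrix.of_apply, Matrix.map_apply, pderiv_C, zero_add]
  exact D.pderiv_v_zero t ht _ _ (Or.inl fun _ => Sum.inl_ne_inr)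

theorem pderiv_mB (t : σ) (ht : D.IsExc t) (a : A) (c : T2) : pderiv ℂ t (D.mB a c) = 0 :=
  D.pderiv_v_zero t ht _ _ (Or.inl fun _ => Sum.inl_ne_inr)

theorem pderiv_mC (t : σ) (ht : D.IsExc t) (r : T1) (a : A) : pderiv ℂ t (D.mC r a) = 0 :=
  D.pderiv_v_zero t ht _ _ (Or.inr fun _ => Sum.inl_ne_inr)

theorem pderiv_mul_entries' {I J H : Type} [Fintype J] (t : σ)
    (M : Matrix I J (MvPowerSeries σ ℂ)) (N : Matrix J H (MvPowerSeries σ ℂ))
    (hM : ∀ i j, pderiv ℂ t (M i j) = 0) (hN : ∀ i j, pderiv ℂ t (N i j) = 0) (i : I) (k : H) :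
    pderiv ℂ t ((M * N) i k) = 0 := by
  rw [Matrix.mul_apply, map_sum]
  refine Finset.sum_eq_zero fun j _ => ?_
  rw [Derivation.leibniz, hM, hN, smul_zero, smul_zero, add_zero]

theorem pderiv_mAinv (t : σ) (ht : D.IsExc t) (a b : A) : pderiv ℂ t (D.mA⁻¹ a b) = 0 := by
  have h1 : D.mA * (Matrix.of fun a b => pderiv ℂ t (D.mA⁻¹ a b)) = 0 := by
    ext1 i j
    have h2 := congrFun (congrFun (Matrix.mul_nonsing_inv _ D.mA_unit) i) j
    have h3 := congrArg (pderiv ℂ t) h2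
    rw [Matrix.mul_apply, map_sum] at h3
    have h4 : pderiv ℂ t ((1 : Matrix A A (MvPowerSeries σ ℂ)) i j) = 0 := by
      rw [Matrix.one_apply]
      split_ifs
      · exact pderiv_one
      · exact map_zero _
    rw [h4] at h3
    rw [Matrix.mul_apply, Matrix.zero_apply, ← h3]
    refine Finset.sum_congr rfl fun k _ => ?_
    rw [Derivation.leibniz, D.pderiv_mA t ht, smul_zero, add_zero, smul_eq_mul,
      Matrix.of_apply]
  have h2 : (Matrix.of fun a b => pderiv ℂ t (D.mA⁻¹ a b)) = 0 := by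
    have := congrArg (fun M => D.mA⁻¹ * M) h1
    simp only [← Matrix.mul_assoc, Matrix.nonsing_inv_mul _ D.mA_unit, Matrix.one_mul,
      Matrix.mul_zero] at this
    exact this
  exact congrFun (congrFun h2 a) b

theorem pderiv_CAB (t : σ) (ht : D.IsExc t) (r : T1) (c : T2) :
    pderiv ℂ t ((D.mC * D.mA⁻¹ * D.mB) r c) = 0 :=
  pderiv_mul_entries' t _ _ (pderiv_mul_entries' t _ _ (D.pderiv_mC t ht)
    (D.pderiv_mAinv t ht)) (D.pderiv_mB t ht) r c

theorem pderiv_mY (t : σ) (r : T1) (c : T2) :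
    pderiv ℂ t (D.mY r c) = if t = D.ix (Sum.inr r) (Sum.inr c) ∧ t ≠ D.z
      then MvPowerSeries.C (D.sg (Sum.inr r) (Sum.inr c)) else 0 := by
  rw [mY, Matrix.of_apply, map_add, pderiv_C, zero_add]
  by_cases h : D.ix (Sum.inr r) (Sum.inr c) = D.z
  · rw [if_pos h, map_zero, if_neg]
    rintro ⟨h1, h2⟩
    exact h2 (h1.trans h)
  · rw [if_neg h, D.pderiv_v]
    by_cases h1 : t = D.ix (Sum.inr r) (Sum.inr c)
    · rw [if_pos h1, if_pos ⟨h1, by rw [h1]; exact h⟩]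
    · rw [if_neg h1, if_neg fun h2 => h1 h2.1]

theorem C_sg_mul (x : A ⊕ T1) (y : A ⊕ T2) (h : D.sg x y ≠ 0) :
    (MvPowerSeries.C (D.sg x y) : MvPowerSeries σ ℂ) * MvPowerSeries.C (D.sg x y) = 1 := by
  rw [← map_mul, D.sg_sq x y h, map_one]

variable {ξ : σ → MvPowerSeries σ ℂ} (hξ : D.IsChart ξ)

include hξ

theorem ξ_eq (x : A ⊕ T1) (y : A ⊕ T2) (h : D.sg x y ≠ 0) :
    ξ (D.ix x y) = MvPowerSeries.C (D.sg x y) * D.mX x y := by
  rw [hξ x y, ← mul_assoc, D.C_sg_mul x y h, one_mul]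

theorem ξ_nonexc (t : σ) (ht : ¬ D.IsExc t) :
    ∃ c0 : ℂ, ξ t = MvPowerSeries.C c0 + X t := by
  obtain ⟨x, y, h, rfl⟩ := D.surj t
  rw [D.ξ_eq hξ x y h]
  have h1 : ∀ c : ℂ, MvPowerSeries.C (D.sg x y) * (MvPowerSeries.C c + D.v x y)
      = MvPowerSeries.C (D.sg x y * c) + X (D.ix x y) := by
    intro c
    rw [v, mul_add, ← mul_assoc, D.C_sg_mul x y h, one_mul, map_mul]
  rcases x with a | r <;> rcases y with b | c
  · exact ⟨_, h1 (D.A0 a b)⟩
  · refine ⟨_, (congrArg _ ?_).trans (h1 0)⟩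
    rw [map_zero, zero_add]; rfl
  · refine ⟨_, (congrArg _ ?_).trans (h1 0)⟩
    rw [map_zero, zero_add]; rfl
  · exact absurd ⟨r, c, h, rfl⟩ ht

theorem ξ_exc (r : T1) (c : T2) (h : D.sg (Sum.inr r) (Sum.inr c) ≠ 0) :
    ξ (D.ix (Sum.inr r) (Sum.inr c)) = MvPowerSeries.C (D.sg (Sum.inr r) (Sum.inr c)) *
      ((D.mC * D.mA⁻¹ * D.mB) r c + X D.z * D.mY r c) := by
  rw [D.ξ_eq hξ _ _ h]
  rfl

theorem jac_entry (t : σ) (ht : D.IsExc t) (r : T1) (c : T2)
    (h : D.sg (Sum.inr r) (Sum.inr c) ≠ 0) :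
    pderiv ℂ t (ξ (D.ix (Sum.inr r) (Sum.inr c)))
      = (if t = D.ix (Sum.inr r) (Sum.inr c) ∧ t ≠ D.z then X D.z else 0) +
        (if t = D.z then MvPowerSeries.C (D.sg (Sum.inr r) (Sum.inr c)) * D.mY r c else 0) := by
  rw [D.ξ_exc hξ r c h, Derivation.leibniz, pderiv_C, smul_zero, add_zero, smul_eq_mul, map_add,
    D.pderiv_CAB t ht, zero_add, Derivation.leibniz, D.pderiv_mY, smul_eq_mul, smul_eq_mul,
    mul_add]
  congr 1
  · split_ifs with h1
    · rw [mul_comm (X D.z), ← mul_assoc, D.C_sg_mul _ _ h, one_mul]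
    · rw [mul_zero, mul_zero]
  · split_ifs with h1
    · rw [h1, pderiv_X_self, mul_one]
    · rw [pderiv_X_of_ne (Ne.symm h1), mul_zero, mul_zero]

omit hξ in
theorem isExc_z : D.IsExc D.z := ⟨_, _, D.sg0, rfl⟩

open Classical in
/-- the diagonal entries of the Jacobian matrix -/
theorem jac_diag (t : σ) : pderiv ℂ t (ξ t)
    = if D.IsExc t ∧ t ≠ D.z then X D.z else 1 := by
  by_cases ht : D.IsExc t
  · obtain ⟨r, c, h, rfl⟩ := id ht
    rw [D.jac_entry hξ _ ht r c h]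
    by_cases hz : D.ix (Sum.inr r) (Sum.inr c) = D.z
    · have e1 : ¬ (D.ix (Sum.inr r) (Sum.inr c) = D.ix (Sum.inr r) (Sum.inr c) ∧
          D.ix (Sum.inr r) (Sum.inr c) ≠ D.z) := fun h => h.2 hz
      have e2 : ¬ (D.IsExc (D.ix (Sum.inr r) (Sum.inr c)) ∧
          D.ix (Sum.inr r) (Sum.inr c) ≠ D.z) := fun h => h.2 hz
      rw [if_neg e1, if_neg e2, if_pos hz, zero_add]
      have h1 : D.mY r c = MvPowerSeries.C (D.sg (Sum.inr r) (Sum.inr c)) := by
        rw [mY, Matrix.of_apply, if_pos hz, add_zero, D.Y0z r c h hz]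
      rw [h1, D.C_sg_mul _ _ h]
    · have e1 : D.ix (Sum.inr r) (Sum.inr c) = D.ix (Sum.inr r) (Sum.inr c) ∧
          D.ix (Sum.inr r) (Sum.inr c) ≠ D.z := ⟨rfl, hz⟩
      have e2 : D.IsExc (D.ix (Sum.inr r) (Sum.inr c)) ∧
          D.ix (Sum.inr r) (Sum.inr c) ≠ D.z := ⟨ht, hz⟩
      rw [if_pos e1, if_pos e2, if_neg hz, add_zero]
  · obtain ⟨c0, hc⟩ := D.ξ_nonexc hξ t ht
    rw [hc, map_add, pderiv_C, zero_add, pderiv_X_self, if_neg fun h => ht h.1]

theorem jac_tri (t i : σ) (hti : t ≠ i)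
    (h : ¬ D.IsExc i ∨ (D.IsExc t ∧ (i = D.z ∨ t ≠ D.z))) :
    pderiv ℂ t (ξ i) = 0 := by
  by_cases hi : D.IsExc i
  · obtain ⟨ht, h1⟩ := h.resolve_left (fun h => h hi)
    obtain ⟨r, c, h2, rfl⟩ := hi
    have hz : t ≠ D.z := by
      rcases h1 with h1 | h1
      · rw [← h1]; exact hti
      · exact h1
    rw [D.jac_entry hξ t ht r c h2, if_neg fun h => hti h.1, if_neg hz, add_zero]
  · obtain ⟨c0, hc⟩ := D.ξ_nonexc hξ i hi
    rw [hc, map_add, pderiv_C, zero_add, pderiv_X_of_ne (Ne.symm hti)]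

open Classical in
theorem jac_det : (Matrix.of fun t i => pderiv ℂ t (ξ i)).det
    = X D.z ^ (Fintype.card {t // D.IsExc t} - 1) := by
  rw [det_of_rank _ (fun t => if D.IsExc t then (if t = D.z then 1 else 2) else 0)]
  · simp only [Matrix.of_apply, D.jac_diag hξ]
    rw [Finset.prod_ite, Finset.prod_const_one, mul_one, Finset.prod_const]
    congr 1
    have h1 : (Finset.univ.filter fun t => D.IsExc t ∧ t ≠ D.z)
        = (Finset.univ.filter fun t => D.IsExc t).erase D.z := by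
      ext t
      simp only [Finset.mem_filter, Finset.mem_erase, Finset.mem_univ, true_and]
      exact and_comm
    rw [h1, Finset.card_erase_of_mem, Fintype.card_subtype]
    exact Finset.mem_filter.2 ⟨Finset.mem_univ _, D.isExc_z⟩
  · intro t i hti hb
    rw [Matrix.of_apply]
    apply D.jac_tri hξ t i hti
    by_cases hi : D.IsExc i
    · right
      by_cases ht : D.IsExc t
      · refine ⟨ht, ?_⟩
        by_contra hcon
        push Not at hcon
        simp only [if_pos hi, if_pos ht, if_pos hcon.2, if_neg hcon.1] at hb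
        omega
      · simp only [if_pos hi, if_neg ht] at hb
        split_ifs at hb <;> omega
    · left; exact hi

/-- the coordinates which are not exceptional -/
theorem coord_nonexc (t : σ) (ht : ¬ D.IsExc t) :
    ∃ q : MvPolynomial σ ℂ, IsCoord D.z t (MvPolynomial.aeval ξ q) := by
  obtain ⟨c0, hc0⟩ := D.ξ_nonexc hξ t ht
  refine ⟨MvPolynomial.X t - MvPolynomial.C c0, ?_⟩
  rw [map_sub, MvPolynomial.aeval_X, hc0, MvPolynomial.aeval_C]
  have h5 : algebraMap ℂ (MvPowerSeries σ ℂ) c0 = MvPowerSeries.C c0 := rfl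
  rw [h5, add_sub_cancel_left]
  refine ⟨constantCoeff_X t, ?_, ?_⟩
  · rw [coeff_X, if_pos rfl]; exact one_ne_zero
  · intro l _ hl
    rw [coeff_X, if_neg]
    intro h6
    exact hl (Finsupp.single_left_injective one_ne_zero h6)

/-- **The roots which come from the chart.** -/
theorem main {ι : Type} [Fintype ι] (f : ι → MvPolynomial σ ℂ) (b : Polynomial ℂ)
    (H : MvPolynomial σ ℂ) (hb : Pool.Agent.W574.LM.IsLocEq H f b)
    (hH : constantCoeff (MvPolynomial.aeval ξ H) ≠ 0) (a l : ℕ) (hl : l < a)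
    (hf : HasOrd D.z ξ a f)
    (hg : ∀ t, t ≠ D.z → D.IsExc t → Gives D.z ξ a f t)
    (p : MvPolynomial σ ℂ) (U : MvPowerSeries σ ℂ) (hU : constantCoeff U ≠ 0)
    (hp : MvPolynomial.aeval ξ p = X D.z ^ 1 * U) (ν : ℕ) [Fintype {t // D.IsExc t}]
    (hν : Fintype.card {t // D.IsExc t} = ν) :
    b.eval (-((ν : ℂ) + l) / a) = 0 := by
  classical
  have h1 : (((ν - 1 : ℕ) : ℂ) + 1 + l) = (ν : ℂ) + l := by
    have h2 : 0 < ν := by
      rw [← hν]
      exact Fintype.card_pos_iff.2 ⟨⟨_, D.isExc_z⟩⟩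
    have h3 : ((ν - 1 : ℕ) : ℂ) + 1 = ν := by exact_mod_cast (by omega : ν - 1 + 1 = ν)
    rw [h3]
  rw [← h1]
  refine rees_span f b H hb D.z ξ hH (ν - 1) a l hl 1 (U ^ l) (by simp) ?_ ?_ hf (p ^ l) ?_ ?_
  · rw [map_pow]
    exact pow_ne_zero _ hU
  · rw [D.jac_det hξ, mul_one]
    congr 2
    convert hν
  · rw [map_pow, hp, mul_pow, pow_one]
  · intro t ht
    by_cases hexc : D.IsExc t
    · right
      exact hg t ht hexc
    · left
      exact D.coord_nonexc hξ t hexc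

end Mt

end Pool.Agent.TH192.DT
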