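import Pool.Agent.TH192.DT.Minor

set_option autoImplicit false
set_option linter.unusedSectionVars false
set_option linter.unusedVariables false

/-! # Minors of generic and symmetric matrices -/

namespace Pool.Agent.TH192.DT

open MvPowerSeries Pool.Agent.W574.SM

/-- The `p`-minors of a matrix: the determinants of the submatrices given by `p` rows and `p`
columns, in increasing order. -/
noncomputable def minorsOf {m n : ℕ} {S : Type} [CommRing S] (M : Matrix (Fin m) (Fin n) S)
    (p : ℕ) (rc : (Fin p ↪o Fin m) × (Fin p ↪o Fin n)) : S :=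
  (M.submatrix rc.1 rc.2).det

theorem det_mem_span {σ : Type} {m n : ℕ} (M : Matrix (Fin m) (Fin n) (MvPolynomial σ ℂ)) {p : ℕ}
    (r : Fin p → Fin m) (c : Fin p → Fin n) :
    (M.submatrix r c).det ∈ Submodule.span ℂ (Set.range (minorsOf M p)) := by
  classical
  by_cases h1 : Function.Injective r
  · by_cases h2 : Function.Injective c
    · obtain ⟨r0, π1, hr⟩ := exists_sort r h1
      obtain ⟨c0, π2, hc⟩ := exists_sort c h2
      have h3 : M.submatrix r c = ((M.submatrix r0 c0).submatrix π1 id).submatrix id π2 := by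
        ext1 i j
        simp only [Matrix.submatrix_apply, id_eq, hr, hc]
      have h4 : (M.submatrix r c).det = (((Equiv.Perm.sign π2 : ℤ) : ℂ) *
          ((Equiv.Perm.sign π1 : ℤ) : ℂ)) • minorsOf M p (r0, c0) := by
        rw [h3, Matrix.det_permute', Matrix.det_permute, minorsOf, Algebra.smul_def]
        simp only [map_mul, map_intCast]
        ring
      rw [h4]
      exact Submodule.smul_mem _ _ (Submodule.subset_span ⟨_, rfl⟩)
    · rw [Function.not_injective_iff] at h2
      obtain ⟨i, j, hij, hne⟩ := h2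
      have h3 : (M.submatrix r c).det = 0 := by
        rw [← Matrix.det_transpose]
        refine Matrix.det_zero_of_row_eq hne ?_
        funext k
        simp only [Matrix.transpose_apply, Matrix.submatrix_apply, hij]
      rw [h3]
      exact Submodule.zero_mem _
  · rw [Function.not_injective_iff] at h1
    obtain ⟨i, j, hij, hne⟩ := h1
    have h3 : (M.submatrix r c).det = 0 := by
      refine Matrix.det_zero_of_row_eq hne ?_
      funext k
      simp only [Matrix.submatrix_apply, hij]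
    rw [h3]
    exact Submodule.zero_mem _

theorem dvd_of_mem_span {σ ι : Type} {z : σ} {ξ : σ → MvPowerSeries σ ℂ} {a : ℕ}
    {f : ι → MvPolynomial σ ℂ} (h : ∀ j, X z ^ a ∣ MvPolynomial.aeval ξ (f j))
    (F : MvPolynomial σ ℂ) (hF : F ∈ Submodule.span ℂ (Set.range f)) :
    X z ^ a ∣ MvPolynomial.aeval ξ F := by
  refine Submodule.span_induction ?_ ?_ ?_ ?_ hF
  · rintro _ ⟨j, rfl⟩
    exact h j
  · rw [map_zero]
    exact dvd_zero _
  · intro x y _ _ hx hy
    rw [map_add]
    exact dvd_add hx hy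
  · intro c x _ hx
    rw [map_smul, Algebra.smul_def]
    exact Dvd.dvd.mul_left hx _

theorem HasOrd_of_span {σ ι ι' : Type} {z : σ} {ξ : σ → MvPowerSeries σ ℂ} {a : ℕ}
    {f : ι → MvPolynomial σ ℂ} {g : ι' → MvPolynomial σ ℂ} (h : HasOrd z ξ a f)
    (hfg : ∀ i, f i ∈ Submodule.span ℂ (Set.range g))
    (hgf : ∀ i, g i ∈ Submodule.span ℂ (Set.range f)) : HasOrd z ξ a g := by
  obtain ⟨h1, F, hF, U, hU, hFU⟩ := h
  refine ⟨fun j => dvd_of_mem_span h1 _ (hgf j), F, ?_, U, hU, hFU⟩
  have h2 : Submodule.span ℂ (Set.range f) ≤ Submodule.span ℂ (Set.range g) := by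
    rw [Submodule.span_le]
    rintro _ ⟨i, rfl⟩
    exact hfg i
  exact h2 hF

theorem Gives_of_span {σ ι ι' : Type} {z t : σ} {ξ : σ → MvPowerSeries σ ℂ} {a : ℕ}
    {f : ι → MvPolynomial σ ℂ} {g : ι' → MvPolynomial σ ℂ} (h : Gives z ξ a f t)
    (hfg : ∀ i, f i ∈ Submodule.span ℂ (Set.range g)) : Gives z ξ a g t := by
  obtain ⟨F, hF, w, hw, hFU⟩ := h
  refine ⟨F, ?_, w, hw, hFU⟩
  have h2 : Submodule.span ℂ (Set.range f) ≤ Submodule.span ℂ (Set.range g) := by
    rw [Submodule.span_le]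
    rintro _ ⟨i, rfl⟩
    exact hfg i
  exact h2 hF

/-- Near the origin of a line on which `H` does not vanish identically. -/
theorem exists_scale {σ : Type} (H : MvPolynomial σ ℂ) (hH : MvPolynomial.constantCoeff H ≠ 0)
    (δ : σ → ℂ) : ∃ lam : ℂ, lam ≠ 0 ∧ MvPolynomial.eval (fun t => lam * δ t) H ≠ 0 := by
  classical
  set h : Polynomial ℂ := MvPolynomial.aeval (fun t => Polynomial.X * Polynomial.C (δ t)) H
    with hh
  have hev : ∀ x : ℂ, h.eval x = MvPolynomial.eval (fun t => x * δ t) H := by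
    intro x
    rw [hh, ← Polynomial.coe_evalRingHom]
    have h1 : (Polynomial.evalRingHom x).comp (MvPolynomial.aeval (fun t => Polynomial.X *
        Polynomial.C (δ t)) : MvPolynomial σ ℂ →ₐ[ℂ] Polynomial ℂ).toRingHom
        = MvPolynomial.eval (fun t => x * δ t) := by
      apply MvPolynomial.ringHom_ext
      · intro r
        simp
      · intro i
        simp only [RingHom.comp_apply, AlgHom.toRingHom_eq_coe, RingHom.coe_coe,
          MvPolynomial.aeval_X, MvPolynomial.eval_X, Polynomial.coe_evalRingHom,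
          Polynomial.eval_mul, Polynomial.eval_X, Polynomial.eval_C]
    exact congrFun (congrArg DFunLike.coe h1) H
  have h0 : h.eval 0 ≠ 0 := by
    rw [hev]
    have h2 : (fun t => (0 : ℂ) * δ t) = 0 := by
      funext t
      simp
    rw [h2, MvPolynomial.eval_zero]
    exact hH
  have hne : h ≠ 0 := by
    rintro h3
    rw [h3] at h0
    simp at h0
  have hfin : (h.roots.toFinset ∪ {0} : Finset ℂ).Nonempty := ⟨0, by simp⟩
  obtain ⟨lam, hlam⟩ := Infinite.exists_notMem_finset (h.roots.toFinset ∪ {0} : Finset ℂ)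
  rw [Finset.mem_union, not_or, Finset.mem_singleton, Multiset.mem_toFinset,
    Polynomial.mem_roots hne] at hlam
  refine ⟨lam, hlam.2, ?_⟩
  rw [← hev]
  exact hlam.1

theorem cc_aeval {σ : Type} (ξ : σ → MvPowerSeries σ ℂ) (H : MvPolynomial σ ℂ) :
    constantCoeff (MvPolynomial.aeval ξ H)
      = MvPolynomial.eval (fun t => constantCoeff (ξ t)) H := by
  have h1 : (constantCoeff : MvPowerSeries σ ℂ →+* ℂ).comp
      (MvPolynomial.aeval ξ : MvPolynomial σ ℂ →ₐ[ℂ] MvPowerSeries σ ℂ).toRingHom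
      = MvPolynomial.eval (fun t => constantCoeff (ξ t)) := by
    apply MvPolynomial.ringHom_ext
    · intro r
      have h2 : (MvPolynomial.aeval ξ : MvPolynomial σ ℂ →ₐ[ℂ] MvPowerSeries σ ℂ)
          (MvPolynomial.C r) = MvPowerSeries.C r := MvPolynomial.aeval_C _ _
      simp only [RingHom.comp_apply, AlgHom.toRingHom_eq_coe, RingHom.coe_coe]
      rw [h2]
      simp
    · intro i
      simp
  exact congrFun (congrArg DFunLike.coe h1) H

namespace Gm

variable {A R K σ : Type} [Fintype A] [DecidableEq A] [Fintype R] [DecidableEq R]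
  [Fintype K] [DecidableEq K] [Fintype σ] [DecidableEq σ] {N : ℕ} (G : Gm A R K σ N)

/-- the coordinates of the base point, divided by `lam` -/
noncomputable def dl (t : σ) : ℂ :=
  Matrix.fromBlocks (1 : Matrix A A ℂ) 0 0 (0 : Matrix (Tl N R) (Tl N K) ℂ)
    (G.surj t).choose (G.surj t).choose_spec.choose

theorem cc_mX (lam : ℂ) (hlam : lam ≠ 0) (x : A ⊕ Tl N R) (y : A ⊕ Tl N K) :
    constantCoeff ((G.D lam hlam).mX x y)
      = lam * Matrix.fromBlocks (1 : Matrix A A ℂ) 0 0 (0 : Matrix (Tl N R) (Tl N K) ℂ) x y := by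
  have hv : ∀ x y, constantCoeff ((G.D lam hlam).v x y) = 0 := by
    intro x y
    rw [Mt.v, map_mul, constantCoeff_X, mul_zero]
  rcases x with a | r <;> rcases y with b | c
  · have h := congrFun (congrFun (G.D lam hlam).cc_mA a) b
    rw [RingHom.mapMatrix_apply, Matrix.map_apply] at h
    change constantCoeff ((G.D lam hlam).mA a b) = _
    rw [h]
    rfl
  · rw [Matrix.fromBlocks_apply₁₂, Matrix.zero_apply, mul_zero]
    exact hv _ _
  · rw [Matrix.fromBlocks_apply₂₁, Matrix.zero_apply, mul_zero]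
    exact hv _ _
  · rw [Matrix.fromBlocks_apply₂₂, Matrix.zero_apply, mul_zero]
    change constantCoeff (((G.D lam hlam).mC * (G.D lam hlam).mA⁻¹ * (G.D lam hlam).mB) r c +
      X (G.D lam hlam).z * (G.D lam hlam).mY r c) = 0
    rw [map_add, map_mul, constantCoeff_X, zero_mul, add_zero, Matrix.mul_apply, map_sum]
    refine Finset.sum_eq_zero fun j _ => ?_
    rw [map_mul]
    have h1 : constantCoeff ((G.D lam hlam).mB j c) = 0 := hv _ _
    rw [h1, mul_zero]

theorem cc_xi {lam : ℂ} {hlam : lam ≠ 0} {ξ : σ → MvPowerSeries σ ℂ}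
    (hξ : (G.D lam hlam).IsChart ξ) (t : σ) : constantCoeff (ξ t) = lam * G.dl t := by
  have h1 := (G.surj t).choose_spec.choose_spec
  have h2 := hξ (G.surj t).choose (G.surj t).choose_spec.choose
  have h3 : (G.D lam hlam).ix (G.surj t).choose (G.surj t).choose_spec.choose = t := h1.symm
  rw [h3] at h2
  have h4 : ((G.D lam hlam).sg (G.surj t).choose (G.surj t).choose_spec.choose) = 1 := rfl
  rw [h4, map_one, one_mul] at h2
  rw [← h2, G.cc_mX, dl]

variable {m n : ℕ} (e1 : A ⊕ Tl N R ≃ Fin m) (e2 : A ⊕ Tl N K ≃ Fin n)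
  (M : Matrix (Fin m) (Fin n) (MvPolynomial σ ℂ))
  (hM : ∀ x y, M (e1 x) (e2 y) = MvPolynomial.X (G.ix x y))

include hM

theorem fam_eq (p : ℕ) (r : Fin p → A ⊕ Tl N R) (c : Fin p → A ⊕ Tl N K) :
    G.fam p (r, c) = (M.submatrix (fun i => e1 (r i)) (fun i => e2 (c i))).det := by
  rw [fam]
  congr 1
  ext1 i j
  rw [Matrix.submatrix_apply, Matrix.submatrix_apply, hM, Mt.mP, Matrix.of_apply]
  change MvPolynomial.C (1 : ℂ) * _ = _
  rw [map_one, one_mul]
  rfl

theorem fam_mem (p : ℕ) (rc : (Fin p → A ⊕ Tl N R) × (Fin p → A ⊕ Tl N K)) :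
    G.fam p rc ∈ Submodule.span ℂ (Set.range (minorsOf M p)) := by
  rw [← Prod.mk.eta (p := rc), G.fam_eq e1 e2 M hM]
  exact det_mem_span M _ _

theorem minorsOf_mem (p : ℕ) (rc : (Fin p ↪o Fin m) × (Fin p ↪o Fin n)) :
    minorsOf M p rc ∈ Submodule.span ℂ (Set.range (G.fam p)) := by
  have h : minorsOf M p rc = G.fam p (fun i => e1.symm (rc.1 i), fun i => e2.symm (rc.2 i)) := by
    rw [G.fam_eq e1 e2 M hM]
    simp only [Equiv.apply_symm_apply]
    rfl
  rw [h]
  exact Submodule.subset_span ⟨_, rfl⟩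

/-- **The roots.** -/
theorem roots {τ : Type} [Fintype τ] [DecidableEq τ] (p : τ → ℕ)
    (hp : ∀ t, p t ≤ Fintype.card A + (N + 2)) (t0 : τ) (h0 : Fintype.card A < p t0)
    (h1 : p t0 < Fintype.card A + (N + 2)) (b : Polynomial ℂ) (H : MvPolynomial σ ℂ)
    (hb : Pool.Agent.W574.LM.IsLocEq H (prodFam fun t => minorsOf M (p t)) b)
    (hH : MvPolynomial.constantCoeff H ≠ 0)
    (hchart : ∀ (lam : ℂ) (hlam : lam ≠ 0), ∃ ξ, (G.D lam hlam).IsChart ξ)
    (l : ℕ) (hl : l < ∑ t, (p t - Fintype.card A)) (ν : ℕ)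
    (hν : Nat.card {t // ∃ r c, t = G.ix (Sum.inr r) (Sum.inr c)} = ν) :
    b.eval (-((ν : ℂ) + l) / (∑ t, (p t - Fintype.card A) : ℕ)) = 0 := by
  classical
  obtain ⟨lam, hlam, hlH⟩ := exists_scale H hH G.dl
  obtain ⟨ξ, hξ⟩ := hchart lam hlam
  have hord : ∀ q, q ≤ Fintype.card A + (N + 2) →
      HasOrd (G.D lam hlam).z ξ (q - Fintype.card A) (minorsOf M q) := fun q hq =>
    HasOrd_of_span (G.hasOrd_fam lam hlam hξ q hq) (G.fam_mem e1 e2 M hM q)
      (G.minorsOf_mem e1 e2 M hM q)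
  obtain ⟨_, F, _, U, hU, hFU⟩ := hord (Fintype.card A + 1) (by omega)
  rw [Nat.add_sub_cancel_left] at hFU
  refine (G.D lam hlam).main hξ _ b H hb ?_ _ l hl
    (hasOrd_prod _ ξ _ _ fun t => hord (p t) (hp t)) ?_ F U hU hFU ν ?_
  · rw [cc_aeval]
    have h2 : (fun t => constantCoeff (ξ t)) = fun t => lam * G.dl t := by
      funext t
      exact G.cc_xi hξ t
    rw [h2]
    exact hlH
  · intro t ht hexc
    refine gives_prod _ ξ _ _ (fun t => hord (p t) (hp t)) t0 t ?_
    exact Gives_of_span (G.gives_fam lam hlam hξ (p t0) h0 h1 t ht hexc)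
      (G.fam_mem e1 e2 M hM _)
  · rw [← hν, ← Nat.card_eq_fintype_card]
    refine Nat.card_congr (Equiv.subtypeEquivRight fun t => ?_)
    constructor
    · rintro ⟨r, c, _, h⟩
      exact ⟨r, c, h⟩
    · rintro ⟨r, c, h⟩
      exact ⟨r, c, one_ne_zero, h⟩

end Gm

end Pool.Agent.TH192.DT
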