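import Pool.Agent.TH192.DT.Fin

set_option autoImplicit false
set_option linter.unusedSectionVars false
set_option linter.unusedVariables false

/-! # Products of the determinantal ideals of the generic symmetric matrix -/

namespace Pool.Agent.TH192.DT

open MvPowerSeries Pool.Agent.W574.SM

/-- The generic symmetric `n × n` matrix: its entries at the places `(i, j)` and `(j, i)` are the
variable of index `s(i, j)`. -/
noncomputable def symmetricMatrix (n : ℕ) :
    Matrix (Fin n) (Fin n) (MvPolynomial (Sym2 (Fin n)) ℂ) :=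
  Matrix.of fun i j => MvPolynomial.X s(i, j)

/-- the data of the generic symmetric matrix -/
def gS {n d N : ℕ} (e : Fin d ⊕ Tl N (Fin 0) ≃ Fin n) :
    Gm (Fin d) (Fin 0) (Fin 0) (Sym2 (Fin n)) N where
  ix := fun x y => s(e x, e y)
  surj := fun t => by
    induction t using Sym2.ind with
    | _ x y => exact ⟨e.symm x, e.symm y, by simp⟩
  exc := fun r c x y h => by
    rw [Sym2.eq_iff, e.injective.eq_iff, e.injective.eq_iff, e.injective.eq_iff,
      e.injective.eq_iff] at h
    rcases h with h | h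
    · exact ⟨⟨r, h.1.symm⟩, ⟨c, h.2.symm⟩⟩
    · exact ⟨⟨c, h.2.symm⟩, ⟨r, h.1.symm⟩⟩
  dg := fun i x y h => by
    rw [Sym2.eq_iff, e.injective.eq_iff, e.injective.eq_iff] at h
    rcases h with h | h
    · exact ⟨h.1.symm, h.2.symm⟩
    · exact ⟨h.2.symm, h.1.symm⟩

theorem gS_symm {n d N : ℕ} (e : Fin d ⊕ Tl N (Fin 0) ≃ Fin n) (lam : ℂ) (hlam : lam ≠ 0) :
    (((gS e).D lam hlam).mX).transpose = ((gS e).D lam hlam).mX := by
  have hv : ∀ x y, ((gS e).D lam hlam).v x y = ((gS e).D lam hlam).v y x := by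
    intro x y
    change MvPowerSeries.C (1 : ℂ) * X s(e x, e y) = MvPowerSeries.C (1 : ℂ) * X s(e y, e x)
    rw [Sym2.eq_swap]
  have hA : (((gS e).D lam hlam).mA).transpose = ((gS e).D lam hlam).mA := by
    ext1 a b
    rw [Matrix.transpose_apply, Mt.mA, Matrix.add_apply, Matrix.add_apply, Matrix.of_apply,
      Matrix.of_apply, hv]
    congr 1
    rw [Matrix.map_apply, Matrix.map_apply]
    change MvPowerSeries.C ((lam • (1 : Matrix (Fin d) (Fin d) ℂ)) b a)
      = MvPowerSeries.C ((lam • (1 : Matrix (Fin d) (Fin d) ℂ)) a b)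
    rw [Matrix.smul_apply, Matrix.smul_apply, Matrix.one_apply, Matrix.one_apply]
    simp only [eq_comm]
  have hB : (((gS e).D lam hlam).mB).transpose = ((gS e).D lam hlam).mC := by
    ext1 a b
    exact hv _ _
  have hC : (((gS e).D lam hlam).mC).transpose = ((gS e).D lam hlam).mB := by
    ext1 a b
    exact hv _ _
  have hY : (((gS e).D lam hlam).mY).transpose = ((gS e).D lam hlam).mY := by
    ext1 r c
    rw [Matrix.transpose_apply, Mt.mY, Matrix.of_apply, Matrix.of_apply, hv]
    have h1 : ((gS e).D lam hlam).ix (Sum.inr c) (Sum.inr r)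
        = ((gS e).D lam hlam).ix (Sum.inr r) (Sum.inr c) := Sym2.eq_swap
    rw [h1]
    congr 2
    change y0 N c r = y0 N r c
    rcases r with i | r <;> rcases c with j | c <;> simp only [y0, Sum.elim_inl, Sum.elim_inr]
    simp only [eq_comm]
  rw [Mt.mX, Matrix.fromBlocks_transpose, hA, hB, hC, Matrix.transpose_add,
    Matrix.transpose_smul, hY, Matrix.transpose_mul, Matrix.transpose_mul, hB, hC,
    Matrix.transpose_nonsing_inv, hA, Matrix.mul_assoc]

theorem symm_roots (n d l : ℕ) {τ : Type} [Fintype τ] [DecidableEq τ] (p : τ → ℕ)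
    (hpn : ∀ t, p t ≤ n) (t0 : τ) (h0 : d < p t0) (h1 : p t0 < n)
    (b : Polynomial ℂ) (H : MvPolynomial (Sym2 (Fin n)) ℂ)
    (hb : Pool.Agent.W574.LM.IsLocEq H (prodFam fun t => minorsOf (symmetricMatrix n) (p t)) b)
    (hH : MvPolynomial.constantCoeff H ≠ 0) (hl : l < ∑ t, (p t - d)) :
    b.eval (-(((n : ℂ) - d) * (n - d + 1) / 2 + l) / (∑ t, (p t - d) : ℕ)) = 0 := by
  classical
  obtain ⟨N, hN⟩ : ∃ N, n = d + (N + 2) := ⟨n - d - 2, by omega⟩
  have e : Fin d ⊕ Tl N (Fin 0) ≃ Fin n := Fintype.equivOfCardEq (by simp [Tl, hN])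
  have hpN : ∀ t, p t ≤ Fintype.card (Fin d) + (N + 2) := by
    intro t
    rw [Fintype.card_fin, ← hN]
    exact hpn t
  have hmain := (gS e).roots e e (symmetricMatrix n) (fun x y => rfl) p hpN t0
    (by rw [Fintype.card_fin]; exact h0)
    (by rw [Fintype.card_fin, ← hN]; exact h1) b H hb hH
    (fun lam hlam => ⟨Sym2.lift ⟨fun i j => ((gS e).D lam hlam).mX (e.symm i) (e.symm j), ?_⟩,
      ?_⟩) l (by rw [Fintype.card_fin]; exact hl) ((n - d + 1).choose 2) ?_
  · rw [Fintype.card_fin] at hmain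
    have h3 : (((n - d + 1).choose 2 : ℕ) : ℂ) = ((n : ℂ) - d) * (n - d + 1) / 2 := by
      rw [Nat.cast_choose_two, Nat.cast_add, Nat.cast_sub (by omega), Nat.cast_one]
      ring
    rw [← h3]
    exact hmain
  · intro i j
    exact (congrFun (congrFun (gS_symm e lam hlam) (e.symm j)) (e.symm i))
  · intro x y
    change _ = MvPowerSeries.C (1 : ℂ) * ((gS e).D lam hlam).mX (e.symm (e x)) (e.symm (e y))
    rw [map_one, one_mul, Equiv.symm_apply_apply, Equiv.symm_apply_apply]
  · have h4 : Nat.card {t // ∃ r c, t = (gS e).ix (Sum.inr r) (Sum.inr c)}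
        = Nat.card (Sym2 (Tl N (Fin 0))) := by
      symm
      refine Nat.card_eq_of_bijective (fun q => ⟨Sym2.map (fun r => e (Sum.inr r)) q, ?_⟩)
        ⟨?_, ?_⟩
      · induction q using Sym2.ind with
        | _ x y => exact ⟨x, y, rfl⟩
      · intro q q' h
        rw [Subtype.mk.injEq] at h
        exact Sym2.map.injective (e.injective.comp Sum.inr_injective) h
      · rintro ⟨t, a, b, h⟩
        exact ⟨s(a, b), Subtype.ext h.symm⟩
    rw [h4, Nat.card_eq_fintype_card, Sym2.card]
    have h5 : Fintype.card (Tl N (Fin 0)) = n - d := by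
      simp [Tl]; omega
    rw [h5]

end Pool.Agent.TH192.DT
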