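import Pool.Agent.TH192.DT.Generic
import Pool.Agent.TH192.DT.Symm
import Pool.Agent.W574.HS.LocalForm

set_option autoImplicit false
set_option linter.unusedSectionVars false
set_option linter.unusedVariables false

/-! # From the hypersurfaces `∑ y_j f_j = 0` to the ideals `(f_j)` -/

namespace Pool.Agent.TH192.DT

open MvPolynomial Pool.Agent.W574.SM Pool.Agent.W574.HS Pool.Agent.W574.LM
  Pool.Agent.H628R4.TP

variable {σ ι : Type} [Fintype σ] [DecidableEq σ] [Fintype ι] [DecidableEq ι]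

theorem isLocEq_of_univ (f : ι → MvPolynomial σ ℂ) (b : Polynomial ℂ)
    (hb : IsBFunction (univ f) b) : IsLocEq 1 f b :=
  isLocEq_of_isFunctionalEq (functionalEq_of_univ f b hb)

theorem minus_one_univ (f : ι → MvPolynomial σ ℂ) (hf : ∃ j, f j ≠ 0) (b : Polynomial ℂ)
    (hb : IsBFunction (univ f) b) : b.eval (-1) = 0 := by
  obtain ⟨P, hP⟩ := hb
  refine minus_one (univ f) 1 (univ_ne_zero f hf) (univ_not_unit f) b P fun s => ?_
  rw [one_mul]
  exact hP s

theorem local_univ (f : ι → MvPolynomial σ ℂ) (hf : ∃ j, f j ≠ 0) (b : Polynomial ℂ)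
    (hb : IsLocalBFunction (univ f) b) :
    ∃ H : MvPolynomial σ ℂ, constantCoeff H ≠ 0 ∧ IsLocEq H f b := by
  obtain ⟨H, P, hH, hP⟩ := algebraic_of_local (univ f) (univ_ne_zero f hf) b hb
  exact ⟨hat H 0, by rw [cc_hat]; exact hH, locEq_of_univ f b H P hP⟩

theorem minus_one_local (f : ι → MvPolynomial σ ℂ) (hf : ∃ j, f j ≠ 0) (b : Polynomial ℂ)
    (hb : IsLocalBFunction (univ f) b) : b.eval (-1) = 0 := by
  obtain ⟨H, P, hH, hP⟩ := algebraic_of_local (univ f) (univ_ne_zero f hf) b hb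
  refine minus_one (univ f) H (univ_ne_zero f hf) ?_ b P hP
  rintro ⟨G, rfl⟩
  rw [map_mul, cc_univ, zero_mul] at hH
  exact hH rfl

/-- The products are not all zero. -/
theorem exists_prod_ne {τ : Type} [Fintype τ] [DecidableEq τ] {κ : τ → Type}
    [∀ t, Fintype (κ t)] (f : (t : τ) → κ t → MvPolynomial σ ℂ) (h : ∀ t, ∃ j, f t j ≠ 0) :
    ∃ j, prodFam f j ≠ 0 := by
  choose j hj using h
  exact ⟨j, Finset.prod_ne_zero_iff.2 fun t _ => hj t⟩

theorem exists_minor_ne {m n p : ℕ} (hm : p ≤ m) (hn : p ≤ n)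
    (M : Matrix (Fin m) (Fin n) (MvPolynomial σ ℂ)) (x : σ → ℂ)
    (hx : ∀ i : Fin p, ∀ j : Fin p,
      eval x (M (Fin.castLE hm i) (Fin.castLE hn j)) = if i = j then 1 else 0) :
    ∃ rc, minorsOf M p rc ≠ 0 := by
  refine ⟨(Fin.castLEOrderEmb hm, Fin.castLEOrderEmb hn), fun h => ?_⟩
  have h1 := congrArg (eval x) h
  rw [minorsOf, RingHom.map_det, map_zero] at h1
  have h2 : (eval x).mapMatrix (M.submatrix (Fin.castLEOrderEmb hm) (Fin.castLEOrderEmb hn))
      = (1 : Matrix (Fin p) (Fin p) ℂ) := by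
    ext i j
    rw [RingHom.mapMatrix_apply, Matrix.map_apply, Matrix.submatrix_apply, Matrix.one_apply]
    exact hx i j
  rw [h2, Matrix.det_one] at h1
  exact one_ne_zero h1

theorem generic_ne {m n p : ℕ} (hm : p ≤ m) (hn : p ≤ n) :
    ∃ rc, minorsOf (genericMatrix m n) p rc ≠ 0 := by
  classical
  refine exists_minor_ne hm hn _ (fun t => if (t.1 : ℕ) = t.2 then 1 else 0) fun i j => ?_
  rw [genericMatrix, Matrix.of_apply, eval_X]
  simp [Fin.ext_iff]

theorem symm_ne {n p : ℕ} (hn : p ≤ n) :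
    ∃ rc, minorsOf (symmetricMatrix n) p rc ≠ 0 := by
  classical
  refine exists_minor_ne hn hn _ (fun t => if t.IsDiag then 1 else 0) fun i j => ?_
  rw [symmetricMatrix, Matrix.of_apply, eval_X]
  simp [Sym2.mk_isDiag_iff]

end Pool.Agent.TH192.DT
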