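import Pool.Agent.TH192.DT.Fin

set_option autoImplicit false
set_option linter.unusedSectionVars false
set_option linter.unusedVariables false

/-! # Products of the determinantal ideals of the generic matrix -/

namespace Pool.Agent.TH192.DT

open MvPowerSeries Pool.Agent.W574.SM

/-- The generic `m × n` matrix: its entries are the variables. -/
noncomputable def genericMatrix (m n : ℕ) :
    Matrix (Fin m) (Fin n) (MvPolynomial (Fin m × Fin n) ℂ) :=
  Matrix.of fun i j => MvPolynomial.X (i, j)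

/-- the data of the generic matrix -/
def gG {m n d N r k : ℕ} (e1 : Fin d ⊕ Tl N (Fin r) ≃ Fin m) (e2 : Fin d ⊕ Tl N (Fin k) ≃ Fin n) :
    Gm (Fin d) (Fin r) (Fin k) (Fin m × Fin n) N where
  ix := fun x y => (e1 x, e2 y)
  surj := fun t => ⟨e1.symm t.1, e2.symm t.2, by simp⟩
  exc := fun r c x y h => by
    rw [Prod.mk.injEq, e1.injective.eq_iff, e2.injective.eq_iff] at h
    exact ⟨⟨r, h.1.symm⟩, ⟨c, h.2.symm⟩⟩
  dg := fun i x y h => by
    rw [Prod.mk.injEq, e1.injective.eq_iff, e2.injective.eq_iff] at h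
    exact ⟨h.1.symm, h.2.symm⟩

theorem generic_roots (m n d l : ℕ) {τ : Type} [Fintype τ] [DecidableEq τ] (p : τ → ℕ)
    (hpm : ∀ t, p t ≤ m) (hpn : ∀ t, p t ≤ n) (t0 : τ) (h0 : d < p t0) (h1 : p t0 < m)
    (h2 : p t0 < n) (b : Polynomial ℂ) (H : MvPolynomial (Fin m × Fin n) ℂ)
    (hb : Pool.Agent.W574.LM.IsLocEq H (prodFam fun t => minorsOf (genericMatrix m n) (p t)) b)
    (hH : MvPolynomial.constantCoeff H ≠ 0) (hl : l < ∑ t, (p t - d)) :
    b.eval (-(((m : ℂ) - d) * (n - d) + l) / (∑ t, (p t - d) : ℕ)) = 0 := by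
  classical
  obtain ⟨N, hN⟩ : ∃ N, min m n = d + (N + 2) := ⟨min m n - d - 2, by omega⟩
  obtain ⟨r, hr⟩ : ∃ r, m = d + (N + 2 + r) := ⟨m - d - N - 2, by omega⟩
  obtain ⟨k, hk⟩ : ∃ k, n = d + (N + 2 + k) := ⟨n - d - N - 2, by omega⟩
  have e1 : Fin d ⊕ Tl N (Fin r) ≃ Fin m := Fintype.equivOfCardEq (by simp [Tl, hr])
  have e2 : Fin d ⊕ Tl N (Fin k) ≃ Fin n := Fintype.equivOfCardEq (by simp [Tl, hk])
  have hpN : ∀ t, p t ≤ Fintype.card (Fin d) + (N + 2) := by
    intro t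
    rw [Fintype.card_fin, ← hN]
    exact le_min (hpm t) (hpn t)
  have hmain := (gG e1 e2).roots e1 e2 (genericMatrix m n) (fun x y => rfl) p hpN t0
    (by rw [Fintype.card_fin]; exact h0)
    (by rw [Fintype.card_fin, ← hN]; exact lt_min h1 h2) b H hb hH
    (fun lam hlam => ⟨fun t => ((gG e1 e2).D lam hlam).mX (e1.symm t.1) (e2.symm t.2), ?_⟩) l
    (by rw [Fintype.card_fin]; exact hl) ((m - d) * (n - d)) ?_
  · rw [Fintype.card_fin] at hmain
    have h3 : (((m - d) * (n - d) : ℕ) : ℂ) = ((m : ℂ) - d) * (n - d) := by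
      rw [Nat.cast_mul, Nat.cast_sub (by omega), Nat.cast_sub (by omega)]
    rw [← h3]
    exact hmain
  · intro x y
    change _ = MvPowerSeries.C (1 : ℂ) * ((gG e1 e2).D lam hlam).mX (e1.symm (e1 x))
      (e2.symm (e2 y))
    rw [map_one, one_mul, Equiv.symm_apply_apply, Equiv.symm_apply_apply]
  · have h4 : Nat.card {t // ∃ r c, t = (gG e1 e2).ix (Sum.inr r) (Sum.inr c)}
        = Nat.card (Tl N (Fin r) × Tl N (Fin k)) := by
      symm
      refine Nat.card_eq_of_bijective (fun q => ⟨((gG e1 e2).ix (Sum.inr q.1) (Sum.inr q.2)),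
        ⟨q.1, q.2, rfl⟩⟩) ⟨?_, ?_⟩
      · rintro ⟨a, b⟩ ⟨a', b'⟩ h
        rw [Subtype.mk.injEq] at h
        change (e1 (Sum.inr a), e2 (Sum.inr b)) = (e1 (Sum.inr a'), e2 (Sum.inr b')) at h
        rw [Prod.mk.injEq, e1.injective.eq_iff, e2.injective.eq_iff, Sum.inr.injEq,
          Sum.inr.injEq] at h
        exact Prod.ext h.1 h.2
      · rintro ⟨t, a, b, h⟩
        exact ⟨(a, b), Subtype.ext h.symm⟩
    rw [h4, Nat.card_prod, Nat.card_eq_fintype_card, Nat.card_eq_fintype_card]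
    have h5 : Fintype.card (Tl N (Fin r)) = m - d := by
      simp [Tl]; omega
    have h6 : Fintype.card (Tl N (Fin k)) = n - d := by
      simp [Tl]; omega
    rw [h5, h6]

end Pool.Agent.TH192.DT
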