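import Pool.Agent.TH192.DT.MotZ

set_option autoImplicit false

/-! # Products of determinantal ideals on the three spaces of matrices -/

namespace Pool.Agent.TH192.DT.MSpace

open Pool.Agent.W574.SM Pool.Agent.W574.LM

/-- The multiplicity `∑ t, max (p t - d, 0)` of the product of the ideals of the minors along
`E_d`. -/
def idealN (S : MSpace) {T : ℕ} (p : Fin T → ℕ) (d : Fin S.rk) : ℕ := ∑ t, (p t - d)

/-- The family of the products of one minor (Pfaffian) for each `t`. -/
noncomputable def prods (S : MSpace) {T : ℕ} (p : Fin T → ℕ) :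
    ((t : Fin T) → S.Idx (p t)) → MvPolynomial S.Var ℂ := prodFam fun t => S.minors (p t)

theorem codim_pos (S : MSpace) (d : Fin S.rk) : 0 < S.codim d := S.nu_pos 0 (Sum.inl d)

theorem ideal_roots (S : MSpace) (T : ℕ) (p : Fin T → ℕ) (hp : ∀ t, S.Small (p t))
    (b : Polynomial ℂ) (H : MvPolynomial S.Var ℂ) (hH : MvPolynomial.constantCoeff H ≠ 0)
    (hb : IsLocEq H (S.prods p) b) (d : Fin S.rk) (l : ℕ) (hl : l < S.idealN p d) :
    b.eval (-((S.codim d : ℂ) + l) / S.idealN p d) = 0 := by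
  have hl' : l < ∑ t, (p t - (d : ℕ)) := hl
  obtain ⟨t0, _, ht0⟩ := Finset.exists_ne_zero_of_sum_ne_zero
    (by omega : ∑ t, (p t - (d : ℕ)) ≠ 0)
  cases S with
  | gen m n =>
    have h3 := generic_roots m n d l p (fun t => (hp t).1.le) (fun t => (hp t).2.le) t0 (by omega)
      (hp t0).1 (hp t0).2 b H hb hH hl'
    have h4 : (((gen m n).codim d : ℕ) : ℂ) = ((m : ℂ) - (d : ℕ)) * (n - (d : ℕ)) := by
      change (((m - d) * (n - d) : ℕ) : ℂ) = _
      have h5 : (d : ℕ) < min m n := d.2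
      rw [Nat.cast_mul, Nat.cast_sub (by omega), Nat.cast_sub (by omega)]
    rw [h4]
    exact h3
  | sym n =>
    have h3 := symm_roots n d l p (fun t => Nat.le_of_lt (hp t)) t0 (by omega) (hp t0) b H hb hH hl'
    have h4 : (((sym n).codim d : ℕ) : ℂ) = ((n : ℂ) - (d : ℕ)) * (n - (d : ℕ) + 1) / 2 := by
      change (((n - d) * (n - d + 1) / 2 : ℕ) : ℂ) = _
      have h6 : (d : ℕ) < n := d.2
      have h5 : (n - d) * (n - d + 1) / 2 = (n - d + 1).choose 2 := by
        rw [Nat.choose_two_right, Nat.add_sub_cancel, mul_comm]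
      rw [h5, Nat.cast_choose_two, Nat.cast_add, Nat.cast_sub (by omega), Nat.cast_one]
      ring
    rw [h4]
    exact h3
  | skew n =>
    have h3 := pf_roots n d l p (fun t => by have : 2 * p t + 1 < n := hp t; omega) t0 (by omega)
      (hp t0) b H hb hH hl'
    have h4 : (((skew n).codim d : ℕ) : ℂ)
        = ((n : ℂ) - 2 * (d : ℕ)) * (n - 2 * (d : ℕ) - 1) / 2 := by
      change (((n - 2 * d) * (n - 2 * d - 1) / 2 : ℕ) : ℂ) = _
      have h6 : (d : ℕ) < n / 2 := d.2
      have h5 : (n - 2 * d) * (n - 2 * d - 1) / 2 = (n - 2 * d).choose 2 := by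
        rw [Nat.choose_two_right]
      rw [h5, Nat.cast_choose_two, Nat.cast_sub (by omega)]
      push_cast
      ring
    rw [h4]
    exact h3

theorem ideal_roots_global (S : MSpace) (T : ℕ) (p : Fin T → ℕ) (hp : ∀ t, S.Small (p t))
    (b : Polynomial ℂ) (hb : IsFunctionalEq (S.prods p) b) (d : Fin S.rk) (l : ℕ)
    (hl : l < S.idealN p d) : b.eval (-((S.codim d : ℂ) + l) / S.idealN p d) = 0 :=
  S.ideal_roots T p hp b 1 (by rw [map_one]; exact one_ne_zero) (isLocEq_of_isFunctionalEq hb)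
    d l hl

end Pool.Agent.TH192.DT.MSpace
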