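import Pool.Agent.TH192.DT.Chart

set_option autoImplicit false
set_option linter.unusedSectionVars false
set_option linter.unusedVariables false

/-! # The coordinates on the divisors, given by minors -/

namespace Pool.Agent.TH192.DT

open MvPowerSeries Pool.Agent.W574.SM

/-- the data of a generic or symmetric matrix -/
structure Gm (A R K σ : Type) (n : ℕ) where
  ix : A ⊕ Tl n R → A ⊕ Tl n K → σ
  surj : ∀ t, ∃ x y, t = ix x y
  exc : ∀ r c x y, ix (Sum.inr r) (Sum.inr c) = ix x y →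
    (∃ r', x = Sum.inr r') ∧ (∃ c', y = Sum.inr c')
  dg : ∀ i x y, ix (Sum.inr (Sum.inl i)) (Sum.inr (Sum.inl i)) = ix x y →
    x = Sum.inr (Sum.inl i) ∧ y = Sum.inr (Sum.inl i)

namespace Gm

variable {A R K σ : Type} [Fintype A] [DecidableEq A] [Fintype R] [DecidableEq R]
  [Fintype K] [DecidableEq K] [Fintype σ] [DecidableEq σ] {n : ℕ} (G : Gm A R K σ n)

/-- the matrix of variables with the base point -/
noncomputable def D (lam : ℂ) (hlam : lam ≠ 0) : Mt A (Tl n R) (Tl n K) σ where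
  ix := G.ix
  sg := fun _ _ => 1
  sg_sq := fun _ _ _ => one_mul 1
  surj := fun t => by
    obtain ⟨x, y, h⟩ := G.surj t
    exact ⟨x, y, one_ne_zero, h⟩
  exc := fun r c x y _ _ h => G.exc r c x y h
  A0 := lam • 1
  hA0 := by
    rw [Matrix.det_smul, Matrix.det_one, mul_one]
    exact pow_ne_zero _ hlam
  Y0 := Matrix.of (y0 n)
  r0 := Sum.inl (Fin.last _)
  c0 := Sum.inl (Fin.last _)
  sg0 := one_ne_zero
  Y0z := fun r c _ h => by
    obtain ⟨h1, h2⟩ := G.dg _ _ _ h.symm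
    rw [Sum.inr_injective h1, Sum.inr_injective h2, Matrix.of_apply, y0]
    simp

variable (lam : ℂ) (hlam : lam ≠ 0)

theorem D_z : (G.D lam hlam).z = G.ix (Sum.inr (Sum.inl (Fin.last _)))
    (Sum.inr (Sum.inl (Fin.last _))) := rfl

theorem jet_mY (l : σ) (r : Tl n R) (c : Tl n K) :
    jet l ((G.D lam hlam).mY r c) = TrivSqZeroExt.inl (y0 n r c) + TrivSqZeroExt.inr
      (if l = G.ix (Sum.inr r) (Sum.inr c) ∧ l ≠ (G.D lam hlam).z then 1 else 0) := by
  rw [jet_apply, Mt.pderiv_mY]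
  congr 2
  · rw [Mt.mY, Matrix.of_apply, map_add, constantCoeff_C]
    split_ifs
    · rw [map_zero, add_zero]; rfl
    · rw [Mt.v, map_mul, constantCoeff_X, mul_zero, add_zero]; rfl
  · change constantCoeff (if l = G.ix (Sum.inr r) (Sum.inr c) ∧ l ≠ (G.D lam hlam).z then
      MvPowerSeries.C (1 : ℂ) else 0) = _
    split_ifs
    · rw [constantCoeff_C]
    · exact map_zero _

theorem jet_det (l : σ) {q : ℕ} (ρ : Fin q → Tl n R) (χ : Fin q → Tl n K)
    (h : ∀ i j, i ≠ j → y0 n (ρ i) (χ j) = 0) :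
    jet l (((G.D lam hlam).mY).submatrix ρ χ).det
      = ∏ i, jet l ((G.D lam hlam).mY (ρ i) (χ i)) := by
  rw [RingHom.map_det, det_offdiag]
  · rfl
  · intro i j k m hij hkm
    rw [RingHom.mapMatrix_apply, Matrix.map_apply, Matrix.map_apply, Matrix.submatrix_apply,
      Matrix.submatrix_apply, G.jet_mY, G.jet_mY, h i j hij, h k m hkm]
    simp

/-- the rows or columns `r, κ 0, κ 1, …` -/
def cn {R : Type} {q : ℕ} (r : Tl n R) (κ : Fin q → Fin (n + 2)) : Fin (q + 1) → Tl n R :=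
  Fin.cons r (fun a => Sum.inl (κ a))

theorem off (r : Tl n R) (c : Tl n K) {q : ℕ} (κ : Fin q → Fin (n + 2))
    (hκ : Function.Injective κ) (hr : ∀ a, r ≠ Sum.inl (κ a)) (hc : ∀ a, c ≠ Sum.inl (κ a))
    (i j : Fin (q + 1)) (hij : i ≠ j) : y0 n (cn r κ i) (cn c κ j) = 0 := by
  revert hij
  refine Fin.cases ?_ (fun a => ?_) i <;> refine Fin.cases ?_ (fun b => ?_) j
  · intro h; exact absurd rfl h
  · intro _
    rw [cn, cn, Fin.cons_zero, Fin.cons_succ]
    rcases r with i | r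
    · simp only [y0, Sum.elim_inl]
      rw [if_neg]
      intro h
      exact hr b (by rw [h])
    · rfl
  · intro _
    rw [cn, cn, Fin.cons_zero, Fin.cons_succ]
    rcases c with k | c
    · simp only [y0, Sum.elim_inl]
      rw [if_neg]
      intro h
      exact hc a (by rw [h])
    · rfl
  · intro hab
    rw [cn, cn, Fin.cons_succ, Fin.cons_succ]
    simp only [y0, Sum.elim_inl]
    rw [if_neg]
    intro h
    exact hab (by rw [hκ h])

/-- the sum of the infinitesimal coordinates on the diagonal -/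
noncomputable def sk (l : σ) {q : ℕ} (κ : Fin q → Fin (n + 2)) : ℂ :=
  ∑ a, if l = G.ix (Sum.inr (Sum.inl (κ a))) (Sum.inr (Sum.inl (κ a))) ∧
    l ≠ (G.D lam hlam).z then 1 else 0

theorem jet_cn (l : σ) (hl : l ≠ (G.D lam hlam).z) (r : Tl n R) (c : Tl n K) {q : ℕ}
    (κ : Fin q → Fin (n + 2))
    (hκ : Function.Injective κ) (hr : ∀ a, r ≠ Sum.inl (κ a)) (hc : ∀ a, c ≠ Sum.inl (κ a)) :
    jet l (((G.D lam hlam).mY).submatrix (cn r κ) (cn c κ)).det
      = (TrivSqZeroExt.inl (y0 n r c) + TrivSqZeroExt.inr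
          (if l = G.ix (Sum.inr r) (Sum.inr c) then 1 else 0)) *
        (TrivSqZeroExt.inl 1 + TrivSqZeroExt.inr (G.sk lam hlam l κ)) := by
  rw [G.jet_det lam hlam l _ _ (off r c κ hκ hr hc), Fin.prod_univ_succ]
  have h1 : ∀ a : Fin q, jet l ((G.D lam hlam).mY (cn r κ a.succ) (cn c κ a.succ))
      = TrivSqZeroExt.inl 1 + TrivSqZeroExt.inr
        (if l = G.ix (Sum.inr (Sum.inl (κ a))) (Sum.inr (Sum.inl (κ a))) ∧
          l ≠ (G.D lam hlam).z then 1 else 0) := by
    intro a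
    rw [G.jet_mY]
    congr 2
    rw [cn, cn, Fin.cons_succ, Fin.cons_succ]
    simp [y0]
  simp only [h1]
  rw [prod_one_add_inr, G.jet_mY]
  rw [cn, cn, Fin.cons_zero, Fin.cons_zero, sk]
  congr 3
  simp [hl]

theorem jet_detA (l : σ) : ∃ e : ℂ, jet l (G.D lam hlam).mA.det
    = TrivSqZeroExt.inl (lam ^ Fintype.card A) + TrivSqZeroExt.inr e := by
  refine ⟨constantCoeff (pderiv ℂ l (G.D lam hlam).mA.det), ?_⟩
  rw [jet_apply]
  congr 2
  rw [Mt.cc_detA]
  change (lam • (1 : Matrix A A ℂ)).det = _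
  rw [Matrix.det_smul, Matrix.det_one, mul_one]

theorem arith1 (c e δ s : ℂ) : (TrivSqZeroExt.inl c + TrivSqZeroExt.inr e : DualNumber ℂ) *
    ((TrivSqZeroExt.inl 0 + TrivSqZeroExt.inr δ) * (TrivSqZeroExt.inl 1 + TrivSqZeroExt.inr s))
    = TrivSqZeroExt.inr (c * δ) := by
  ext <;> simp [mul_comm]

theorem arith2 (c e δ s : ℂ) : (TrivSqZeroExt.inl c + TrivSqZeroExt.inr e : DualNumber ℂ) *
    ((TrivSqZeroExt.inl 1 + TrivSqZeroExt.inr δ) * (TrivSqZeroExt.inl 1 + TrivSqZeroExt.inr s) -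
      (TrivSqZeroExt.inl 1 + TrivSqZeroExt.inr 0) * (TrivSqZeroExt.inl 1 + TrivSqZeroExt.inr s))
    = TrivSqZeroExt.inr (c * δ) := by
  ext <;> simp [mul_comm]

/-- the determinants of the square submatrices -/
noncomputable def fam (p : ℕ) (rc : (Fin p → A ⊕ Tl n R) × (Fin p → A ⊕ Tl n K)) :
    MvPolynomial σ ℂ :=
  ((G.D 1 one_ne_zero).mP.submatrix rc.1 rc.2).det

theorem mP_eq : (G.D lam hlam).mP = (G.D 1 one_ne_zero).mP := rfl

variable {ξ : σ → MvPowerSeries σ ℂ} (hξ : (G.D lam hlam).IsChart ξ)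

include hξ

theorem aeval_fam {p : ℕ} (rc : (Fin p → A ⊕ Tl n R) × (Fin p → A ⊕ Tl n K)) :
    MvPolynomial.aeval ξ (G.fam p rc) = ((G.D lam hlam).mX.submatrix rc.1 rc.2).det := by
  rw [fam, ← G.mP_eq lam hlam, Mt.aeval_det _ hξ]

theorem aeval_special {q : ℕ} (ρ : Fin q → Tl n R) (χ : Fin q → Tl n K) {p : ℕ}
    (eP : A ⊕ Fin q ≃ Fin p) :
    MvPolynomial.aeval ξ (G.fam p (fun i => Sum.map id ρ (eP.symm i),
      fun i => Sum.map id χ (eP.symm i)))
      = X (G.D lam hlam).z ^ q * ((G.D lam hlam).mA.det *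
        (((G.D lam hlam).mY).submatrix ρ χ).det) := by
  rw [G.aeval_fam lam hlam hξ]
  have h := (G.D lam hlam).special_minor eP ρ χ
  rw [Fintype.card_fin] at h
  exact h

/-- the order of the minors along the divisor -/
theorem hasOrd_fam (p : ℕ) (hp : p ≤ Fintype.card A + (n + 2)) :
    HasOrd (G.D lam hlam).z ξ (p - Fintype.card A) (G.fam p) := by
  refine ⟨fun rc => ?_, ?_⟩
  · rw [G.aeval_fam lam hlam hξ]
    rcases Nat.lt_or_ge p (Fintype.card A) with h | h
    · rw [Nat.sub_eq_zero_of_le h.le, pow_zero]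
      exact one_dvd _
    · exact Mt.dvd_minor _ _ (by rw [Fintype.card_fin]; omega) _ _
  · rcases Nat.lt_or_ge p (Fintype.card A) with h | h
    · obtain ⟨r⟩ : Nonempty (Fin p ↪ A) := by
        rw [Function.Embedding.nonempty_iff_card_le, Fintype.card_fin]
        exact h.le
      refine ⟨G.fam p (fun i => Sum.inl (r i), fun i => Sum.inl (r i)),
        Submodule.subset_span ⟨_, rfl⟩, ((G.D lam hlam).mX.submatrix (fun i => Sum.inl (r i))
          (fun i => Sum.inl (r i))).det, ?_, ?_⟩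
      · rw [(G.D lam hlam).minor_A r r]
        have h1 : ((G.D lam hlam).A0.submatrix r r) = lam • 1 := by
          change (lam • (1 : Matrix A A ℂ)).submatrix r r = lam • 1
          rw [Matrix.submatrix_smul, Pi.smul_apply, Pi.smul_apply,
            Matrix.submatrix_one _ r.injective]
        rw [h1, Matrix.det_smul, Matrix.det_one, mul_one]
        exact pow_ne_zero _ hlam
      · rw [Nat.sub_eq_zero_of_le h.le, pow_zero, one_mul, G.aeval_fam lam hlam hξ]
    · have eP : A ⊕ Fin (p - Fintype.card A) ≃ Fin p :=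
        Fintype.equivOfCardEq (by rw [Fintype.card_sum, Fintype.card_fin, Fintype.card_fin]; omega)
      set u : Fin (p - Fintype.card A) → Fin (n + 2) := Fin.castLE (by omega) with hu
      have hui : Function.Injective u := Fin.castLE_injective _
      refine ⟨_, Submodule.subset_span ⟨_, rfl⟩, _, ?_,
        G.aeval_special lam hlam hξ (fun i => Sum.inl (u i)) (fun i => Sum.inl (u i)) eP⟩
      rw [map_mul, Mt.cc_detA]
      refine mul_ne_zero (G.D lam hlam).hA0 ?_
      have h2 : ∀ i j, i ≠ j → y0 (R := R) (K := K) n (Sum.inl (u i)) (Sum.inl (u j)) = 0 := by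
        intro i j hij
        simp only [y0, Sum.elim_inl]
        rw [if_neg fun h => hij (hui h)]
      rw [← jet_fst (G.D lam hlam).z, G.jet_det lam hlam _ _ _ h2]
      simp only [G.jet_mY]
      have h3 : ∀ i, y0 (R := R) (K := K) n (Sum.inl (u i)) (Sum.inl (u i)) = 1 := by
        intro i
        simp [y0]
      simp only [h3]
      rw [prod_one_add_inr]
      simp

/-- the coordinates given by the minors -/
theorem gives_fam (p : ℕ) (hp : Fintype.card A < p) (hp2 : p < Fintype.card A + (n + 2)) (t : σ)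
    (ht : t ≠ (G.D lam hlam).z) (hexc : (G.D lam hlam).IsExc t) :
    Gives (G.D lam hlam).z ξ (p - Fintype.card A) (G.fam p) t := by
  classical
  obtain ⟨r, c, _, htrc⟩ := id hexc
  change t = G.ix (Sum.inr r) (Sum.inr c) at htrc
  obtain ⟨q, hq⟩ : ∃ q, p - Fintype.card A = q + 1 := ⟨p - Fintype.card A - 1, by omega⟩
  rw [hq]
  have eP : A ⊕ Fin (q + 1) ≃ Fin p :=
    Fintype.equivOfCardEq (by rw [Fintype.card_sum, Fintype.card_fin, Fintype.card_fin]; omega)
  have hqn : q ≤ n := by omega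
  have hav : ∀ i k : Fin (n + 2), ∃ κ : Fin q → Fin (n + 2), Function.Injective κ ∧
      ∀ a, κ a ≠ i ∧ κ a ≠ k := by
    intro i k
    obtain ⟨κ, h1, h2⟩ := exists_avoid n i k
    exact ⟨fun a => κ (Fin.castLE hqn a), h1.comp (Fin.castLE_injective _), fun a => h2 _⟩
  by_cases hrc : ∃ i, r = Sum.inl i ∧ c = Sum.inl i
  · obtain ⟨i, rfl, rfl⟩ := hrc
    have hil : i ≠ Fin.last _ := by
      rintro rfl
      exact ht htrc
    obtain ⟨κ, hκ, hκ2⟩ := hav i (Fin.last _)
    have e1 : ∀ a, (Sum.inl i : Tl n R) ≠ Sum.inl (κ a) := fun a h =>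
      (hκ2 a).1 (Sum.inl_injective h).symm
    have e2 : ∀ a, (Sum.inl i : Tl n K) ≠ Sum.inl (κ a) := fun a h =>
      (hκ2 a).1 (Sum.inl_injective h).symm
    have e3 : ∀ a, (Sum.inl (Fin.last _) : Tl n R) ≠ Sum.inl (κ a) := fun a h =>
      (hκ2 a).2 (Sum.inl_injective h).symm
    have e4 : ∀ a, (Sum.inl (Fin.last _) : Tl n K) ≠ Sum.inl (κ a) := fun a h =>
      (hκ2 a).2 (Sum.inl_injective h).symm
    set sp : Fin (n + 2) → (Fin p → A ⊕ Tl n R) × (Fin p → A ⊕ Tl n K) := fun k =>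
      (fun i => Sum.map id (cn (Sum.inl k) κ) (eP.symm i),
        fun i => Sum.map id (cn (Sum.inl k) κ) (eP.symm i)) with hsp
    have hspe : ∀ k, MvPolynomial.aeval ξ (G.fam p (sp k)) = X (G.D lam hlam).z ^ (q + 1) *
        ((G.D lam hlam).mA.det * (((G.D lam hlam).mY).submatrix (cn (Sum.inl k) κ)
          (cn (Sum.inl k) κ)).det) := fun k => G.aeval_special lam hlam hξ _ _ eP
    refine ⟨G.fam p (sp i) - G.fam p (sp (Fin.last _)),
      Submodule.sub_mem _ (Submodule.subset_span ⟨_, rfl⟩)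
      (Submodule.subset_span ⟨_, rfl⟩), _, ?_, by
        rw [map_sub, hspe, hspe, ← mul_sub, ← mul_sub]⟩
    refine isCoord_of_jet _ _ _ (lam ^ Fintype.card A) (pow_ne_zero _ hlam) ?_ ht
    intro l hl
    obtain ⟨e, he⟩ := G.jet_detA lam hlam l
    rw [map_mul, map_sub, he, G.jet_cn lam hlam l hl _ _ κ hκ e1 e2,
      G.jet_cn lam hlam l hl _ _ κ hκ e3 e4]
    have h1 : ∀ i : Fin (n + 2), y0 (R := R) (K := K) n (Sum.inl i) (Sum.inl i) = 1 := by
      intro i
      simp [y0]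
    rw [h1, h1, if_neg (show ¬ l = G.ix (Sum.inr (Sum.inl (Fin.last (n + 1))))
      (Sum.inr (Sum.inl (Fin.last (n + 1)))) from hl), arith2]
    congr 1
    by_cases hlt : l = t
    · rw [if_pos (hlt.trans htrc), if_pos hlt, mul_one]
    · rw [if_neg fun h => hlt (h.trans htrc.symm), if_neg hlt, mul_zero]
  · -- the other coordinates
    have hy0 : y0 n r c = 0 := by
      rcases r with i | r <;> rcases c with k | c <;> simp only [y0, Sum.elim_inl, Sum.elim_inr]
      rw [if_neg]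
      rintro rfl
      exact hrc ⟨i, rfl, rfl⟩
    set ri : Fin (n + 2) := Sum.elim id (fun _ => 0) r with hri
    set ci : Fin (n + 2) := Sum.elim id (fun _ => 0) c with hci
    obtain ⟨κ, hκ, hκ2⟩ := hav ri ci
    have e1 : ∀ a, r ≠ Sum.inl (κ a) := by
      intro a h
      apply (hκ2 a).1
      rw [hri, h]
      rfl
    have e2 : ∀ a, c ≠ Sum.inl (κ a) := by
      intro a h
      apply (hκ2 a).2
      rw [hci, h]
      rfl
    refine ⟨_, Submodule.subset_span ⟨_, rfl⟩, _, ?_,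
      G.aeval_special lam hlam hξ (cn r κ) (cn c κ) eP⟩
    refine isCoord_of_jet _ _ _ (lam ^ Fintype.card A) (pow_ne_zero _ hlam) ?_ ht
    intro l hl
    obtain ⟨e, he⟩ := G.jet_detA lam hlam l
    rw [map_mul, he, G.jet_cn lam hlam l hl _ _ κ hκ e1 e2, hy0, arith1]
    congr 1
    by_cases hlt : l = t
    · rw [if_pos (hlt.trans htrc), if_pos hlt, mul_one]
    · rw [if_neg fun h => hlt (h.trans htrc.symm), if_neg hlt, mul_zero]

end Gm

end Pool.Agent.TH192.DT
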