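import Pool.Agent.TH192.DT.Types

set_option autoImplicit false

/-! # Motivic zeta functions, computed on a resolution -/

namespace Pool.Agent.TH192.DT

open PowerSeries

section

variable {R : Type} [CommRing R]

/-- The power series `1 / (1 - u ^ a T ^ b)`, for `b > 0`. -/
noncomputable def geoU (u : Rˣ) (a b : ℤ) : PowerSeries R :=
  PowerSeries.invOfUnit (1 - PowerSeries.C ((u ^ a : Rˣ) : R) * PowerSeries.X ^ b.toNat) 1

/-- The subring `R[T, 1 / (1 - u ^ a T ^ b)]_{(a,b) ∈ S}` of `R[[T]]`. -/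
noncomputable def ratU (u : Rˣ) (S : Set (ℤ × ℤ)) : Subalgebra R (PowerSeries R) :=
  Algebra.adjoin R ({PowerSeries.X} ∪ {g | ∃ p ∈ S, g = geoU u p.1 p.2})

/-- The series `∑_I c_I ∏_{i ∈ I} u ^ (-ν_i) T ^ (N_i) / (1 - u ^ (-ν_i) T ^ (N_i))`, the sum over the
sets `I` of components with `N_i > 0`: the formula of Denef and Loeser for the motivic zeta function
on a resolution, where `c_I` is the class of the stratum of `I`, or of its covering, times a power
of `u - 1` (and `c_∅` is the term of degree `0`). -/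
noncomputable def dlZ {ι : Type} [Fintype ι] (u : Rˣ) (ν N : ι → ℕ)
    (c : Finset {i // 0 < N i} → R) : PowerSeries R :=
  ∑ I : Finset {i // 0 < N i}, PowerSeries.C (c I) * ∏ i ∈ I,
    (PowerSeries.C ((u ^ (-(ν i.1 : ℤ)) : Rˣ) : R) * PowerSeries.X ^ N i.1 *
      geoU u (-(ν i.1 : ℤ)) (N i.1))

/-- The pairs `(-ν_i, N_i)`, for `N_i > 0`. -/
noncomputable def pairs {ι : Type} [Fintype ι] (ν N : ι → ℕ) : Finset (ℤ × ℤ) :=
  (Finset.univ.filter fun i => 0 < N i).image fun i => (-(ν i : ℤ), (N i : ℤ))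

theorem mem_pairs {ι : Type} [Fintype ι] (ν N : ι → ℕ) (i : ι) (h : 0 < N i) :
    (-(ν i : ℤ), (N i : ℤ)) ∈ pairs ν N :=
  Finset.mem_image.2 ⟨i, Finset.mem_filter.2 ⟨Finset.mem_univ i, h⟩, rfl⟩

theorem dlZ_mem {ι : Type} [Fintype ι] (u : Rˣ) (ν N : ι → ℕ) (c : Finset {i // 0 < N i} → R) :
    dlZ u ν N c ∈ ratU u (pairs ν N) := by
  refine Subalgebra.sum_mem _ fun I _ => Subalgebra.mul_mem _ (Subalgebra.algebraMap_mem _ (c I))
    (Subalgebra.prod_mem _ fun i _ => Subalgebra.mul_mem _ (Subalgebra.mul_mem _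
      (Subalgebra.algebraMap_mem _ _) (Subalgebra.pow_mem _ ?_ _)) ?_)
  · exact Algebra.subset_adjoin (Or.inl rfl)
  · exact Algebra.subset_adjoin (Or.inr ⟨_, mem_pairs ν N i.1 i.2, rfl⟩)

end

/-- the roots, in terms of the pairs -/
theorem pairs_roots {ι : Type} [Fintype ι] (ν N : ι → ℕ) (hν : ∀ i, 0 < ν i) (b : Polynomial ℂ)
    (h : ∀ i l, l < N i → b.eval (-((ν i : ℂ) + (l : ℕ)) / N i) = 0) (q : ℤ × ℤ)
    (hq : q ∈ pairs ν N) : b.eval ((q.1 : ℂ) / q.2) = 0 := by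
  obtain ⟨i, hi, rfl⟩ := Finset.mem_image.1 hq
  have h1 := h i 0 (Finset.mem_filter.1 hi).2
  rw [Nat.cast_zero, add_zero] at h1
  push_cast
  exact h1

theorem pairs_sign {ι : Type} [Fintype ι] (ν N : ι → ℕ) (hν : ∀ i, 0 < ν i) (q : ℤ × ℤ)
    (hq : q ∈ pairs ν N) : q.1 < 0 ∧ 0 < q.2 := by
  obtain ⟨i, hi, rfl⟩ := Finset.mem_image.1 hq
  have h1 := hν i
  have h2 := (Finset.mem_filter.1 hi).2
  constructor
  · change -(ν i : ℤ) < 0
    omega
  · change (0 : ℤ) < N i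
    omega

end Pool.Agent.TH192.DT
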