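import Pool.Agent.W574.HS.ConvL

set_option autoImplicit false
set_option linter.unusedSectionVars false
set_option linter.unusedVariables false

/-! # Products of powers of forms `∑ y_{t, j} f_{t, j}` with separate variables: the coefficients -/

namespace Pool.Agent.TH192.DT

open MvPolynomial Pool.Agent.W574.SM Pool.Agent.W574.HS Pool.Agent.W574.LM

section Block

variable {σ τ : Type} [Fintype τ] [DecidableEq τ] {κ : τ → Type} [∀ t, Fintype (κ t)]
  [∀ t, DecidableEq (κ t)]

/-- The form `∑ y_{t, j} f_{t, j}` of the family `f t`, in its own variables `y_{t, j}`. -/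
noncomputable def blockForm (f : (t : τ) → κ t → MvPolynomial σ ℂ) (t : τ) :
    MvPolynomial ((Σ t, κ t) ⊕ σ) ℂ :=
  ∑ j, X (Sum.inl ⟨t, j⟩) * rename Sum.inr (f t j)

/-- The product of the powers of the forms `∑ y_{t, j} f_{t, j}`. -/
noncomputable def powProd (a : τ → ℕ) (f : (t : τ) → κ t → MvPolynomial σ ℂ) :
    MvPolynomial ((Σ t, κ t) ⊕ σ) ℂ :=
  ∏ t, blockForm f t ^ a t

theorem sub_sum (α : (Σ t, κ t) →₀ ℕ) (t0 : τ) (j0 : κ t0) (h : α ⟨t0, j0⟩ ≠ 0) (t : τ) :
    ∑ j, (α - Finsupp.single ⟨t0, j0⟩ 1 : (Σ t, κ t) →₀ ℕ) ⟨t, j⟩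
      = ∑ j, α ⟨t, j⟩ - if t = t0 then 1 else 0 := by
  by_cases ht : t = t0
  · subst ht
    rw [if_pos rfl, ← Finset.add_sum_erase _ _ (Finset.mem_univ j0),
      ← Finset.add_sum_erase _ (fun j => α ⟨t, j⟩) (Finset.mem_univ j0)]
    have h1 : ∑ j ∈ Finset.univ.erase j0,
        (α - Finsupp.single ⟨t, j0⟩ 1 : (Σ t, κ t) →₀ ℕ) ⟨t, j⟩
        = ∑ j ∈ Finset.univ.erase j0, α ⟨t, j⟩ := by
      refine Finset.sum_congr rfl fun j hj => ?_
      rw [Finsupp.tsub_apply, Finsupp.single_eq_of_ne, Nat.sub_zero]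
      intro h2
      exact Finset.ne_of_mem_erase hj (by simpa using h2)
    rw [h1, Finsupp.tsub_apply, Finsupp.single_eq_same]
    have : 1 ≤ α ⟨t, j0⟩ := Nat.one_le_iff_ne_zero.2 h
    omega
  · rw [if_neg ht, Nat.sub_zero]
    refine Finset.sum_congr rfl fun j _ => ?_
    rw [Finsupp.tsub_apply, Finsupp.single_eq_of_ne, Nat.sub_zero]
    intro h2
    exact ht (congrArg Sigma.fst h2)

theorem hat_pow_blocks (f : (t : τ) → κ t → MvPolynomial σ ℂ) (N : ℕ) :
    ∀ n : τ → ℕ, ∑ t, n t = N → ∀ α : (Σ t, κ t) →₀ ℕ,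
      hat (∏ t, blockForm f t ^ n t) α = if (∀ t, ∑ j, α ⟨t, j⟩ = n t) then
        ((∏ t, (n t).factorial : ℕ) : ℂ) • ∏ q : Σ t, κ t, f q.1 q.2 ^ α q else 0 := by
  induction N with
  | zero =>
    intro n hn α
    have hn0 : ∀ t, n t = 0 := fun t => by
      have := (Finset.sum_eq_zero_iff.1 hn) t (Finset.mem_univ t)
      exact this
    have h0 : ∏ t, blockForm f t ^ n t = 1 := Finset.prod_eq_one fun t _ => by
      rw [hn0 t, pow_zero]
    rw [h0, hat_one]
    have h1 : (∀ t, ∑ j, α ⟨t, j⟩ = n t) ↔ α = 0 := by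
      constructor
      · intro h
        ext ⟨t, j⟩
        have h2 := h t
        rw [hn0 t] at h2
        exact (Finset.sum_eq_zero_iff.1 h2) j (Finset.mem_univ j)
      · intro h t
        subst h
        simp [hn0 t]
    by_cases h : α = 0
    · rw [if_pos h, if_pos (h1.2 h), h]
      simp [hn0]
    · rw [if_neg h, if_neg fun h' => h (h1.1 h')]
  | succ N ih =>
    intro n hn α
    obtain ⟨t0, _, ht0⟩ := Finset.exists_ne_zero_of_sum_ne_zero (by omega : ∑ t, n t ≠ 0)
    obtain ⟨k, hk⟩ : ∃ k, n t0 = k + 1 := ⟨n t0 - 1, by omega⟩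
    set n' : τ → ℕ := Function.update n t0 k with hn'
    have hn'0 : n' t0 = k := Function.update_self ..
    have hn'1 : ∀ t, t ≠ t0 → n' t = n t := fun t ht => Function.update_of_ne ht ..
    have hs : ∑ t, n' t = N := by
      have h1 := Finset.add_sum_erase Finset.univ n (Finset.mem_univ t0)
      have h2 := Finset.add_sum_erase Finset.univ n' (Finset.mem_univ t0)
      have h3 : ∑ t ∈ Finset.univ.erase t0, n' t = ∑ t ∈ Finset.univ.erase t0, n t :=
        Finset.sum_congr rfl fun t ht => hn'1 t (Finset.ne_of_mem_erase ht)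
      rw [hn'0, h3] at h2
      rw [hk] at h1
      omega
    have hprod : ∏ t, blockForm f t ^ n t = blockForm f t0 * ∏ t, blockForm f t ^ n' t := by
      rw [← Finset.mul_prod_erase _ _ (Finset.mem_univ t0),
        ← Finset.mul_prod_erase _ (fun t => blockForm f t ^ n' t) (Finset.mem_univ t0),
        ← mul_assoc, hn'0, hk, pow_succ']
      congr 1
      exact Finset.prod_congr rfl fun t ht => by rw [hn'1 t (Finset.ne_of_mem_erase ht)]
    rw [hprod, blockForm, Finset.sum_mul, hat_sum]
    have h1 : ∀ j, hat (X (Sum.inl ⟨t0, j⟩) * (rename Sum.inr) (f t0 j) *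
        ∏ t, blockForm f t ^ n' t) α
        = if (∀ t, ∑ j, α ⟨t, j⟩ = n t) then
          ((α ⟨t0, j⟩ : ℂ) * ((∏ t, (n' t).factorial : ℕ) : ℂ)) •
            ∏ q : Σ t, κ t, f q.1 q.2 ^ α q else 0 := by
      intro j
      rw [mul_assoc, hat_Xl, hat_r, ih n' hs]
      by_cases h : α ⟨t0, j⟩ = 0
      · rw [h]; simp
      · have h2 : (∀ t, ∑ i, (α - Finsupp.single ⟨t0, j⟩ 1 : (Σ t, κ t) →₀ ℕ) ⟨t, i⟩ = n' t) ↔
            (∀ t, ∑ i, α ⟨t, i⟩ = n t) := by
          refine forall_congr' fun t => ?_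
          rw [sub_sum α t0 j h t]
          by_cases ht : t = t0
          · subst ht
            have h3 : 1 ≤ ∑ i, α ⟨t, i⟩ :=
              le_trans (Nat.one_le_iff_ne_zero.2 h)
                (Finset.single_le_sum (f := fun i => α ⟨t, i⟩) (fun _ _ => Nat.zero_le _)
                  (Finset.mem_univ j))
            rw [if_pos rfl, hn'0, hk]
            omega
          · rw [if_neg ht, hn'1 t ht, Nat.sub_zero]
        by_cases h3 : ∀ t, ∑ i, α ⟨t, i⟩ = n t
        · rw [if_pos (h2.2 h3), if_pos h3]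
          have h4 : ∏ q : Σ t, κ t, f q.1 q.2 ^ α q = f t0 j *
              ∏ q : Σ t, κ t, f q.1 q.2 ^ (α - Finsupp.single ⟨t0, j⟩ 1 : (Σ t, κ t) →₀ ℕ) q := by
            conv_lhs => rw [← sub_add_single α ⟨t0, j⟩ h]
            simp only [Finsupp.add_apply, pow_add, Finset.prod_mul_distrib]
            rw [mul_comm]
            congr 1
            rw [Finset.prod_eq_single ⟨t0, j⟩]
            · simp
            · intro q _ hq; rw [Finsupp.single_eq_of_ne hq, pow_zero]
            · simp
          rw [h4, mul_smul_comm, smul_smul]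
        · rw [if_neg (fun h => h3 (h2.1 h)), if_neg h3, mul_zero, smul_zero]
    rw [Finset.sum_congr rfl fun j _ => h1 j]
    split_ifs with h
    · rw [← Finset.sum_smul, ← Finset.sum_mul]
      congr 1
      have h5 : (∑ j, (α ⟨t0, j⟩ : ℂ)) = ((k + 1 : ℕ) : ℂ) := by
        rw [← hk, ← h t0]; push_cast; rfl
      have h6 : ∏ t, (n t).factorial = (k + 1) * ∏ t, (n' t).factorial := by
        rw [← Finset.mul_prod_erase _ _ (Finset.mem_univ t0),
          ← Finset.mul_prod_erase _ (fun t => (n' t).factorial) (Finset.mem_univ t0),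
          hn'0, hk, Nat.factorial_succ, mul_assoc]
        congr 2
        exact Finset.prod_congr rfl fun t ht => by rw [hn'1 t (Finset.ne_of_mem_erase ht)]
      rw [h5, h6]
      push_cast
      ring
    · simp

theorem powProd_pow (a : τ → ℕ) (f : (t : τ) → κ t → MvPolynomial σ ℂ) (n : ℕ) :
    powProd a f ^ n = ∏ t, blockForm f t ^ (n * a t) := by
  rw [powProd, ← Finset.prod_pow]
  exact Finset.prod_congr rfl fun t _ => by rw [← pow_mul, mul_comm]

theorem hat_powProd_pow (a : τ → ℕ) (f : (t : τ) → κ t → MvPolynomial σ ℂ) (n : ℕ)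
    (α : (Σ t, κ t) →₀ ℕ) :
    hat (powProd a f ^ n) α = if (∀ t, ∑ j, α ⟨t, j⟩ = n * a t) then
        ((∏ t, (n * a t).factorial : ℕ) : ℂ) • ∏ q : Σ t, κ t, f q.1 q.2 ^ α q else 0 := by
  rw [powProd_pow]
  exact hat_pow_blocks f _ _ rfl α

end Block

/-! ### From operators of the class `Rep` to functional equations -/

section Tail

variable {σ ι : Type} [Fintype ι] [DecidableEq ι]

theorem isLocEq_of_rep (g : ι → MvPolynomial σ ℂ) (b : Polynomial ℂ) (H0 : MvPolynomial σ ℂ)
    (E : ((ι →₀ ℕ) → MvPolynomial σ ℂ) → (ι →₀ ℕ) → MvPolynomial σ ℂ) (hE : Rep E)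
    (h : ∀ s : ι →₀ ℕ, (b.eval ((∑ j, s j : ℕ) : ℂ)) • (H0 * ∏ j, g j ^ s j)
      = E (fun β => if ∑ j, β j = ∑ j, s j + 1 then ∏ j, g j ^ β j else 0) s) :
    IsLocEq H0 g b := by
  classical
  obtain ⟨κ, hκ, c, p, R, hR⟩ := hE
  set cf : κ → ℂ := fun k => ∏ j, (((-c k j).toNat.factorial : ℕ) : ℂ) with hcf
  refine ⟨(Finset.univ.image c).filter fun d => ∑ j, d j = 1, fun d =>
    ∑ k ∈ Finset.univ.filter fun k => c k = d,
      tens (C (cf k) * p k) (R k), fun d hd => (Finset.mem_filter.1 hd).2,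
      fun s => ?_⟩
  set s' : ι →₀ ℕ := Finsupp.equivFunOnFinite.symm s with hs'
  have hs's : ∀ j, s' j = s j := fun j => rfl
  have hk := h s'
  rw [hR] at hk
  simp only [hs's] at hk
  have hterm : ∀ k, (evN s' (p k) * (fall (c k) s' : ℂ)) •
      (R k : Module.End ℂ (MvPolynomial σ ℂ)) (if ∑ j, (sh s' (c k)) j = ∑ j, s j + 1 then
        ∏ j, g j ^ (sh s' (c k)) j else 0) =
      if ∑ j, c k j = 1 then
        applyAt (tens (C (cf k) * p k) (R k)) s
          (C ((∏ j, (if c k j < 0 then (s j).choose (-c k j).toNat else 1) : ℕ) : ℂ) *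
            ∏ j, g j ^ ((s j : ℤ) + c k j).toNat) else 0 := by
    intro k
    by_cases hpos : ∀ j, 0 ≤ (s j : ℤ) + c k j
    · have hsum : ((∑ j, sh s' (c k) j : ℕ) : ℤ) = ∑ j, s j + ∑ j, c k j := by
        push_cast
        rw [← Finset.sum_add_distrib]
        refine Finset.sum_congr rfl fun j _ => ?_
        rw [sh_apply, hs's, Int.toNat_of_nonneg (hpos j)]
      have hiff : (∑ j, sh s' (c k) j = ∑ j, s j + 1) ↔ ∑ j, c k j = 1 := by
        constructor
        · intro h
          have : ((∑ j, sh s' (c k) j : ℕ) : ℤ) = ((∑ j, s j + 1 : ℕ) : ℤ) := by rw [h]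
          rw [hsum] at this
          push_cast at this
          linarith
        · intro h
          rw [h] at hsum
          have : ((∑ j, sh s' (c k) j : ℕ) : ℤ) = ((∑ j, s j + 1 : ℕ) : ℤ) := by
            rw [hsum]; push_cast; ring
          exact_mod_cast this
      by_cases h1 : ∑ j, c k j = 1
      · rw [if_pos (hiff.2 h1), if_pos h1, applyAt_tens]
        have h2 : (fall (c k) s' : ℂ) = cf k *
            ((∏ j, (if c k j < 0 then (s j).choose (-c k j).toNat else 1) : ℕ) : ℂ) := by
          have : fall (c k) s' = (∏ j, (-c k j).toNat.factorial) *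
              ∏ j, (if c k j < 0 then (s j).choose (-c k j).toNat else 1) := by
            rw [fall, ← Finset.prod_mul_distrib]
            refine Finset.prod_congr rfl fun j _ => ?_
            split_ifs with h
            · rw [hs's, Nat.descFactorial_eq_factorial_mul_choose]
            · have h0 : (-c k j).toNat = 0 := by omega
              rw [h0]; simp
          rw [this, hcf]
          push_cast
          rfl
        have h4 : evN s' (p k) = eval (fun j => (s j : ℂ)) (p k) := rfl
        have h5 : ∀ (u : ℂ) (G : MvPolynomial σ ℂ),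
            (R k : Module.End ℂ (MvPolynomial σ ℂ)) (C u * G)
            = u • (R k : Module.End ℂ (MvPolynomial σ ℂ)) G := by
          intro u G; rw [C_mul', map_smul]
        rw [h5, smul_smul, h2, h4, map_mul, eval_C]
        congr 1
        ring
      · rw [if_neg (fun h => h1 (hiff.1 h)), if_neg h1, map_zero, smul_zero]
    · push Not at hpos
      obtain ⟨j, hj⟩ := hpos
      have h1 : fall (c k) s' = 0 := by
        refine Finset.prod_eq_zero (Finset.mem_univ j) ?_
        rw [hs's, Nat.descFactorial_eq_zero_iff_lt]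
        omega
      have h2 : (∏ j, (if c k j < 0 then (s j).choose (-c k j).toNat else 1)) = 0 := by
        refine Finset.prod_eq_zero (Finset.mem_univ j) ?_
        rw [if_pos (by omega), Nat.choose_eq_zero_iff]
        omega
      rw [h1, h2, applyAt_tens]
      simp
  rw [Finset.sum_congr rfl fun k _ => hterm k, ← Finset.sum_filter] at hk
  rw [C_mul', mul_smul_comm, hk]
  simp only [applyAt_sum]
  rw [← Finset.sum_fiberwise_of_maps_to (s := Finset.univ.filter fun k => ∑ j, c k j = 1)
    (t := (Finset.univ.image c).filter fun d => ∑ j, d j = 1) (g := c)]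
  · refine Finset.sum_congr rfl fun d hd => ?_
    have h5 : ∀ k ∈ Finset.univ.filter (fun k => c k = d), ∑ j, c k j = 1 := by
      intro k hk
      rw [(Finset.mem_filter.1 hk).2]
      exact (Finset.mem_filter.1 hd).2
    have h6 : (Finset.univ.filter fun k => ∑ j, c k j = 1).filter (fun k => c k = d) =
        Finset.univ.filter (fun k => c k = d) := by
      ext k
      simp only [Finset.mem_filter, Finset.mem_univ, true_and]
      exact ⟨fun h => h.2, fun h => ⟨h5 k (by simpa using h), h⟩⟩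
    rw [h6]
    refine Finset.sum_congr rfl fun k hk => ?_
    have h7 : c k = d := (Finset.mem_filter.1 hk).2
    rw [h7]
  · intro k hk
    rw [Finset.mem_filter] at hk ⊢
    exact ⟨Finset.mem_image_of_mem _ (Finset.mem_univ k), hk.2⟩

theorem rep_shift (l : ι →₀ ℕ) : ∀ E : ((ι →₀ ℕ) → MvPolynomial σ ℂ) → (ι →₀ ℕ) →
    MvPolynomial σ ℂ, Rep E → Rep (fun H s => E H (s + l)) := by
  induction l using Finsupp.induction_linear with
  | zero => intro E hE; simpa using hE
  | add l1 l2 h1 h2 =>
    intro E hE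
    have h3 := h1 _ (h2 _ hE)
    simpa only [add_assoc] using h3
  | single j n =>
    induction n with
    | zero => intro E hE; simpa using hE
    | succ n ih =>
      intro E hE
      have h3 := rep_dy (ih _ hE) j
      have h4 : ∀ s : ι →₀ ℕ, s + Finsupp.single j (n + 1)
          = s + Finsupp.single j 1 + Finsupp.single j n := by
        intro s
        rw [add_assoc, ← Finsupp.single_add, add_comm 1 n]
      simpa only [h4] using h3

/-- the falling factorials `∏ (s_j)_{k_j}` -/
def dsc (s k : ι →₀ ℕ) : ℕ := ∏ j, (s j).descFactorial (k j)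

theorem desc_add (n k : ℕ) : ∀ m, n.descFactorial (k + m) = n.descFactorial k *
    (n - k).descFactorial m := by
  intro m
  induction m with
  | zero => simp
  | succ m ih =>
    rw [← add_assoc, Nat.descFactorial_succ, ih, Nat.descFactorial_succ, Nat.sub_sub]
    ring

theorem dsc_add (s k1 k2 : ι →₀ ℕ) : dsc s (k1 + k2) = dsc s k1 * dsc (s - k1) k2 := by
  rw [dsc, dsc, dsc, ← Finset.prod_mul_distrib]
  refine Finset.prod_congr rfl fun j _ => ?_
  rw [Finsupp.add_apply, Finsupp.tsub_apply, desc_add]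

theorem dsc_single (s : ι →₀ ℕ) (j : ι) (n : ℕ) :
    dsc s (Finsupp.single j n) = (s j).descFactorial n := by
  rw [dsc, Finset.prod_eq_single j]
  · rw [Finsupp.single_eq_same]
  · intro k _ hk
    rw [Finsupp.single_eq_of_ne hk, Nat.descFactorial_zero]
  · simp

theorem dsc_zero (s : ι →₀ ℕ) : dsc s 0 = 1 := by simp [dsc]

theorem dsc_ne {s k : ι →₀ ℕ} (h : dsc s k ≠ 0) : k ≤ s := by
  intro j
  by_contra hc
  apply h
  rw [dsc]
  refine Finset.prod_eq_zero (Finset.mem_univ j) ?_
  rw [Nat.descFactorial_eq_zero_iff_lt]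
  exact not_le.1 hc

theorem rep_desc (k : ι →₀ ℕ) : ∀ E : ((ι →₀ ℕ) → MvPolynomial σ ℂ) → (ι →₀ ℕ) →
    MvPolynomial σ ℂ, Rep E → Rep (fun H s => (dsc s k : ℂ) • E H (s - k)) := by
  induction k using Finsupp.induction_linear with
  | zero => intro E hE; simpa [dsc_zero] using hE
  | add k1 k2 h1 h2 =>
    intro E hE
    have h3 := h1 _ (h2 _ hE)
    simpa only [dsc_add, Nat.cast_mul, mul_smul, ← tsub_add_eq_tsub_tsub] using h3
  | single j n =>
    induction n with
    | zero => intro E hE; simpa [dsc_zero] using hE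
    | succ n ih =>
      intro E hE
      have h3 := rep_y (ih _ hE) j
      refine (congrArg Rep ?_).mp h3
      funext H s
      rw [dsc_single, dsc_single, smul_smul, Finsupp.tsub_apply, Finsupp.single_eq_same,
        ← tsub_add_eq_tsub_tsub, ← Finsupp.single_add, add_comm 1 n, ← Nat.cast_mul]
      congr 2
      rcases h : s j with _ | m
      · simp
      · rw [Nat.add_sub_cancel, Nat.succ_descFactorial_succ]

end Tail

end Pool.Agent.TH192.DT
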