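import Pool.Agent.TH192.DT.Multi
import Pool.Agent.TH192.DT.Forms

set_option autoImplicit false
set_option linter.unusedSectionVars false
set_option linter.unusedVariables false

/-! # Products of powers of forms `∑ y_{t, j} f_{t, j}` with separate variables: the functional
equation of the product of the ideals -/

namespace Pool.Agent.TH192.DT

open MvPolynomial Pool.Agent.W574.SM Pool.Agent.W574.HS Pool.Agent.W574.LM

/-! ### Multisets of a given size -/

theorem exists_fibres {X K : Type} [Fintype X] [Fintype K] [DecidableEq K] (c : K → ℕ)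
    (h : ∑ j, c j = Fintype.card X) : ∃ g : X → K, ∀ j, ∑ x, (if g x = j then 1 else 0) = c j := by
  have e : X ≃ Σ j, Fin (c j) := Fintype.equivOfCardEq (by
    rw [Fintype.card_sigma]
    simp [h])
  refine ⟨fun x => (e x).1, fun j => ?_⟩
  rw [Fintype.sum_equiv e (fun x => if (e x).1 = j then 1 else 0) (fun q => if q.1 = j then 1 else 0)
    fun x => rfl, Fintype.sum_sigma, Finset.sum_eq_single j]
  · simp
  · intro b _ hb
    simp [hb]
  · simp

section Comb

variable {τ : Type} [Fintype τ] [DecidableEq τ] {κ : τ → Type} [∀ t, Fintype (κ t)]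
  [∀ t, DecidableEq (κ t)] (a : τ → ℕ)

/-- the choices of a member of the family `t` for each of the `a t` factors -/
abbrev Ch (κ : τ → Type) (a : τ → ℕ) : Type := (q : Σ t, Fin (a t)) → κ q.1

/-- the multiplicities of a choice -/
noncomputable def mul (J : Ch κ a) : (Σ t, κ t) →₀ ℕ :=
  Finsupp.equivFunOnFinite.symm fun q => ∑ i : Fin (a q.1), if J ⟨q.1, i⟩ = q.2 then 1 else 0

theorem mul_apply (J : Ch κ a) (t : τ) (j : κ t) :
    mul a J ⟨t, j⟩ = ∑ i : Fin (a t), if J ⟨t, i⟩ = j then 1 else 0 := rfl

theorem mul_sum (J : Ch κ a) (t : τ) : ∑ j, mul a J ⟨t, j⟩ = a t := by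
  simp only [mul_apply]
  rw [Finset.sum_comm]
  simp

/-- the total multiplicities -/
noncomputable def tot (s : Ch κ a →₀ ℕ) : (Σ t, κ t) →₀ ℕ := ∑ J, s J • mul a J

theorem tot_apply (s : Ch κ a →₀ ℕ) (q : Σ t, κ t) : tot a s q = ∑ J, s J * mul a J q := by
  rw [tot, Finsupp.finsetSum_apply]
  rfl

theorem tot_add (s s' : Ch κ a →₀ ℕ) : tot a (s + s') = tot a s + tot a s' := by
  ext q
  simp only [tot_apply, Finsupp.add_apply, add_mul, Finset.sum_add_distrib]

theorem tot_single (J : Ch κ a) : tot a (Finsupp.single J 1) = mul a J := by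
  ext q
  rw [tot_apply, Finset.sum_eq_single J]
  · simp
  · intro b _ hb
    rw [Finsupp.single_eq_of_ne hb, zero_mul]
  · simp

theorem tot_mono {s s' : Ch κ a →₀ ℕ} (h : s ≤ s') : tot a s ≤ tot a s' := by
  obtain ⟨u, rfl⟩ := exists_add_of_le h
  rw [tot_add]
  exact le_self_add

theorem tot_sum (s : Ch κ a →₀ ℕ) (t : τ) : ∑ j, tot a s ⟨t, j⟩ = (∑ J, s J) * a t := by
  simp only [tot_apply]
  rw [Finset.sum_comm, Finset.sum_mul]
  refine Finset.sum_congr rfl fun J _ => ?_
  rw [← Finset.mul_sum, mul_sum]

theorem tot_surj (γ : (Σ t, κ t) →₀ ℕ) (N : ℕ) (h : ∀ t, ∑ j, γ ⟨t, j⟩ = N * a t) :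
    ∃ l : Ch κ a →₀ ℕ, ∑ J, l J = N ∧ tot a l = γ := by
  have h1 : ∀ t, ∃ g : Fin N × Fin (a t) → κ t, ∀ j, ∑ x, (if g x = j then 1 else 0) = γ ⟨t, j⟩ :=
    fun t => exists_fibres _ (by rw [h t]; simp)
  choose g hg using h1
  refine ⟨∑ r : Fin N, Finsupp.single (fun q : Σ t, Fin (a t) => g q.1 (r, q.2)) 1, ?_, ?_⟩
  · simp only [Finsupp.finsetSum_apply]
    rw [Finset.sum_comm]
    simp [Finsupp.single_apply]
  · have h2 : ∀ s : Finset (Fin N), tot a (∑ r ∈ s, Finsupp.single
        (fun q : Σ t, Fin (a t) => g q.1 (r, q.2)) 1)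
        = ∑ r ∈ s, mul a (fun q : Σ t, Fin (a t) => g q.1 (r, q.2)) := by
      classical
      intro s
      induction s using Finset.induction_on with
      | empty => ext q; simp [tot_apply]
      | insert r s hr ih => rw [Finset.sum_insert hr, Finset.sum_insert hr, tot_add, ih, tot_single]
    rw [h2]
    ext ⟨t, j⟩
    rw [Finsupp.finsetSum_apply, ← hg t j, Fintype.sum_prod_type]
    rfl

theorem fall_tot (N : ℕ) : ∀ α : (Σ t, κ t) →₀ ℕ, ∑ q, α q = N →
    ∃ (M : Type) (_ : Fintype M) (w : M → ℕ) (k : M → Ch κ a →₀ ℕ),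
      (∀ m, w m ≠ 0 → α ≤ tot a (k m)) ∧
      ∀ s : Ch κ a →₀ ℕ, dsc (tot a s) α = ∑ m, w m * dsc s (k m) := by
  classical
  induction N with
  | zero =>
    intro α hα
    have h0 : α = 0 := by
      ext q
      exact (Finset.sum_eq_zero_iff.1 hα) q (Finset.mem_univ q)
    subst h0
    exact ⟨Unit, inferInstance, fun _ => 1, fun _ => 0, fun _ _ => bot_le, fun s => by
      simp [dsc_zero]⟩
  | succ N ih =>
    intro α hα
    obtain ⟨q, _, hq⟩ := Finset.exists_ne_zero_of_sum_ne_zero (by omega : ∑ q, α q ≠ 0)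
    set α' := α - Finsupp.single q 1 with hα'
    have hαα : α' + Finsupp.single q 1 = α := sub_add_single α q hq
    have hN : ∑ q, α' q = N := by
      have h1 : ∑ p, α p = ∑ p, α' p + 1 := by
        conv_lhs => rw [← hαα]
        simp only [Finsupp.add_apply, Finset.sum_add_distrib]
        congr 1
        rw [Finset.sum_eq_single q]
        · simp
        · intro b _ hb; exact Finsupp.single_eq_of_ne hb
        · simp
      omega
    obtain ⟨M, hM, w, k, hk, hs⟩ := ih α' hN
    refine ⟨M ⊕ M × Ch κ a, inferInstance,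
      Sum.elim (fun m => w m * (tot a (k m) q - α' q)) (fun x => w x.1 * mul a x.2 q),
      Sum.elim k (fun x => k x.1 + Finsupp.single x.2 1), ?_, ?_⟩
    · rintro (m | ⟨m, J⟩) hm
      · change w m * (tot a (k m) q - α' q) ≠ 0 at hm
        have h1 := hk m (left_ne_zero_of_mul hm)
        have h2 := right_ne_zero_of_mul hm
        change α ≤ tot a (k m)
        rw [← hαα]
        intro p
        rw [Finsupp.add_apply]
        by_cases hp : p = q
        · subst hp
          rw [Finsupp.single_eq_same]
          omega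
        · rw [Finsupp.single_eq_of_ne hp]
          exact h1 p
      · change w m * mul a J q ≠ 0 at hm
        have h1 := hk m (left_ne_zero_of_mul hm)
        have h2 := right_ne_zero_of_mul hm
        change α ≤ tot a (k m + Finsupp.single J 1)
        rw [← hαα, tot_add, tot_single]
        intro p
        rw [Finsupp.add_apply, Finsupp.add_apply]
        refine add_le_add (h1 p) ?_
        by_cases hp : p = q
        · subst hp
          rw [Finsupp.single_eq_same]
          omega
        · rw [Finsupp.single_eq_of_ne hp]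
          exact Nat.zero_le _
    · intro s
      rw [← hαα, dsc_add, hs, dsc_single, Finsupp.tsub_apply, Finset.sum_mul,
        Fintype.sum_sum_type, Fintype.sum_prod_type, ← Finset.sum_add_distrib]
      refine Finset.sum_congr rfl fun m _ => ?_
      simp only [Sum.elim_inl, Sum.elim_inr]
      have hd : ∀ J, dsc s (k m + Finsupp.single J 1) = dsc s (k m) * (s J - k m J) := by
        intro J
        rw [dsc_add, dsc_single, Finsupp.tsub_apply, Nat.descFactorial_one]
      simp only [hd, Nat.descFactorial_one]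
      by_cases hw : w m = 0
      · simp [hw]
      by_cases hz : dsc s (k m) = 0
      · simp [hz]
      have hle := dsc_ne hz
      have h1 : tot a s q = ∑ J, (s J - k m J) * mul a J q + tot a (k m) q := by
        rw [tot_apply, tot_apply, ← Finset.sum_add_distrib]
        refine Finset.sum_congr rfl fun J _ => ?_
        rw [← add_mul, Nat.sub_add_cancel (hle J)]
      have h2 : α' q ≤ tot a (k m) q := hk m hw q
      have h3 : tot a s q - α' q = ∑ J, (s J - k m J) * mul a J q + (tot a (k m) q - α' q) := by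
        omega
      rw [h3, mul_add, Finset.mul_sum, add_comm]
      congr 1
      · ring
      · refine Finset.sum_congr rfl fun J _ => ?_
        ring

end Comb

end Pool.Agent.TH192.DT
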