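import Pool.Agent.TH192.DT.Multi2

set_option autoImplicit false
set_option linter.unusedSectionVars false
set_option linter.unusedVariables false

/-! # Products of powers of forms `∑ y_{t, j} f_{t, j}` with separate variables: the functional
equation of the product of the ideals -/

namespace Pool.Agent.TH192.DT

open MvPolynomial Pool.Agent.W574.SM Pool.Agent.W574.HS Pool.Agent.W574.LM

section Main

variable {σ τ : Type} [Fintype τ] [DecidableEq τ] {κ : τ → Type} [∀ t, Fintype (κ t)]
  [∀ t, DecidableEq (κ t)] (a : τ → ℕ)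

theorem prod_mul (f : (t : τ) → κ t → MvPolynomial σ ℂ) (J : Ch κ a) :
    ∏ q : Σ t, κ t, f q.1 q.2 ^ mul a J q = prodFam (fun q : Σ t, Fin (a t) => f q.1) J := by
  rw [prodFam, Fintype.prod_sigma, Fintype.prod_sigma]
  refine Finset.prod_congr rfl fun t _ => ?_
  simp only [mul_apply, ← Finset.prod_pow_eq_pow_sum]
  rw [Finset.prod_comm]
  refine Finset.prod_congr rfl fun i _ => ?_
  rw [Finset.prod_eq_single (J ⟨t, i⟩)]
  · simp
  · intro b _ hb
    rw [if_neg (Ne.symm hb), pow_zero]
  · simp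

theorem prod_tot (f : (t : τ) → κ t → MvPolynomial σ ℂ) (s : Ch κ a →₀ ℕ) :
    ∏ q : Σ t, κ t, f q.1 q.2 ^ tot a s q =
      ∏ J, prodFam (fun q : Σ t, Fin (a t) => f q.1) J ^ s J := by
  simp only [tot_apply, ← Finset.prod_pow_eq_pow_sum]
  rw [Finset.prod_comm]
  refine Finset.prod_congr rfl fun J _ => ?_
  rw [← prod_mul, ← Finset.prod_pow]
  refine Finset.prod_congr rfl fun q _ => ?_
  rw [← pow_mul, mul_comm]

/-- the substitution of the total multiplicities -/
noncomputable def subT (p : MvPolynomial (Σ t, κ t) ℂ) : MvPolynomial (Ch κ a) ℂ :=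
  aeval (fun q => ∑ J, C (mul a J q : ℂ) * X J) p

theorem evN_subT (p : MvPolynomial (Σ t, κ t) ℂ) (s : Ch κ a →₀ ℕ) :
    evN s (subT a p) = evN (tot a s) p := by
  induction p using MvPolynomial.induction_on with
  | C r => simp [subT, evN, ← MvPolynomial.algebraMap_eq]
  | add p q hp hq =>
    rw [subT, map_add]
    rw [subT] at hp hq
    rw [evN, map_add, ← evN, ← evN, hp, hq, evN, evN, evN, map_add]
  | mul_X p q hp =>
    rw [subT, map_mul, aeval_X]
    rw [subT] at hp
    rw [evN, map_mul, ← evN, hp, map_sum]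
    simp only [map_mul, eval_C, eval_X]
    rw [evN, evN, map_mul, eval_X, tot_apply]
    push_cast
    congr 1
    exact Finset.sum_congr rfl fun J _ => mul_comm _ _

theorem fall_eq_dsc (c : (Σ t, κ t) → ℤ) (α : (Σ t, κ t) →₀ ℕ) :
    fall c α = dsc α (Finsupp.equivFunOnFinite.symm fun q => (-c q).toNat) := rfl

theorem term_rep [DecidableEq σ] (f : (t : τ) → κ t → MvPolynomial σ ℂ) (c : (Σ t, κ t) → ℤ)
    (p : MvPolynomial (Σ t, κ t) ℂ) (R : weyl σ) :
    ∃ E : ((Ch κ a →₀ ℕ) → MvPolynomial σ ℂ) → (Ch κ a →₀ ℕ) → MvPolynomial σ ℂ, Rep E ∧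
      ∀ (s : Ch κ a →₀ ℕ) (K : ℂ), (evN (tot a s) p * (fall c (tot a s) : ℂ)) •
        (R : Module.End ℂ (MvPolynomial σ ℂ)) (if (∀ t, ∑ j, (sh (tot a s) c) ⟨t, j⟩ =
          (∑ J, s J + 1) * a t) then K • ∏ q : Σ t, κ t, f q.1 q.2 ^ (sh (tot a s) c) q else 0) =
        K • E (fun β => if ∑ J, β J = ∑ J, s J + 1 then
          ∏ J, prodFam (fun q : Σ t, Fin (a t) => f q.1) J ^ β J else 0) s := by
  classical
  by_cases hbal : ∀ t, ∑ j, c ⟨t, j⟩ = a t
  · obtain ⟨M, hM, w, k, hk, hs⟩ := fall_tot a _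
      (Finsupp.equivFunOnFinite.symm fun q : Σ t, κ t => (-c q).toNat) rfl
    have hpos : ∀ m, w m ≠ 0 → ∀ q, 0 ≤ (tot a (k m) q : ℤ) + c q := by
      intro m hm q
      have h1 : (-c q).toNat ≤ tot a (k m) q := hk m hm q
      omega
    have hl : ∀ m, ∃ l : Ch κ a →₀ ℕ, w m ≠ 0 → ∑ J, l J = ∑ J, k m J + 1 ∧
        tot a l = sh (tot a (k m)) c := by
      intro m
      by_cases hm : w m = 0
      · exact ⟨0, fun h => absurd hm h⟩
      · obtain ⟨l, h1, h2⟩ := tot_surj a (sh (tot a (k m)) c) (∑ J, k m J + 1) (by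
          intro t
          have h3 : ((∑ j, sh (tot a (k m)) c ⟨t, j⟩ : ℕ) : ℤ)
              = ((∑ J, k m J) * a t : ℕ) + ∑ j, c ⟨t, j⟩ := by
            rw [← tot_sum]
            push_cast
            rw [← Finset.sum_add_distrib]
            refine Finset.sum_congr rfl fun j _ => ?_
            rw [sh_apply, Int.toNat_of_nonneg (hpos m hm _)]
          rw [hbal t] at h3
          have h4 : (((∑ J, k m J + 1) * a t : ℕ) : ℤ) = ((∑ J, k m J) * a t : ℕ) + (a t : ℤ) := by
            push_cast; ring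
          rw [← h4] at h3
          exact_mod_cast h3)
        exact ⟨l, fun _ => ⟨h1, h2⟩⟩
    choose l hl using hl
    refine ⟨fun H s => evN s (subT a p) • ∑ m, evN s (C (w m : ℂ)) • ((dsc s (k m) : ℂ) •
      (R : Module.End ℂ (MvPolynomial σ ℂ)) (H (s - k m + l m))), ?_, ?_⟩
    · refine rep_poly (rep_sum Finset.univ (fun m H s => evN s (C (w m : ℂ)) •
        ((dsc s (k m) : ℂ) • (R : Module.End ℂ (MvPolynomial σ ℂ)) (H (s - k m + l m))))
        fun m _ => rep_poly (rep_desc (k m) (fun H s =>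
          (R : Module.End ℂ (MvPolynomial σ ℂ)) (H (s + l m)))
          (rep_shift (l m) (fun H s => (R : Module.End ℂ (MvPolynomial σ ℂ)) (H s))
          (rep_weyl rep_id R))) _) _
    · intro s K
      beta_reduce
      rw [fall_eq_dsc, hs s, evN_subT, Nat.cast_sum, Finset.mul_sum, Finset.sum_smul,
        smul_comm K, Finset.smul_sum, Finset.smul_sum]
      refine Finset.sum_congr rfl fun m _ => ?_
      have hC : evN s (C (w m : ℂ)) = w m := by rw [evN, eval_C]
      rw [hC]
      by_cases hw : w m = 0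
      · simp [hw]
      by_cases hz : dsc s (k m) = 0
      · simp [hz]
      have hle := dsc_ne hz
      obtain ⟨hl1, hl2⟩ := hl m hw
      have hts : tot a s = tot a (s - k m) + tot a (k m) := by
        rw [← tot_add, tsub_add_cancel_of_le hle]
      have hsh : sh (tot a s) c = tot a (s - k m + l m) := by
        ext q
        rw [tot_add, hl2, sh_apply, Finsupp.add_apply, sh_apply, hts, Finsupp.add_apply]
        have := hpos m hw q
        push_cast
        omega
      have hsum : ∑ J, (s - k m + l m : Ch κ a →₀ ℕ) J = ∑ J, s J + 1 := by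
        have h1 : ∑ J, s J = ∑ J, (s - k m : Ch κ a →₀ ℕ) J + ∑ J, k m J := by
          rw [← Finset.sum_add_distrib]
          refine Finset.sum_congr rfl fun J _ => ?_
          rw [Finsupp.tsub_apply, Nat.sub_add_cancel (hle J)]
        simp only [Finsupp.add_apply, Finset.sum_add_distrib]
        omega
      rw [hsh, if_pos (fun t => by rw [tot_sum, hsum]), if_pos hsum, prod_tot, map_smul,
        Nat.cast_mul, smul_smul, smul_smul, smul_smul, smul_smul]
      congr 1
      ring
  · refine ⟨fun _ _ => 0, rep_zero, fun s K => ?_⟩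
    rw [smul_zero]
    by_cases hf : fall c (tot a s) = 0
    · rw [hf]; simp
    · rw [if_neg, map_zero, smul_zero]
      intro h
      apply hbal
      intro t
      have hle := dsc_ne (s := tot a s) (k := Finsupp.equivFunOnFinite.symm fun q => (-c q).toNat)
        (by rw [← fall_eq_dsc]; exact hf)
      have h3 : ((∑ j, sh (tot a s) c ⟨t, j⟩ : ℕ) : ℤ)
          = ((∑ J, s J) * a t : ℕ) + ∑ j, c ⟨t, j⟩ := by
        rw [← tot_sum]
        push_cast
        rw [← Finset.sum_add_distrib]
        refine Finset.sum_congr rfl fun j _ => ?_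
        rw [sh_apply, Int.toNat_of_nonneg]
        have h5 : (-c ⟨t, j⟩).toNat ≤ tot a s ⟨t, j⟩ := hle ⟨t, j⟩
        omega
      rw [h t] at h3
      push_cast at h3
      linarith

end Main

end Pool.Agent.TH192.DT
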