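import Pool.Agent.TH192.DT.Multi3

set_option autoImplicit false
set_option linter.unusedSectionVars false
set_option linter.unusedVariables false

/-! # Products of powers of forms `∑ y_{t, j} f_{t, j}` with separate variables: the functional
equation of the product of the ideals -/

namespace Pool.Agent.TH192.DT

open MvPolynomial Pool.Agent.W574.SM Pool.Agent.W574.HS Pool.Agent.W574.LM

section Main

variable {σ τ : Type} [Fintype τ] [DecidableEq τ] {κ : τ → Type} [∀ t, Fintype (κ t)]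
  [∀ t, DecidableEq (κ t)] (a : τ → ℕ)

/-- the quotient of the factorials -/
noncomputable def facQ : MvPolynomial (Ch κ a) ℂ :=
  ∏ t, ∏ i ∈ Finset.range (a t), (C (a t : ℂ) * ∑ J, X J + C ((i + 1 : ℕ) : ℂ))

theorem evN_facQ (s : Ch κ a →₀ ℕ) :
    ((∏ t, ((∑ J, s J + 1) * a t).factorial : ℕ) : ℂ)
      = ((∏ t, ((∑ J, s J) * a t).factorial : ℕ) : ℂ) * evN s (facQ a) := by
  have h4 : ∏ t, ((∑ J, s J + 1) * a t).factorial = (∏ t, ((∑ J, s J) * a t).factorial) *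
      ∏ t, ∏ i ∈ Finset.range (a t), (a t * ∑ J, s J + (i + 1)) := by
    rw [← Finset.prod_mul_distrib]
    refine Finset.prod_congr rfl fun t _ => ?_
    have h5 : (∑ J, s J + 1) * a t = (∑ J, s J) * a t + a t := by ring
    rw [h5, ← Nat.factorial_mul_ascFactorial, Nat.ascFactorial_eq_prod_range]
    congr 1
    exact Finset.prod_congr rfl fun i _ => by ring
  rw [h4, Nat.cast_mul]
  congr 1
  rw [evN, facQ, map_prod, Nat.cast_prod]
  refine Finset.prod_congr rfl fun t _ => ?_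
  rw [map_prod, Nat.cast_prod]
  refine Finset.prod_congr rfl fun i _ => ?_
  rw [map_add, map_mul, eval_C, eval_C, map_sum, Nat.cast_add, Nat.cast_mul, Nat.cast_sum]
  simp only [eval_X]

/-- the number of the factor -/
noncomputable def rq (t0 : τ) : MvPolynomial (Σ t, κ t) ℂ :=
  C (a t0 : ℂ)⁻¹ * ∑ j, X ⟨t0, j⟩

theorem evN_rq (t0 : τ) (ht0 : a t0 ≠ 0) (s : Ch κ a →₀ ℕ) :
    evN (tot a s) (rq a t0) = ((∑ J, s J : ℕ) : ℂ) := by
  rw [evN, rq, map_mul, eval_C, map_sum]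
  simp only [eval_X]
  rw [← Nat.cast_sum, tot_sum, Nat.cast_mul]
  have : (a t0 : ℂ) ≠ 0 := Nat.cast_ne_zero.2 ht0
  field_simp

/-- the operator on the normalized coefficients -/
theorem exists_op [DecidableEq σ] (t0 : τ) (ht0 : a t0 ≠ 0)
    (P : ℕ →₀ Pool.Agent.H628R4.TP.weylS ((Σ t, κ t) ⊕ σ)) :
    ∃ E : (((Σ t, κ t) →₀ ℕ) → MvPolynomial σ ℂ) → ((Σ t, κ t) →₀ ℕ) → MvPolynomial σ ℂ,
      Rep E ∧ ∀ (G : MvPolynomial ((Σ t, κ t) ⊕ σ) ℂ) (s : Ch κ a →₀ ℕ),
        hat (P.sum fun m Q => (((∑ J, s J : ℕ) : ℂ) ^ m) •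
          (Q : Module.End ℂ (MvPolynomial ((Σ t, κ t) ⊕ σ) ℂ)) G) (tot a s) =
          E (hat G) (tot a s) := by
  classical
  choose E hE1 hE2 using fun m : ℕ => rep_weylS (σ := σ) (ι := Σ t, κ t) (P m).1 (P m).2 _ rep_id
  have hrep : Rep (fun (H : ((Σ t, κ t) →₀ ℕ) → MvPolynomial σ ℂ) α =>
      ∑ m ∈ P.support, evN α (rq a t0 ^ m) • E m H α) :=
    rep_sum P.support (fun m H α => evN α (rq a t0 ^ m) • E m H α)
      fun m _ => rep_poly (hE1 m) (rq a t0 ^ m)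
  refine ⟨_, hrep, fun G s => ?_⟩
  rw [Finsupp.sum, hat_sum]
  refine Finset.sum_congr rfl fun m _ => ?_
  rw [hat_smul, hE2 m G (hat G) rfl, ← evN_rq a t0 ht0 s, evN, evN, map_pow]

/-- **From products of powers of forms to products of ideals.** A functional equation of
`∏ t, (∑ y_{t, j} f_{t, j}) ^ a t` gives one of the product of the `a t`-th powers of the ideals
`(f_{t, j})_j`, with the same `b`. -/
theorem locEq_of_powProd [DecidableEq σ] (f : (t : τ) → κ t → MvPolynomial σ ℂ) (t0 : τ)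
    (ht0 : a t0 ≠ 0) (b : Polynomial ℂ) (H : MvPolynomial ((Σ t, κ t) ⊕ σ) ℂ)
    (P : ℕ →₀ Pool.Agent.H628R4.TP.weylS ((Σ t, κ t) ⊕ σ))
    (hP : ∀ s : ℕ, H * (C (b.eval (s : ℂ)) * powProd a f ^ s) = P.sum fun m Q =>
      ((s : ℂ) ^ m) • (Q : Module.End ℂ (MvPolynomial ((Σ t, κ t) ⊕ σ) ℂ))
        (powProd a f ^ (s + 1))) :
    IsLocEq (hat H 0) (prodFam fun q : Σ t, Fin (a t) => f q.1) b := by
  obtain ⟨E, hE, hEP⟩ := exists_op (σ := σ) a t0 ht0 P
  obtain ⟨κ0, hκ, c, p, R, hR⟩ := hE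
  choose E' hE'1 hE'2 using fun k : κ0 => term_rep a f (c k) (p k) (R k)
  refine isLocEq_of_rep _ b _ (fun G s => evN s (facQ a) • ∑ k, E' k G s)
    (rep_poly (rep_sum Finset.univ _ fun k _ => hE'1 k) _) fun s => ?_
  have h1 := congrArg (fun G => hat G (tot a s)) (hP (∑ J, s J))
  beta_reduce at h1
  rw [hEP, hR] at h1
  have hn : ∀ γ : (Σ t, κ t) →₀ ℕ, γ ≤ tot a s → γ ≠ tot a s →
      hat (C (b.eval ((∑ J, s J : ℕ) : ℂ)) * powProd a f ^ (∑ J, s J)) γ = 0 := by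
    intro γ hγ hne
    rw [hat_C_mul, hat_powProd_pow, if_neg, smul_zero]
    intro h
    apply hne
    apply eq_of_le_of_sum_eq hγ
    rw [Fintype.sum_sigma, Fintype.sum_sigma]
    exact Finset.sum_congr rfl fun t _ => by rw [h t, tot_sum]
  rw [hat_mul_top H _ _ hn, hat_C_mul, hat_powProd_pow, if_pos (fun t => tot_sum a s t),
    mul_smul_comm, mul_smul_comm, prod_tot] at h1
  simp only [hat_powProd_pow] at h1
  rw [Finset.sum_congr rfl fun k _ => hE'2 k s _, ← Finset.smul_sum, smul_comm] at h1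
  have hfact : ((∏ t, ((∑ J, s J) * a t).factorial : ℕ) : ℂ) ≠ 0 :=
    Nat.cast_ne_zero.2 (Finset.prod_ne_zero_iff.2 fun t _ => Nat.factorial_ne_zero _)
  apply smul_right_injective (MvPolynomial σ ℂ) hfact
  beta_reduce
  rw [h1, smul_smul, evN_facQ]

end Main

end Pool.Agent.TH192.DT
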