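import Pool.Agent.TH192.DT.PfOff
import Pool.Agent.Helper929.Pfaffian

set_option autoImplicit false
set_option linter.unusedSectionVars false
set_option linter.unusedVariables false

/-! # Products of the Pfaffian ideals of the generic skew symmetric matrix -/

namespace Pool.Agent.TH192.DT

open MvPowerSeries Pool.Agent.W574.SM

namespace Sk

variable {R σ : Type} [Fintype R] [DecidableEq R] [Fintype σ] [DecidableEq σ] {d N : ℕ}
  (S : Sk (Fin d × Bool) (Tp N R) σ)

/-- the coordinates of the base point, divided by `lam` -/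
noncomputable def dl (t : σ) : ℂ :=
  S.sg (S.surj t).choose (S.surj t).choose_spec.choose *
    Matrix.fromBlocks S.A1 0 0 (0 : Matrix (Tp N R) (Tp N R) ℂ)
      (S.surj t).choose (S.surj t).choose_spec.choose

theorem cc_mX (lam : ℂ) (hlam : lam ≠ 0) (x y : (Fin d × Bool) ⊕ Tp N R) :
    constantCoeff ((S.D lam hlam).mX x y)
      = lam * Matrix.fromBlocks S.A1 0 0 (0 : Matrix (Tp N R) (Tp N R) ℂ) x y := by
  have hv : ∀ x y, constantCoeff ((S.D lam hlam).v x y) = 0 := by
    intro x y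
    rw [Mt.v, map_mul, constantCoeff_X, mul_zero]
  rcases x with a | r <;> rcases y with b | c
  · have h := congrFun (congrFun (S.D lam hlam).cc_mA a) b
    rw [RingHom.mapMatrix_apply, Matrix.map_apply] at h
    change constantCoeff ((S.D lam hlam).mA a b) = _
    rw [h]
    rfl
  · rw [Matrix.fromBlocks_apply₁₂, Matrix.zero_apply, mul_zero]
    exact hv _ _
  · rw [Matrix.fromBlocks_apply₂₁, Matrix.zero_apply, mul_zero]
    exact hv _ _
  · rw [Matrix.fromBlocks_apply₂₂, Matrix.zero_apply, mul_zero]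
    change constantCoeff (((S.D lam hlam).mC * (S.D lam hlam).mA⁻¹ * (S.D lam hlam).mB) r c +
      X (S.D lam hlam).z * (S.D lam hlam).mY r c) = 0
    rw [map_add, map_mul, constantCoeff_X, zero_mul, add_zero, Matrix.mul_apply, map_sum]
    refine Finset.sum_eq_zero fun j _ => ?_
    rw [map_mul]
    have h1 : constantCoeff ((S.D lam hlam).mB j c) = 0 := hv _ _
    rw [h1, mul_zero]

theorem cc_xi {lam : ℂ} {hlam : lam ≠ 0} {ξ : σ → MvPowerSeries σ ℂ}
    (hξ : (S.D lam hlam).IsChart ξ) (t : σ) : constantCoeff (ξ t) = lam * S.dl t := by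
  obtain ⟨h0, h1⟩ := (S.surj t).choose_spec.choose_spec
  have h2 := (S.D lam hlam).ξ_eq hξ (S.surj t).choose (S.surj t).choose_spec.choose (S.sg_ne h0)
  have h3 : (S.D lam hlam).ix (S.surj t).choose (S.surj t).choose_spec.choose = t := h1.symm
  rw [h3] at h2
  rw [h2, map_mul, constantCoeff_C, S.cc_mX, dl]
  change S.sg _ _ * _ = _
  ring

/-- the exceptional coordinates -/
theorem gives_all (lam : ℂ) (hlam : lam ≠ 0) {ξ : σ → MvPowerSeries σ ℂ}
    (hξ : (S.D lam hlam).IsChart ξ) {p : ℕ} {ι : Type} {f : ι → MvPolynomial σ ℂ}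
    (hf : S.IsPf p f) (h0 : d < p) (h1 : p < d + (N + 2)) (t : σ)
    (ht : t ≠ (S.D lam hlam).z) (hexc : (S.D lam hlam).IsExc t) :
    Gives (S.D lam hlam).z ξ (p - d) f t := by
  obtain ⟨r, c, hsg, rfl⟩ := hexc
  change S.sg (Sum.inr r) (Sum.inr c) ≠ 0 at hsg
  change S.ix (Sum.inr r) (Sum.inr c) ≠ (S.D lam hlam).z at ht
  change Gives (S.D lam hlam).z ξ (p - d) f (S.ix (Sum.inr r) (Sum.inr c))
  have hne : r ≠ c := fun h => S.ne_of_sg hsg (by rw [h])
  by_cases hp : ∃ x, r = Sum.inl x ∧ c = Sum.inl (fl x)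
  · obtain ⟨⟨i, b⟩, rfl, rfl⟩ := hp
    have h2 : S.ix (Sum.inr (Sum.inl (i, b))) (Sum.inr (Sum.inl (fl (i, b)))) = S.cd i := by
      cases b
      · rfl
      · exact S.ix_symm _ _
    rw [h2] at ht ⊢
    refine S.gives_pair lam hlam hξ hf h0 h1 i ?_
    rintro rfl
    exact ht rfl
  · refine S.gives_off lam hlam hξ hf h0 h1 r c hne ?_ ?_ ht
    · intro x hx hc
      exact hp ⟨x, hx, hc⟩
    · intro x hx hr
      exact hp ⟨fl x, hr, by rw [fl_fl]; exact hx⟩

/-- **The roots.** -/
theorem roots {τ : Type} [Fintype τ] [DecidableEq τ] {κ : τ → Type} [∀ t, Fintype (κ t)]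
    (p : τ → ℕ) (f : (t : τ) → κ t → MvPolynomial σ ℂ) (hf : ∀ t, S.IsPf (p t) (f t))
    {κ1 : Type} (f1 : κ1 → MvPolynomial σ ℂ) (hf1 : S.IsPf (d + 1) f1)
    (hp : ∀ t, p t ≤ d + (N + 2)) (t0 : τ) (h0 : d < p t0)
    (h1 : p t0 < d + (N + 2)) (b : Polynomial ℂ) (H : MvPolynomial σ ℂ)
    (hb : Pool.Agent.W574.LM.IsLocEq H (prodFam f) b)
    (hH : MvPolynomial.constantCoeff H ≠ 0)
    (hchart : ∀ (lam : ℂ) (hlam : lam ≠ 0), ∃ ξ, (S.D lam hlam).IsChart ξ)
    (l : ℕ) (hl : l < ∑ t, (p t - d)) (ν : ℕ)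
    (hν : Nat.card {t // ∃ r c, r ≠ c ∧ t = S.ix (Sum.inr r) (Sum.inr c)} = ν) :
    b.eval (-((ν : ℂ) + l) / (∑ t, (p t - d) : ℕ)) = 0 := by
  classical
  obtain ⟨lam, hlam, hlH⟩ := exists_scale H hH S.dl
  obtain ⟨ξ, hξ⟩ := hchart lam hlam
  obtain ⟨_, F, _, U, hU, hFU⟩ := S.hasOrd_pf lam hlam hξ hf1 (by omega)
  rw [Nat.add_sub_cancel_left] at hFU
  refine (S.D lam hlam).main hξ _ b H hb ?_ _ l hl
    (hasOrd_prod _ ξ _ _ fun t => S.hasOrd_pf lam hlam hξ (hf t) (hp t)) ?_ F U hU hFU ν ?_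
  · rw [cc_aeval]
    have h2 : (fun t => constantCoeff (ξ t)) = fun t => lam * S.dl t := by
      funext t
      exact S.cc_xi hξ t
    rw [h2]
    exact hlH
  · intro t ht hexc
    exact gives_prod _ ξ _ _ (fun t => S.hasOrd_pf lam hlam hξ (hf t) (hp t)) t0 t
      (S.gives_all lam hlam hξ (hf t0) h0 h1 t ht hexc)
  · rw [← hν, ← Nat.card_eq_fintype_card]
    refine Nat.card_congr (Equiv.subtypeEquivRight fun t => ?_)
    constructor
    · rintro ⟨r, c, h, h'⟩
      exact ⟨r, c, fun h2 => S.ne_of_sg h (by rw [h2]), h'⟩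
    · rintro ⟨r, c, h, h'⟩
      exact ⟨r, c, S.sg_ne fun h2 => h (Sum.inr_injective h2), h'⟩

end Sk

/-- The generic skew symmetric `n × n` matrix: its entries above the diagonal are the variables. -/
noncomputable def skewMatrix (n : ℕ) :
    Matrix (Fin n) (Fin n) (MvPolynomial {q : Fin n × Fin n // q.1 < q.2} ℂ) :=
  Matrix.of fun i j => if h : i < j then MvPolynomial.X ⟨(i, j), h⟩
    else if h : j < i then - MvPolynomial.X ⟨(j, i), h⟩ else 0

theorem skewMatrix_skew (n : ℕ) (i j : Fin n) : skewMatrix n i j = - skewMatrix n j i := by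
  rw [skewMatrix, Matrix.of_apply, Matrix.of_apply]
  rcases lt_trichotomy i j with h | h | h
  · rw [dif_pos h, dif_neg h.not_gt, dif_pos h, neg_neg]
  · subst h
    rw [dif_neg (lt_irrefl _), dif_neg (lt_irrefl _), neg_zero]
  · rw [dif_neg h.not_gt, dif_pos h, dif_pos h]

/-- The `2 p × 2 p` Pfaffians of the generic skew symmetric `n × n` matrix: the Pfaffians of the
submatrices given by `2 p` rows and the same columns. -/
noncomputable def pfaffians (n p : ℕ) (r : Fin (2 * p) ↪o Fin n) :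
    MvPolynomial {q : Fin n × Fin n // q.1 < q.2} ℂ :=
  Pool.Agent.Helper929.pf (2 * p) ((skewMatrix n).submatrix r r)

theorem pf_sq_poly {σ : Type} {n : ℕ} (A : Matrix (Fin n) (Fin n) (MvPolynomial σ ℂ))
    (hA : ∀ i j, A i j = - A j i) : Pool.Agent.Helper929.pf n A ^ 2 = A.det := by
  set φ : MvPolynomial σ ℂ →+* FractionRing (MvPolynomial σ ℂ) := algebraMap _ _ with hφ
  have hinj : Function.Injective φ := IsFractionRing.injective _ _
  have : CharZero (FractionRing (MvPolynomial σ ℂ)) :=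
    charZero_of_injective_algebraMap (R := MvPolynomial σ ℂ) hinj
  apply hinj
  rw [map_pow, Pool.Agent.Helper929.pf_map, Pool.Agent.Helper929.pf_sq, RingHom.map_det]
  · rfl
  · intro i j
    rw [Matrix.map_apply, Matrix.map_apply, hA i j, map_neg]

section Instance

variable {n d N r : ℕ} (e : (Fin d × Bool) ⊕ Tp N (Fin r) ≃ Fin n)

/-- the index of an entry -/
def six (t0 : {q : Fin n × Fin n // q.1 < q.2}) (i j : Fin n) :
    {q : Fin n × Fin n // q.1 < q.2} :=
  if h : i < j then ⟨(i, j), h⟩ else if h : j < i then ⟨(j, i), h⟩ else t0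

/-- the sign of an entry -/
noncomputable def ssg (i j : Fin n) : ℂ := if i < j then 1 else if j < i then -1 else 0

theorem six_lt {t0 : {q : Fin n × Fin n // q.1 < q.2}} {i j : Fin n} (h : i < j) :
    six t0 i j = ⟨(i, j), h⟩ := dif_pos h

theorem six_gt {t0 : {q : Fin n × Fin n // q.1 < q.2}} {i j : Fin n} (h : j < i) :
    six t0 i j = ⟨(j, i), h⟩ := by
  rw [six, dif_neg h.not_gt, dif_pos h]

theorem ssg_lt {i j : Fin n} (h : i < j) : ssg i j = 1 := if_pos h

theorem ssg_gt {i j : Fin n} (h : j < i) : ssg i j = -1 := by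
  rw [ssg, if_neg h.not_gt, if_pos h]

theorem ssg_self (i : Fin n) : ssg i i = 0 := by
  rw [ssg, if_neg (lt_irrefl _), if_neg (lt_irrefl _)]

/-- the data of the generic skew symmetric matrix -/
noncomputable def gK (t0 : {q : Fin n × Fin n // q.1 < q.2}) :
    Sk (Fin d × Bool) (Tp N (Fin r)) {q : Fin n × Fin n // q.1 < q.2} where
  ix := fun x y => six t0 (e x) (e y)
  sg := fun x y => ssg (e x) (e y)
  sg_sq := fun x y h => by
    rcases lt_or_gt_of_ne (fun h1 => h (e.injective h1)) with h1 | h1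
    · rw [ssg_lt h1, mul_one]
    · rw [ssg_gt h1]; norm_num
  sg_anti := fun x y => by
    rcases lt_trichotomy (e x) (e y) with h | h | h
    · rw [ssg_lt h, ssg_gt h]
    · rw [h, ssg_self, neg_zero]
    · rw [ssg_lt h, ssg_gt h, neg_neg]
  ix_symm := fun x y => by
    rcases lt_trichotomy (e x) (e y) with h | h | h
    · rw [six_lt h, six_gt h]
    · rw [h]
    · rw [six_lt h, six_gt h]
  ix_inj := fun x y x' y' h h' hh => by
    rcases lt_or_gt_of_ne (fun h1 => h (e.injective h1)) with h1 | h1 <;>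
      rcases lt_or_gt_of_ne (fun h1 => h' (e.injective h1)) with h2 | h2
    · rw [six_lt h1, six_lt h2, Subtype.mk.injEq, Prod.mk.injEq, e.injective.eq_iff,
        e.injective.eq_iff] at hh
      exact Or.inl hh
    · rw [six_lt h1, six_gt h2, Subtype.mk.injEq, Prod.mk.injEq, e.injective.eq_iff,
        e.injective.eq_iff] at hh
      exact Or.inr hh
    · rw [six_gt h1, six_lt h2, Subtype.mk.injEq, Prod.mk.injEq, e.injective.eq_iff,
        e.injective.eq_iff] at hh
      exact Or.inr ⟨hh.2, hh.1⟩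
    · rw [six_gt h1, six_gt h2, Subtype.mk.injEq, Prod.mk.injEq, e.injective.eq_iff,
        e.injective.eq_iff] at hh
      exact Or.inl ⟨hh.2, hh.1⟩
  surj := fun t => by
    refine ⟨e.symm t.1.1, e.symm t.1.2, ?_, ?_⟩
    · intro h
      have h1 := e.symm.injective h
      exact absurd h1 (ne_of_lt t.2)
    · rw [Equiv.apply_symm_apply, Equiv.apply_symm_apply, six_lt t.2]

theorem gK_P (t0 : {q : Fin n × Fin n // q.1 < q.2}) (x y : (Fin d × Bool) ⊕ Tp N (Fin r)) :
    (gK e t0).P x y = skewMatrix n (e x) (e y) := by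
  change MvPolynomial.C (ssg (e x) (e y)) * MvPolynomial.X (six t0 (e x) (e y)) = _
  rw [skewMatrix, Matrix.of_apply]
  rcases lt_trichotomy (e x) (e y) with h | h | h
  · rw [ssg_lt h, six_lt h, dif_pos h, map_one, one_mul]
  · rw [h, ssg_self, map_zero, zero_mul, dif_neg (lt_irrefl _), dif_neg (lt_irrefl _)]
  · rw [ssg_gt h, six_gt h, dif_neg h.not_gt, dif_pos h, map_neg, map_one, neg_one_mul]

theorem isPf_pfaffians (t0 : {q : Fin n × Fin n // q.1 < q.2}) (p : ℕ) :
    (gK e t0).IsPf p (pfaffians n p) := by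
  have hsq : ∀ S : Fin (2 * p) ↪o Fin n,
      pfaffians n p S ^ 2 = ((skewMatrix n).submatrix S S).det := fun S =>
    pf_sq_poly _ fun i j => skewMatrix_skew n _ _
  refine ⟨fun S => ⟨fun i => e.symm (S i), ?_⟩, fun s hs => ?_⟩
  · rw [hsq]
    congr 1
    ext1 i j
    rw [Matrix.submatrix_apply, Matrix.submatrix_apply, gK_P, Equiv.apply_symm_apply,
      Equiv.apply_symm_apply]
  · obtain ⟨S, π, hS⟩ := exists_sort (fun i => e (s i)) (e.injective.comp hs)
    refine ⟨S, ?_⟩
    rw [hsq]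
    have h1 : (gK e t0).P.submatrix s s = ((skewMatrix n).submatrix S S).submatrix π π := by
      ext1 i j
      rw [Matrix.submatrix_apply, Matrix.submatrix_apply, Matrix.submatrix_apply, gK_P, hS, hS]
    rw [h1, Matrix.det_submatrix_equiv_self]

theorem gK_chart (t0 : {q : Fin n × Fin n // q.1 < q.2}) (lam : ℂ) (hlam : lam ≠ 0) :
    ∃ ξ, ((gK e t0).D lam hlam).IsChart ξ := by
  refine ⟨fun t => ((gK e t0).D lam hlam).mX (e.symm t.1.1) (e.symm t.1.2), fun x y => ?_⟩
  have hsk : ∀ x y, ((gK e t0).D lam hlam).mX y x = - ((gK e t0).D lam hlam).mX x y := fun x y =>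
    congrFun (congrFun ((gK e t0).skew lam hlam) x) y
  change _ = MvPowerSeries.C (ssg (e x) (e y)) *
    ((gK e t0).D lam hlam).mX (e.symm (six t0 (e x) (e y)).1.1)
      (e.symm (six t0 (e x) (e y)).1.2)
  rcases lt_trichotomy (e x) (e y) with h | h | h
  · rw [ssg_lt h, six_lt h, map_one, one_mul, Equiv.symm_apply_apply, Equiv.symm_apply_apply]
  · rw [h, ssg_self, map_zero, zero_mul]
    have hxy : x = y := e.injective h
    subst hxy
    have h1 := hsk x x
    have h2 : (MvPowerSeries.C (2 : ℂ) : MvPowerSeries {q : Fin n × Fin n // q.1 < q.2} ℂ) *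
        ((gK e t0).D lam hlam).mX x x = 0 := by
      rw [show (2 : ℂ) = 1 + 1 by norm_num, map_add, map_one]
      linear_combination h1
    have h3 := congrArg (fun f => MvPowerSeries.C (2⁻¹ : ℂ) * f) h2
    simp only [← mul_assoc, ← map_mul, mul_zero] at h3
    rwa [inv_mul_cancel₀ (two_ne_zero), map_one, one_mul] at h3
  · rw [ssg_gt h, six_gt h, map_neg, map_one, neg_one_mul, Equiv.symm_apply_apply,
      Equiv.symm_apply_apply, hsk y x]

end Instance

theorem pf_roots (n d l : ℕ) {τ : Type} [Fintype τ] [DecidableEq τ] (p : τ → ℕ)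
    (hpn : ∀ t, 2 * p t ≤ n) (t0 : τ) (h0 : d < p t0) (h1 : 2 * p t0 + 1 < n)
    (b : Polynomial ℂ) (H : MvPolynomial {q : Fin n × Fin n // q.1 < q.2} ℂ)
    (hb : Pool.Agent.W574.LM.IsLocEq H (prodFam fun t => pfaffians n (p t)) b)
    (hH : MvPolynomial.constantCoeff H ≠ 0) (hl : l < ∑ t, (p t - d)) :
    b.eval (-(((n : ℂ) - 2 * d) * (n - 2 * d - 1) / 2 + l) / (∑ t, (p t - d) : ℕ)) = 0 := by
  classical
  obtain ⟨N, hN⟩ : ∃ N, n / 2 = d + (N + 2) := ⟨n / 2 - d - 2, by omega⟩
  obtain ⟨r, hr⟩ : ∃ r, n = 2 * d + (2 * (N + 2) + r) := ⟨n - 2 * d - 2 * (N + 2), by omega⟩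
  have e : (Fin d × Bool) ⊕ Tp N (Fin r) ≃ Fin n := Fintype.equivOfCardEq (by
    simp only [Tp, Fintype.card_sum, Fintype.card_prod, Fintype.card_fin, Fintype.card_bool]
    omega)
  have s0 : {q : Fin n × Fin n // q.1 < q.2} :=
    ⟨(⟨0, by omega⟩, ⟨1, by omega⟩), by simp [Fin.lt_def]⟩
  have hmain := (gK e s0).roots p (fun t => pfaffians n (p t))
    (fun t => isPf_pfaffians e s0 (p t)) _ (isPf_pfaffians e s0 (d + 1))
    (fun t => by have := hpn t; omega) t0 h0 (by omega) b H hb hH (gK_chart e s0) l hl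
    ((n - 2 * d).choose 2) ?_
  · have h3 : (((n - 2 * d).choose 2 : ℕ) : ℂ) = ((n : ℂ) - 2 * d) * (n - 2 * d - 1) / 2 := by
      rw [Nat.cast_choose_two, Nat.cast_sub (by omega)]
      push_cast
      ring
    rw [← h3]
    exact hmain
  · have h4 : Nat.card {t // ∃ r c, r ≠ c ∧ t = (gK e s0).ix (Sum.inr r) (Sum.inr c)}
        = Nat.card {q : Sym2 (Tp N (Fin r)) // ¬ q.IsDiag} := by
      symm
      refine Nat.card_eq_of_bijective (fun q => ⟨Sym2.lift ⟨fun r c => (gK e s0).ix (Sum.inr r)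
        (Sum.inr c), fun r c => (gK e s0).ix_symm _ _⟩ q.1, ?_⟩) ⟨?_, ?_⟩
      · obtain ⟨q, hq⟩ := q
        induction q using Sym2.ind with
        | _ x y =>
          rw [Sym2.mk_isDiag_iff] at hq
          exact ⟨x, y, hq, rfl⟩
      · rintro ⟨q, hq⟩ ⟨q', hq'⟩ h
        induction q using Sym2.ind with
        | _ x y =>
          induction q' using Sym2.ind with
          | _ x' y' =>
            rw [Sym2.mk_isDiag_iff] at hq hq'
            rw [Subtype.mk.injEq] at h
            change (gK e s0).ix (Sum.inr x) (Sum.inr y) = (gK e s0).ix (Sum.inr x')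
              (Sum.inr y') at h
            apply Subtype.ext
            change s(x, y) = s(x', y')
            rw [Sym2.eq_iff]
            rcases (gK e s0).ix_inj _ _ _ _ (fun h => hq (Sum.inr_injective h))
              (fun h => hq' (Sum.inr_injective h)) h with h | h
            · exact Or.inl ⟨Sum.inr_injective h.1, Sum.inr_injective h.2⟩
            · exact Or.inr ⟨Sum.inr_injective h.1, Sum.inr_injective h.2⟩
      · rintro ⟨t, x, y, hxy, h⟩
        exact ⟨⟨s(x, y), by rw [Sym2.mk_isDiag_iff]; exact hxy⟩, Subtype.ext h.symm⟩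
    rw [h4, Nat.card_eq_fintype_card, Sym2.card_subtype_not_diag]
    have h5 : Fintype.card (Tp N (Fin r)) = n - 2 * d := by
      simp only [Tp, Fintype.card_sum, Fintype.card_prod, Fintype.card_fin, Fintype.card_bool]
      omega
    rw [h5]

/-- The Pfaffians are not all zero. -/
theorem pfaffians_ne {n p : ℕ} (hn : 2 * p ≤ n) : ∃ r, pfaffians n p r ≠ 0 := by
  classical
  rcases Nat.eq_zero_or_pos p with h0 | h0
  · subst h0
    refine ⟨Fin.castLEOrderEmb (by omega), ?_⟩
    rw [pfaffians]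
    simp [Pool.Agent.Helper929.pf]
  · have e : (Fin p × Bool) ≃ Fin (2 * p) := Fintype.equivOfCardEq (by simp [mul_comm])
    set s : Fin (2 * p) → Fin (2 * p) → ℂ := fun i j =>
      if e.symm j = fl (e.symm i) then ssg i j else 0 with hs
    refine ⟨Fin.castLEOrderEmb hn, fun h => ?_⟩
    have hsq : pfaffians n p (Fin.castLEOrderEmb hn) ^ 2
        = ((skewMatrix n).submatrix (Fin.castLEOrderEmb hn) (Fin.castLEOrderEmb hn)).det :=
      pf_sq_poly _ fun i j => skewMatrix_skew n _ _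
    rw [h, zero_pow two_ne_zero] at hsq
    set x : {q : Fin n × Fin n // q.1 < q.2} → ℂ := fun q =>
      if h : (q.1.1 : ℕ) < 2 * p ∧ (q.1.2 : ℕ) < 2 * p then s ⟨q.1.1, h.1⟩ ⟨q.1.2, h.2⟩ else 0
      with hx
    have h1 := congrArg (MvPolynomial.eval x) hsq
    rw [map_zero, RingHom.map_det] at h1
    have h2 : (MvPolynomial.eval x).mapMatrix ((skewMatrix n).submatrix (Fin.castLEOrderEmb hn)
        (Fin.castLEOrderEmb hn)) = (jm fun a b => ssg (e a) (e b)).submatrix e.symm e.symm := by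
      ext1 i j
      have h3 : ∀ i j : Fin (2 * p), jm (fun a b => ssg (e a) (e b)) (e.symm i) (e.symm j)
          = s i j := by
        intro i j
        rw [jm, Matrix.of_apply, Equiv.apply_symm_apply, Equiv.apply_symm_apply]
      rw [RingHom.mapMatrix_apply, Matrix.map_apply, Matrix.submatrix_apply,
        Matrix.submatrix_apply, h3, skewMatrix, Matrix.of_apply]
      have hci : ∀ i : Fin (2 * p), ((Fin.castLEOrderEmb hn i : Fin n) : ℕ) = i := fun i => rfl
      rcases lt_trichotomy i j with h | h | h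
      · have h' : Fin.castLEOrderEmb hn i < Fin.castLEOrderEmb hn j := h
        rw [dif_pos h', MvPolynomial.eval_X, hx]
        have h4 : ((Fin.castLEOrderEmb hn i : Fin n) : ℕ) < 2 * p ∧
          ((Fin.castLEOrderEmb hn j : Fin n) : ℕ) < 2 * p := ⟨i.2, j.2⟩
        exact dif_pos h4
      · subst h
        rw [dif_neg (lt_irrefl _), dif_neg (lt_irrefl _), map_zero, hs]
        simp only
        rw [ssg_self, ite_self]
      · have h' : Fin.castLEOrderEmb hn j < Fin.castLEOrderEmb hn i := h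
        have h4 : ((Fin.castLEOrderEmb hn j : Fin n) : ℕ) < 2 * p ∧
          ((Fin.castLEOrderEmb hn i : Fin n) : ℕ) < 2 * p := ⟨j.2, i.2⟩
        have h5 : x ⟨(Fin.castLEOrderEmb hn j, Fin.castLEOrderEmb hn i), h'⟩ = s j i :=
          dif_pos h4
        rw [dif_neg h'.not_gt, dif_pos h', map_neg, MvPolynomial.eval_X, h5, hs]
        simp only
        have h6 : (e.symm i = fl (e.symm j)) ↔ (e.symm j = fl (e.symm i)) := by
          constructor
          · intro h; rw [h, fl_fl]
          · intro h; rw [h, fl_fl]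
        by_cases h7 : e.symm j = fl (e.symm i)
        · rw [if_pos h7, if_pos (h6.2 h7), ssg_lt h, ssg_gt h]
        · rw [if_neg h7, if_neg fun h => h7 (h6.1 h), neg_zero]
    rw [h2, Matrix.det_submatrix_equiv_self] at h1
    have h7 := det_jm (fun a b : Fin p × Bool => ssg (e a) (e b)) (fun x => by
      have hne : e x ≠ e (fl x) := fun h => fl_ne x (e.injective h).symm
      rcases lt_or_gt_of_ne hne with h | h
      · rw [ssg_lt h, mul_one]
      · rw [ssg_gt h]; norm_num)
    rw [← h1, mul_zero] at h7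
    exact zero_ne_one h7

end Pool.Agent.TH192.DT
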