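import Mathlib

set_option autoImplicit false

/-! # Topological zeta functions, computed on a resolution -/

namespace Pool.Agent.TH192.DT

open Polynomial

/-- The rational function `∑_I χ_I ∏_{i ∈ I} 1 / (N_i s + ν_i)`: the topological zeta function,
computed on a resolution with the components `E_i`, `i ∈ ι`, where `N_i` is the multiplicity of the
function along `E_i`, `ν_i - 1` is the multiplicity of the Jacobian determinant, and `χ_I` is the
Euler characteristic of the stratum which belongs to `I`. -/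
noncomputable def topZ {ι : Type} [Fintype ι] (ν N : ι → ℕ) (χ : Finset ι → ℤ) : RatFunc ℂ :=
  ∑ I : Finset ι, RatFunc.C ((χ I : ℤ) : ℂ) *
    ∏ i ∈ I, ((N i : RatFunc ℂ) * RatFunc.X + (ν i : RatFunc ℂ))⁻¹

/-- `f` is regular at `s`. -/
def Reg (s : ℂ) (f : RatFunc ℂ) : Prop :=
  ∃ p q : ℂ[X], q.eval s ≠ 0 ∧ f * algebraMap ℂ[X] (RatFunc ℂ) q = algebraMap ℂ[X] (RatFunc ℂ) p

theorem reg_denom {s : ℂ} {f : RatFunc ℂ} (h : Reg s f) : f.denom.eval s ≠ 0 := by
  obtain ⟨p, q, hq, hf⟩ := h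
  have hq0 : q ≠ 0 := by
    rintro rfl
    simp at hq
  have hqa : algebraMap ℂ[X] (RatFunc ℂ) q ≠ 0 := by
    simpa using hq0
  have h1 : f = algebraMap ℂ[X] (RatFunc ℂ) p / algebraMap ℂ[X] (RatFunc ℂ) q := by
    rw [eq_div_iff hqa, hf]
  have h2 : f.denom ∣ q := by
    rw [h1]
    exact RatFunc.denom_div_dvd p q
  intro h3
  apply hq
  obtain ⟨r, rfl⟩ := h2
  rw [eval_mul, h3, zero_mul]

theorem reg_add {s : ℂ} {f g : RatFunc ℂ} (hf : Reg s f) (hg : Reg s g) : Reg s (f + g) := by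
  obtain ⟨p, q, hq, hf⟩ := hf
  obtain ⟨p', q', hq', hg⟩ := hg
  refine ⟨p * q' + p' * q, q * q', by rw [eval_mul]; exact mul_ne_zero hq hq', ?_⟩
  rw [map_mul, map_add, map_mul, map_mul, ← hf, ← hg]
  ring

theorem reg_mul {s : ℂ} {f g : RatFunc ℂ} (hf : Reg s f) (hg : Reg s g) : Reg s (f * g) := by
  obtain ⟨p, q, hq, hf⟩ := hf
  obtain ⟨p', q', hq', hg⟩ := hg
  refine ⟨p * p', q * q', by rw [eval_mul]; exact mul_ne_zero hq hq', ?_⟩
  rw [map_mul, map_mul, ← hf, ← hg]
  ring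

theorem reg_C (s c : ℂ) : Reg s (RatFunc.C c) :=
  ⟨C c, 1, by simp, by rw [map_one, mul_one]; rfl⟩

theorem reg_sum {ι : Type} (s : ℂ) (A : Finset ι) (f : ι → RatFunc ℂ) (h : ∀ i ∈ A, Reg s (f i)) :
    Reg s (∑ i ∈ A, f i) := by
  classical
  induction A using Finset.induction_on with
  | empty => simpa using reg_C s 0
  | insert i A hi ih =>
    rw [Finset.sum_insert hi]
    exact reg_add (h i (Finset.mem_insert_self i A))
      (ih fun j hj => h j (Finset.mem_insert_of_mem hj))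

theorem reg_prod {ι : Type} (s : ℂ) (A : Finset ι) (f : ι → RatFunc ℂ)
    (h : ∀ i ∈ A, Reg s (f i)) : Reg s (∏ i ∈ A, f i) := by
  classical
  induction A using Finset.induction_on with
  | empty => simpa using reg_C s 1
  | insert i A hi ih =>
    rw [Finset.prod_insert hi]
    exact reg_mul (h i (Finset.mem_insert_self i A))
      (ih fun j hj => h j (Finset.mem_insert_of_mem hj))

theorem reg_lin (s : ℂ) (N ν : ℕ) (h : (N : ℂ) * s + ν ≠ 0) :
    Reg s ((N : RatFunc ℂ) * RatFunc.X + (ν : RatFunc ℂ))⁻¹ := by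
  refine ⟨1, C (N : ℂ) * X + C (ν : ℂ), by simpa using h, ?_⟩
  have h1 : algebraMap ℂ[X] (RatFunc ℂ) (C (N : ℂ) * X + C (ν : ℂ))
      = (N : RatFunc ℂ) * RatFunc.X + (ν : RatFunc ℂ) := by
    simp
  rw [h1, map_one, inv_mul_cancel₀]
  rw [← h1]
  have h2 : (C (N : ℂ) * X + C (ν : ℂ) : ℂ[X]) ≠ 0 := by
    intro h3
    apply h
    have := congrArg (eval s) h3
    simpa using this
  exact (map_ne_zero_iff _ (IsFractionRing.injective ℂ[X] (RatFunc ℂ))).2 h2

/-- The poles of the topological zeta function are among the numbers `-ν_i / N_i`, `N_i > 0`. -/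
theorem pole_topZ {ι : Type} [Fintype ι] (ν N : ι → ℕ) (χ : Finset ι → ℤ) (hν : ∀ i, 0 < ν i)
    (s : ℂ) (h : (topZ ν N χ).denom.eval s = 0) : ∃ i, 0 < N i ∧ s = -(ν i : ℂ) / N i := by
  by_contra hcon
  push Not at hcon
  refine reg_denom (reg_sum s _ _ fun I _ => reg_mul (reg_C s _) (reg_prod s _ _ fun i _ =>
    reg_lin s (N i) (ν i) ?_)) h
  intro h0
  rcases Nat.eq_zero_or_pos (N i) with hN | hN
  · rw [hN] at h0
    have : (ν i : ℂ) ≠ 0 := by exact_mod_cast (hν i).ne'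
    apply this
    simpa using h0
  · apply hcon i hN
    have hN' : (N i : ℂ) ≠ 0 := by exact_mod_cast hN.ne'
    field_simp
    linear_combination h0

end Pool.Agent.TH192.DT
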