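import Pool.Agent.TH192.DT.Pow
import Pool.Agent.TH192.DT.TopZ

set_option autoImplicit false

/-! # The poles of the zeta functions of products of powers of forms over determinantal ideals -/

namespace Pool.Agent.TH192.DT

open Pool.Agent.W574.SM Pool.Agent.W574.LM Pool.Agent.H628R4.TP

theorem half_pos {x : ℕ} (h : 2 ≤ x) : 0 < x / 2 := by omega

theorem nuG_pos (m n T : ℕ) (i : Fin (min m n) ⊕ Fin T) : 0 < nuG m n T i := by
  rcases i with d | t
  · change 0 < (m - d) * (n - d)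
    have := d.2
    exact Nat.mul_pos (by omega) (by omega)
  · exact one_pos

theorem nuS_pos (n T : ℕ) (i : Fin n ⊕ Fin T) : 0 < nuS n T i := by
  rcases i with d | t
  · change 0 < (n - d) * (n - d + 1) / 2
    have := d.2
    refine half_pos ?_
    calc 2 ≤ 1 * (1 + 1) := by norm_num
      _ ≤ (n - d) * (n - d + 1) := Nat.mul_le_mul (by omega) (by omega)
  · exact one_pos

theorem nuK_pos (n T : ℕ) (i : Fin (n / 2) ⊕ Fin T) : 0 < nuK n T i := by
  rcases i with d | t
  · change 0 < (n - 2 * d) * (n - 2 * d - 1) / 2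
    have := d.2
    refine half_pos ?_
    calc 2 ≤ 2 * 1 := by norm_num
      _ ≤ (n - 2 * d) * (n - 2 * d - 1) := Nat.mul_le_mul (by omega) (by omega)
  · exact one_pos

/-- a pole is one of the numbers `-ν_i / N_i` -/
theorem root_of_pole {ι : Type} [Fintype ι] (ν N : ι → ℕ) (χ : Finset ι → ℤ)
    (hν : ∀ i, 0 < ν i) (b : Polynomial ℂ)
    (h : ∀ i l, l < N i → b.eval (-((ν i : ℂ) + (l : ℕ)) / N i) = 0) (s : ℂ)
    (hs : (topZ ν N χ).denom.eval s = 0) : b.eval s = 0 := by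
  obtain ⟨i, hN, rfl⟩ := pole_topZ ν N χ hν s hs
  have := h i 0 hN
  rwa [Nat.cast_zero, add_zero] at this

/-- The twisted topological zeta function of order `e`: the sum over the non-empty sets `I` such
that `e` divides `N_i` for all `i ∈ I`. -/
noncomputable def twZ {ι : Type} [Fintype ι] (e : ℕ) (ν N : ι → ℕ) (χ : Finset ι → ℤ) :
    RatFunc ℂ :=
  open Classical in
  ∑ I ∈ Finset.univ.filter fun I : Finset ι => I.Nonempty ∧ ∀ i ∈ I, e ∣ N i,
    RatFunc.C ((χ I : ℤ) : ℂ) *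
      ∏ i ∈ I, ((N i : RatFunc ℂ) * RatFunc.X + (ν i : RatFunc ℂ))⁻¹

theorem twZ_eq {ι : Type} [Fintype ι] (e : ℕ) (ν N : ι → ℕ) (χ : Finset ι → ℤ) :
    ∃ χ' : Finset ι → ℤ, twZ e ν N χ = topZ ν N χ' := by
  classical
  refine ⟨fun I => if I.Nonempty ∧ ∀ i ∈ I, e ∣ N i then χ I else 0, ?_⟩
  rw [twZ, topZ, Finset.sum_filter]
  refine Finset.sum_congr rfl fun I _ => ?_
  split_ifs
  · rfl
  · simp

end Pool.Agent.TH192.DT
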