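import Pool.Agent.TH192.DT.Strict2
import Pool.Agent.TH192.DT.Pfaff

set_option autoImplicit false
set_option linter.unusedSectionVars false
set_option linter.unusedVariables false

/-! # The roots of the Bernstein-Sato polynomials of products of powers of forms over determinantal
ideals -/

namespace Pool.Agent.TH192.DT

open MvPolynomial Pool.Agent.W574.SM Pool.Agent.W574.HS Pool.Agent.W574.LM
  Pool.Agent.H628R4.TP

section General

variable {σ τ : Type} [Fintype σ] [DecidableEq σ] [Fintype τ] [DecidableEq τ] {κ : τ → Type}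
  [∀ t, Fintype (κ t)] [∀ t, DecidableEq (κ t)]

/-- everything which follows from a functional equation of the polynomial -/
structure PowData (a : τ → ℕ) (f : (t : τ) → κ t → MvPolynomial σ ℂ) (b : Polynomial ℂ) :
    Prop where
  ideal : (∃ t, a t ≠ 0) → ∃ H : MvPolynomial σ ℂ, constantCoeff H ≠ 0 ∧
    IsLocEq H (prodFam fun q : Σ t, Fin (a t) => f q.1) b
  strict : ∀ (t : τ) (l : ℕ), l < a t → b.eval (-(1 + (l : ℂ)) / a t) = 0

theorem powData_of_alg (a : τ → ℕ) (f : (t : τ) → κ t → MvPolynomial σ ℂ)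
    (hf : ∀ t, ∃ j, f t j ≠ 0) (b : Polynomial ℂ) (H : MvPolynomial ((Σ t, κ t) ⊕ σ) ℂ)
    (hH : constantCoeff H ≠ 0) (P : ℕ →₀ weylS ((Σ t, κ t) ⊕ σ))
    (hP : ∀ s : ℕ, H * (C (b.eval (s : ℂ)) * powProd a f ^ s) = P.sum fun m Q =>
      ((s : ℂ) ^ m) • (Q : Module.End ℂ (MvPolynomial ((Σ t, κ t) ⊕ σ) ℂ))
        (powProd a f ^ (s + 1))) : PowData a f b where
  ideal := fun ⟨t0, ht0⟩ =>
    ⟨hat H 0, by rw [cc_hat]; exact hH, locEq_of_powProd a f t0 ht0 b H P hP⟩
  strict := fun t l hl => strict_root f t a hf b H hH (isLocEq_single _ H b P hP) l hl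

theorem powData_global (a : τ → ℕ) (f : (t : τ) → κ t → MvPolynomial σ ℂ)
    (hf : ∀ t, ∃ j, f t j ≠ 0) (b : Polynomial ℂ) (hb : IsBFunction (powProd a f) b) :
    PowData a f b := by
  obtain ⟨P, hP⟩ := hb
  refine powData_of_alg a f hf b 1 (by rw [map_one]; exact one_ne_zero) P fun s => ?_
  rw [one_mul]
  exact hP s

theorem powData_local (a : τ → ℕ) (f : (t : τ) → κ t → MvPolynomial σ ℂ)
    (hf : ∀ t, ∃ j, f t j ≠ 0) (b : Polynomial ℂ) (hb : IsLocalBFunction (powProd a f) b) :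
    PowData a f b := by
  obtain ⟨H, P, hH, hP⟩ := algebraic_of_local (powProd a f) (powProd_ne a f hf) b hb
  exact powData_of_alg a f hf b H hH P hP

theorem sum_fac {T : Type} [Fintype T] (a p : T → ℕ) (d : ℕ) :
    ∑ q : Σ t, Fin (a t), (p q.1 - d) = ∑ t, a t * (p t - d) := by
  rw [Fintype.sum_sigma]
  simp

end General

/-- The multiplicities of `∏ t, F_t ^ a t`: `N_d = ∑ t, a t (p t - d)` along `E_d`, and `a t` along
the strict transform of `F_t = 0`. -/
def mulN (r : ℕ) {T : ℕ} (p a : Fin T → ℕ) : Fin r ⊕ Fin T → ℕ :=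
  Sum.elim (fun d => ∑ t, a t * (p t - d)) a

/-- The numbers `ν` for the generic matrix: `(m - d) (n - d)` for `E_d`, and `1` for the strict
transforms. -/
def nuG (m n T : ℕ) : Fin (min m n) ⊕ Fin T → ℕ :=
  Sum.elim (fun d => (m - d) * (n - d)) fun _ => 1

/-- The numbers `ν` for the symmetric matrix: `(n - d) (n - d + 1) / 2` for `E_d`, and `1` for the
strict transforms. -/
def nuS (n T : ℕ) : Fin n ⊕ Fin T → ℕ :=
  Sum.elim (fun d => (n - d) * (n - d + 1) / 2) fun _ => 1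

/-- The numbers `ν` for the skew symmetric matrix: `(n - 2 d) (n - 2 d - 1) / 2` for `E_d`, and `1`
for the strict transforms. -/
def nuK (n T : ℕ) : Fin (n / 2) ⊕ Fin T → ℕ :=
  Sum.elim (fun d => (n - 2 * d) * (n - 2 * d - 1) / 2) fun _ => 1

theorem pow_generic (m n T : ℕ) (p a : Fin T → ℕ) (hpm : ∀ t, p t < m) (hpn : ∀ t, p t < n)
    (b : Polynomial ℂ) (hb : PowData a (fun t => minorsOf (genericMatrix m n) (p t)) b)
    (i : Fin (min m n) ⊕ Fin T) (l : ℕ) (hl : l < mulN (min m n) p a i) :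
    b.eval (-((nuG m n T i : ℂ) + l) / mulN (min m n) p a i) = 0 := by
  rcases i with d | t
  · change l < ∑ t, a t * (p t - d) at hl
    obtain ⟨t, _, ht⟩ := Finset.exists_ne_zero_of_sum_ne_zero
      (by omega : ∑ t, a t * (p t - d) ≠ 0)
    have h1 : a t ≠ 0 := left_ne_zero_of_mul ht
    have h2 : p t - d ≠ 0 := right_ne_zero_of_mul ht
    obtain ⟨H, hH, hHb⟩ := hb.ideal ⟨t, h1⟩
    have h3 := generic_roots m n d l (fun q : Σ t, Fin (a t) => p q.1) (fun q => (hpm q.1).le)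
      (fun q => (hpn q.1).le) ⟨t, ⟨0, by omega⟩⟩ (by simp only; omega) (hpm t) (hpn t) b H hHb hH
      (by rw [sum_fac]; exact hl)
    rw [sum_fac] at h3
    have h4 : ((nuG m n T (Sum.inl d) : ℕ) : ℂ) = ((m : ℂ) - (d : ℕ)) * (n - (d : ℕ)) := by
      change (((m - d) * (n - d) : ℕ) : ℂ) = _
      have := d.2
      rw [Nat.cast_mul, Nat.cast_sub (by omega), Nat.cast_sub (by omega)]
    rw [h4]
    exact h3
  · have h3 := hb.strict t l hl
    change b.eval (-(((1 : ℕ) : ℂ) + l) / a t) = 0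
    rw [Nat.cast_one]
    exact h3

theorem pow_symm (n T : ℕ) (p a : Fin T → ℕ) (hpn : ∀ t, p t < n)
    (b : Polynomial ℂ) (hb : PowData a (fun t => minorsOf (symmetricMatrix n) (p t)) b)
    (i : Fin n ⊕ Fin T) (l : ℕ) (hl : l < mulN n p a i) :
    b.eval (-((nuS n T i : ℂ) + l) / mulN n p a i) = 0 := by
  rcases i with d | t
  · change l < ∑ t, a t * (p t - d) at hl
    obtain ⟨t, _, ht⟩ := Finset.exists_ne_zero_of_sum_ne_zero
      (by omega : ∑ t, a t * (p t - d) ≠ 0)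
    have h1 : a t ≠ 0 := left_ne_zero_of_mul ht
    have h2 : p t - d ≠ 0 := right_ne_zero_of_mul ht
    obtain ⟨H, hH, hHb⟩ := hb.ideal ⟨t, h1⟩
    have h3 := symm_roots n d l (fun q : Σ t, Fin (a t) => p q.1) (fun q => (hpn q.1).le)
      ⟨t, ⟨0, by omega⟩⟩ (by simp only; omega) (hpn t) b H hHb hH
      (by rw [sum_fac]; exact hl)
    rw [sum_fac] at h3
    have h4 : ((nuS n T (Sum.inl d) : ℕ) : ℂ) = ((n : ℂ) - (d : ℕ)) * (n - (d : ℕ) + 1) / 2 := by
      change (((n - d) * (n - d + 1) / 2 : ℕ) : ℂ) = _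
      have h5 : (n - d) * (n - d + 1) / 2 = (n - d + 1).choose 2 := by
        rw [Nat.choose_two_right, Nat.add_sub_cancel, mul_comm]
      rw [h5, Nat.cast_choose_two, Nat.cast_add, Nat.cast_sub (by omega), Nat.cast_one]
      ring
    rw [h4]
    exact h3
  · have h3 := hb.strict t l hl
    change b.eval (-(((1 : ℕ) : ℂ) + l) / a t) = 0
    rw [Nat.cast_one]
    exact h3

theorem pow_skew (n T : ℕ) (p a : Fin T → ℕ) (hpn : ∀ t, 2 * p t + 1 < n)
    (b : Polynomial ℂ) (hb : PowData a (fun t => pfaffians n (p t)) b)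
    (i : Fin (n / 2) ⊕ Fin T) (l : ℕ) (hl : l < mulN (n / 2) p a i) :
    b.eval (-((nuK n T i : ℂ) + l) / mulN (n / 2) p a i) = 0 := by
  rcases i with d | t
  · change l < ∑ t, a t * (p t - d) at hl
    obtain ⟨t, _, ht⟩ := Finset.exists_ne_zero_of_sum_ne_zero
      (by omega : ∑ t, a t * (p t - d) ≠ 0)
    have h1 : a t ≠ 0 := left_ne_zero_of_mul ht
    have h2 : p t - d ≠ 0 := right_ne_zero_of_mul ht
    obtain ⟨H, hH, hHb⟩ := hb.ideal ⟨t, h1⟩
    have h3 := pf_roots n d l (fun q : Σ t, Fin (a t) => p q.1)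
      (fun q => by have := hpn q.1; omega)
      ⟨t, ⟨0, by omega⟩⟩ (by simp only; omega) (hpn t) b H hHb hH
      (by rw [sum_fac]; exact hl)
    rw [sum_fac] at h3
    have h4 : ((nuK n T (Sum.inl d) : ℕ) : ℂ)
        = ((n : ℂ) - 2 * (d : ℕ)) * (n - 2 * (d : ℕ) - 1) / 2 := by
      change (((n - 2 * d) * (n - 2 * d - 1) / 2 : ℕ) : ℂ) = _
      have h5 : (n - 2 * d) * (n - 2 * d - 1) / 2 = (n - 2 * d).choose 2 := by
        rw [Nat.choose_two_right]
      rw [h5, Nat.cast_choose_two, Nat.cast_sub (by omega)]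
      push_cast
      ring
    rw [h4]
    exact h3
  · have h3 := hb.strict t l hl
    change b.eval (-(((1 : ℕ) : ℂ) + l) / a t) = 0
    rw [Nat.cast_one]
    exact h3

end Pool.Agent.TH192.DT
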