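import Pool.Agent.W574.LM.Core
import Pool.Agent.W574.SM.DetSort

set_option autoImplicit false
set_option linter.unusedSectionVars false
set_option linter.unusedVariables false

/-! # Roots from Rees divisors, in terms of the linear span of the generators -/

namespace Pool.Agent.TH192.DT

open MvPowerSeries Pool.Agent.W574.SM Pool.Agent.W574.LM

variable {σ : Type}

theorem coeff_single_mul (k : σ) (u w : MvPowerSeries σ ℂ) (hw : constantCoeff w = 0) :
    coeff (Finsupp.single k 1) (u * w) = constantCoeff u * coeff (Finsupp.single k 1) w := by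
  classical
  rw [← jet_snd, ← jet_snd, map_mul, TrivSqZeroExt.snd_mul, jet_fst, jet_fst, hw]
  simp

theorem isCoord_unit_mul {z k : σ} {u w : MvPowerSeries σ ℂ} (hu : constantCoeff u ≠ 0)
    (hw : IsCoord z k w) : IsCoord z k (u * w) := by
  obtain ⟨h0, h1, h2⟩ := hw
  refine ⟨?_, ?_, ?_⟩
  · rw [map_mul, h0, mul_zero]
  · rw [coeff_single_mul k u w h0]
    exact mul_ne_zero hu h1
  · intro l hl hlk
    rw [coeff_single_mul l u w h0, h2 l hl hlk, mul_zero]

theorem isLocEq_of_isFunctionalEq {ι : Type} [Fintype ι] {f : ι → MvPolynomial σ ℂ}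
    {b : Polynomial ℂ} (hb : IsFunctionalEq f b) : IsLocEq 1 f b := by
  obtain ⟨S, P, h1, h2⟩ := hb
  exact ⟨S, P, h1, fun s => by rw [one_mul]; exact h2 s⟩

/-- `rees_rootL` without the linear order. -/
theorem rees_rootL' {ι : Type} [Fintype σ] [DecidableEq σ] [Fintype ι]
    (f : ι → MvPolynomial σ ℂ) (b : Polynomial ℂ) (H : MvPolynomial σ ℂ) (hb : IsLocEq H f b)
    (z : σ) (ξ : σ → MvPowerSeries σ ℂ) (hHc : constantCoeff (MvPolynomial.aeval ξ H) ≠ 0)
    (k a l : ℕ) (hl : l < a) (U0 U1 U2 : MvPowerSeries σ ℂ)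
    (hU0 : constantCoeff U0 ≠ 0) (hU1 : constantCoeff U1 ≠ 0) (hU2 : constantCoeff U2 ≠ 0)
    (hJ : (Matrix.of fun t i => pderiv ℂ t (ξ i)).det = X z ^ k * U0)
    (j0 : ι) (hf : ∀ j, X z ^ a ∣ MvPolynomial.aeval ξ (f j))
    (hj0 : MvPolynomial.aeval ξ (f j0) = X z ^ a * U1)
    (p : MvPolynomial σ ℂ) (hp : MvPolynomial.aeval ξ p = X z ^ l * U2)
    (hcoord : ∀ t, t ≠ z → (∃ q : MvPolynomial σ ℂ, IsCoord z t (MvPolynomial.aeval ξ q)) ∨
      ∃ (c : ι → ℂ) (w : MvPowerSeries σ ℂ), IsCoord z t w ∧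
        ∑ j, c j • MvPolynomial.aeval ξ (f j) = MvPolynomial.aeval ξ (f j0) * w) :
    b.eval (-((k : ℂ) + 1 + l) / a) = 0 := by
  classical
  let lo : LinearOrder σ := LinearOrder.lift' (Fintype.equivFin σ) (Equiv.injective _)
  have hdet : ∀ {R : Type} [CommRing R] (M : Matrix σ σ R),
      @Matrix.det σ (fun a b => lo.toDecidableEq a b) _ R _ M = M.det := by
    intro R _ M
    congr
  refine rees_rootL f b H hb z ξ hHc k a l hl U0 U1 U2 hU0 hU1 hU2 ?_ j0 hf hj0 p hp hcoord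
  rw [← hJ]
  exact hdet _

/-- The family `f` has the order `a` along `z = 0`: all members are divisible by `z ^ a`, and a
linear combination is `z ^ a` times a unit. -/
def HasOrd {ι : Type} (z : σ) (ξ : σ → MvPowerSeries σ ℂ) (a : ℕ) (f : ι → MvPolynomial σ ℂ) :
    Prop :=
  (∀ j, X z ^ a ∣ MvPolynomial.aeval ξ (f j)) ∧
    ∃ F ∈ Submodule.span ℂ (Set.range f), ∃ U : MvPowerSeries σ ℂ, constantCoeff U ≠ 0 ∧
      MvPolynomial.aeval ξ F = X z ^ a * U

/-- The family `f`, of order `a` along `z = 0`, gives the coordinate of index `t`. -/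
def Gives {ι : Type} (z : σ) (ξ : σ → MvPowerSeries σ ℂ) (a : ℕ) (f : ι → MvPolynomial σ ℂ)
    (t : σ) : Prop :=
  ∃ G ∈ Submodule.span ℂ (Set.range f), ∃ w : MvPowerSeries σ ℂ, IsCoord z t w ∧
    MvPolynomial.aeval ξ G = X z ^ a * w

theorem rees_span {ι : Type} [Fintype σ] [DecidableEq σ] [Fintype ι]
    (f : ι → MvPolynomial σ ℂ) (b : Polynomial ℂ) (H : MvPolynomial σ ℂ) (hb : IsLocEq H f b)
    (z : σ) (ξ : σ → MvPowerSeries σ ℂ) (hHc : constantCoeff (MvPolynomial.aeval ξ H) ≠ 0)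
    (k a l : ℕ) (hl : l < a) (U0 U2 : MvPowerSeries σ ℂ)
    (hU0 : constantCoeff U0 ≠ 0) (hU2 : constantCoeff U2 ≠ 0)
    (hJ : (Matrix.of fun t i => pderiv ℂ t (ξ i)).det = X z ^ k * U0)
    (hf : HasOrd z ξ a f)
    (p : MvPolynomial σ ℂ) (hp : MvPolynomial.aeval ξ p = X z ^ l * U2)
    (hcoord : ∀ t, t ≠ z → (∃ q : MvPolynomial σ ℂ, IsCoord z t (MvPolynomial.aeval ξ q)) ∨
      Gives z ξ a f t) :
    b.eval (-((k : ℂ) + 1 + l) / a) = 0 := by
  classical
  obtain ⟨hdiv, F, hF, U, hU, hFU⟩ := hf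
  choose V hV using hdiv
  have hXa : (X z : MvPowerSeries σ ℂ) ^ a ≠ 0 := pow_ne_zero _ (X_ne0 z)
  obtain ⟨c, hc⟩ := (Submodule.mem_span_range_iff_exists_fun ℂ).1 hF
  have h1 : U = ∑ j, c j • V j := by
    apply mul_left_cancel₀ hXa
    rw [← hFU, ← hc, map_sum, Finset.mul_sum]
    refine Finset.sum_congr rfl fun j _ => ?_
    rw [map_smul, hV j, mul_smul_comm]
  obtain ⟨j0, hj0⟩ : ∃ j0, constantCoeff (V j0) ≠ 0 := by
    by_contra hcon
    push Not at hcon
    apply hU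
    rw [h1, map_sum]
    refine Finset.sum_eq_zero fun j _ => ?_
    rw [smul_eq_C_mul, map_mul, hcon j, mul_zero]
  have hinv : V j0 * (V j0)⁻¹ = 1 := MvPowerSeries.mul_inv_cancel _ hj0
  have hinv0 : constantCoeff (V j0)⁻¹ ≠ 0 := by
    intro h
    have h2 := congrArg constantCoeff hinv
    rw [map_mul, h, mul_zero, map_one] at h2
    exact zero_ne_one h2
  refine rees_rootL' f b H hb z ξ hHc k a l hl U0 (V j0) U2 hU0 hj0 hU2 hJ j0
    (fun j => ⟨V j, hV j⟩) (hV j0) p hp ?_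
  intro t ht
  rcases hcoord t ht with h | ⟨G, hG, w, hw, hGw⟩
  · left; exact h
  · right
    obtain ⟨c', hc'⟩ := (Submodule.mem_span_range_iff_exists_fun ℂ).1 hG
    refine ⟨c', (V j0)⁻¹ * w, isCoord_unit_mul hinv0 hw, ?_⟩
    have h3 : ∑ j, c' j • MvPolynomial.aeval ξ (f j) = MvPolynomial.aeval ξ G := by
      rw [← hc', map_sum]
      refine Finset.sum_congr rfl fun j _ => ?_
      rw [map_smul]
    rw [h3, hGw, hV j0]
    linear_combination (- X z ^ a * w) * hinv

section Product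

variable {τ : Type} [Fintype τ] [DecidableEq τ] {κ : τ → Type} [∀ t, Fintype (κ t)]

/-- The products of the members of several families. -/
noncomputable def prodFam (f : (t : τ) → κ t → MvPolynomial σ ℂ) (j : (t : τ) → κ t) :
    MvPolynomial σ ℂ :=
  ∏ t, f t (j t)

theorem prod_mem_span (f : (t : τ) → κ t → MvPolynomial σ ℂ) (F : τ → MvPolynomial σ ℂ)
    (hF : ∀ t, F t ∈ Submodule.span ℂ (Set.range (f t))) :
    ∏ t, F t ∈ Submodule.span ℂ (Set.range (prodFam f)) := by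
  classical
  choose c hc using fun t => (Submodule.mem_span_range_iff_exists_fun ℂ).1 (hF t)
  have h1 : ∏ t, F t = ∏ t, ∑ j, c t j • f t j := Finset.prod_congr rfl fun t _ => (hc t).symm
  rw [h1, Finset.prod_univ_sum]
  refine Submodule.sum_mem _ fun j _ => ?_
  have h2 : ∏ t, c t (j t) • f t (j t) = (∏ t, c t (j t)) • prodFam f j := by
    rw [prodFam]
    exact Finset.prod_smul _ _ _
  rw [h2]
  exact Submodule.smul_mem _ _ (Submodule.subset_span ⟨j, rfl⟩)

theorem hasOrd_prod (z : σ) (ξ : σ → MvPowerSeries σ ℂ) (a : τ → ℕ)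
    (f : (t : τ) → κ t → MvPolynomial σ ℂ) (h : ∀ t, HasOrd z ξ (a t) (f t)) :
    HasOrd z ξ (∑ t, a t) (prodFam f) := by
  choose h1 F hF U hU hFU using h
  refine ⟨fun j => ?_, ∏ t, F t, prod_mem_span f F hF, ∏ t, U t, ?_, ?_⟩
  · rw [prodFam, map_prod, ← Finset.prod_pow_eq_pow_sum]
    exact Finset.prod_dvd_prod_of_dvd _ _ fun t _ => h1 t (j t)
  · rw [map_prod]
    exact Finset.prod_ne_zero_iff.2 fun t _ => hU t
  · rw [map_prod, ← Finset.prod_pow_eq_pow_sum, ← Finset.prod_mul_distrib]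
    exact Finset.prod_congr rfl fun t _ => hFU t

theorem gives_prod (z : σ) (ξ : σ → MvPowerSeries σ ℂ) (a : τ → ℕ)
    (f : (t : τ) → κ t → MvPolynomial σ ℂ) (h : ∀ t, HasOrd z ξ (a t) (f t)) (t0 : τ) (k : σ)
    (hg : Gives z ξ (a t0) (f t0) k) :
    Gives z ξ (∑ t, a t) (prodFam f) k := by
  choose h1 F hF U hU hFU using h
  obtain ⟨G, hG, w, hw, hGw⟩ := hg
  refine ⟨∏ t, Function.update F t0 G t, prod_mem_span f _ fun t => ?_,
    (∏ t ∈ Finset.univ.erase t0, U t) * w, isCoord_unit_mul ?_ hw, ?_⟩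
  · by_cases ht : t = t0
    · subst ht; rw [Function.update_self]; exact hG
    · rw [Function.update_of_ne ht]; exact hF t
  · rw [map_prod]
    exact Finset.prod_ne_zero_iff.2 fun t _ => hU t
  · rw [map_prod, ← Finset.prod_pow_eq_pow_sum,
      ← Finset.mul_prod_erase _ _ (Finset.mem_univ t0),
      ← Finset.mul_prod_erase _ (fun t => X z ^ a t) (Finset.mem_univ t0), Function.update_self,
      hGw]
    have h2 : ∏ t ∈ Finset.univ.erase t0, MvPolynomial.aeval ξ (Function.update F t0 G t)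
        = (∏ t ∈ Finset.univ.erase t0, X z ^ a t) * ∏ t ∈ Finset.univ.erase t0, U t := by
      rw [← Finset.prod_mul_distrib]
      refine Finset.prod_congr rfl fun t ht => ?_
      rw [Function.update_of_ne (Finset.ne_of_mem_erase ht), hFU]
    rw [h2]
    ring

end Product

end Pool.Agent.TH192.DT
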