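import Pool.Agent.TH192.DT.Multi4

set_option autoImplicit false
set_option linter.unusedSectionVars false
set_option linter.unusedVariables false

/-! # Products of powers of forms `∑ y_{t, j} f_{t, j}` with separate variables: the roots which
come from the strict transforms -/

namespace Pool.Agent.TH192.DT

open Pool.Agent.W574.SM Pool.Agent.W574.HS Pool.Agent.W574.LM

/-- a functional equation of a polynomial, as a functional equation of a family with one member -/
theorem isLocEq_single {σ : Type} [DecidableEq σ] (F H : MvPolynomial σ ℂ) (b : Polynomial ℂ)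
    (P : ℕ →₀ Pool.Agent.H628R4.TP.weylS σ)
    (hP : ∀ s : ℕ, H * (MvPolynomial.C (b.eval (s : ℂ)) * F ^ s) = P.sum fun m Q =>
      ((s : ℂ) ^ m) • (Q : Module.End ℂ (MvPolynomial σ ℂ)) (F ^ (s + 1))) :
    IsLocEq H (fun _ : Unit => F) b := by
  classical
  refine isLocEq_of_rep (fun _ : Unit => F) b H
    (fun G s => ∑ m ∈ P.support, evN s (MvPolynomial.X () ^ m) •
      (P m : Module.End ℂ (MvPolynomial σ ℂ)) (G (s + Finsupp.single () 1)))
    (rep_sum P.support (fun m G s => evN s (MvPolynomial.X () ^ m) •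
      (P m : Module.End ℂ (MvPolynomial σ ℂ)) (G (s + Finsupp.single () 1)))
      fun m _ => rep_poly (rep_weyl (rep_shift (Finsupp.single () 1) _ rep_id) (P m)) _)
    fun s => ?_
  have h1 := hP (s ())
  rw [mul_left_comm, MvPolynomial.C_mul'] at h1
  simp only [Finset.univ_unique, PUnit.default_eq_unit, Finset.sum_singleton,
    Finset.prod_singleton]
  rw [h1, Finsupp.sum]
  refine Finset.sum_congr rfl fun m _ => ?_
  have h2 : (s + Finsupp.single () 1 : Unit →₀ ℕ) () = s () + 1 := by simp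
  have h3 : evN s (MvPolynomial.X () ^ m : MvPolynomial Unit ℂ) = ((s () : ℕ) : ℂ) ^ m := by
    rw [evN, map_pow, MvPolynomial.eval_X]
  rw [h2, if_pos rfl, h3]

theorem eval_eval {σ τ : Type} (v : τ → ℂ) (φ : σ → MvPolynomial τ ℂ) (H : MvPolynomial σ ℂ) :
    MvPolynomial.eval (fun i => MvPolynomial.eval v (φ i)) H
      = MvPolynomial.eval v (MvPolynomial.aeval φ H) := by
  induction H using MvPolynomial.induction_on with
  | C c => simp [← MvPolynomial.algebraMap_eq]
  | add p q hp hq => rw [map_add, map_add, map_add, hp, hq]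
  | mul_X p i hp => rw [map_mul, map_mul, map_mul, hp, MvPolynomial.aeval_X, MvPolynomial.eval_X]

section Strict

variable {σ τ : Type} [Fintype σ] [DecidableEq σ] [Fintype τ] [DecidableEq τ] {κ : τ → Type}
  [∀ t, Fintype (κ t)] [∀ t, DecidableEq (κ t)]

theorem blockForm_ne (f : (t : τ) → κ t → MvPolynomial σ ℂ) (t : τ) (ht : ∃ j, f t j ≠ 0) :
    blockForm f t ≠ 0 := by
  obtain ⟨j, hj⟩ := ht
  intro h
  apply hj
  have h1 := congrArg (MvPolynomial.aeval (Sum.elim (fun q : Σ t, κ t =>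
    if q = ⟨t, j⟩ then (1 : MvPolynomial σ ℂ) else 0) MvPolynomial.X)) h
  rw [blockForm, map_sum, map_zero, Finset.sum_eq_single j] at h1
  · rw [map_mul, MvPolynomial.aeval_X, Sum.elim_inl, if_pos rfl, one_mul,
      MvPolynomial.aeval_rename, Sum.elim_comp_inr] at h1
    simpa using h1
  · intro i _ hi
    rw [map_mul, MvPolynomial.aeval_X, Sum.elim_inl, if_neg, zero_mul]
    intro h2
    exact hi (by simpa using h2)
  · intro h; exact absurd (Finset.mem_univ _) h

theorem powProd_ne (a : τ → ℕ) (f : (t : τ) → κ t → MvPolynomial σ ℂ)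
    (hf : ∀ t, ∃ j, f t j ≠ 0) : powProd a f ≠ 0 :=
  Finset.prod_ne_zero_iff.2 fun t _ => pow_ne_zero _ (blockForm_ne f t (hf t))

/-- A good point on the strict transform of the form `t0`. -/
theorem exists_point (f : (t : τ) → κ t → MvPolynomial σ ℂ) (hf : ∀ t, ∃ j, f t j ≠ 0)
    (t0 : τ) (H : MvPolynomial ((Σ t, κ t) ⊕ σ) ℂ) (hH : MvPolynomial.constantCoeff H ≠ 0) :
    ∃ (v : (Σ t, κ t) ⊕ σ → ℂ) (j0 : κ t0), (∀ j, v (Sum.inl ⟨t0, j⟩) = 0) ∧
      MvPolynomial.eval (fun i => v (Sum.inr i)) (f t0 j0) ≠ 0 ∧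
      (∀ t, t ≠ t0 → MvPolynomial.eval v (blockForm f t) ≠ 0) ∧ MvPolynomial.eval v H ≠ 0 := by
  classical
  obtain ⟨j0, hj0⟩ := hf t0
  set φ : (Σ t, κ t) ⊕ σ → MvPolynomial ((Σ t, κ t) ⊕ σ) ℂ :=
    Sum.elim (fun q => if q.1 = t0 then 0 else MvPolynomial.X (Sum.inl q))
      (fun i => MvPolynomial.X (Sum.inr i)) with hφ
  have h1 : MvPolynomial.aeval φ H ≠ 0 := by
    intro h
    apply hH
    have h2 := congrArg (MvPolynomial.eval (0 : (Σ t, κ t) ⊕ σ → ℂ)) h
    rw [← eval_eval, map_zero] at h2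
    rw [← h2, MvPolynomial.constantCoeff_eq, ← MvPolynomial.constantCoeff_eq]
    have h3 : (fun i => MvPolynomial.eval (0 : (Σ t, κ t) ⊕ σ → ℂ) (φ i)) = 0 := by
      funext i
      rcases i with q | i
      · rw [hφ, Sum.elim_inl]
        split_ifs <;> simp
      · rw [hφ, Sum.elim_inr]; simp
    rw [h3, MvPolynomial.eval_zero]
  have h2 : MvPolynomial.rename (Sum.inr : σ → (Σ t, κ t) ⊕ σ) (f t0 j0) ≠ 0 := by
    intro h
    exact hj0 (MvPolynomial.rename_injective _ Sum.inr_injective (by rw [h, map_zero]))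
  have h3 : ∏ t ∈ Finset.univ.erase t0, blockForm f t ≠ 0 :=
    Finset.prod_ne_zero_iff.2 fun t _ => blockForm_ne f t (hf t)
  obtain ⟨v', hv'⟩ : ∃ v', MvPolynomial.eval v' (MvPolynomial.aeval φ H *
      (MvPolynomial.rename Sum.inr (f t0 j0) * ∏ t ∈ Finset.univ.erase t0, blockForm f t))
      ≠ 0 := by
    by_contra hcon
    push Not at hcon
    exact mul_ne_zero h1 (mul_ne_zero h2 h3) (MvPolynomial.funext fun v => by
      rw [hcon v, map_zero])
  rw [map_mul, map_mul, map_prod] at hv'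
  have hv1 := left_ne_zero_of_mul hv'
  have hv2 := left_ne_zero_of_mul (right_ne_zero_of_mul hv')
  have hv3 := Finset.prod_ne_zero_iff.1 (right_ne_zero_of_mul (right_ne_zero_of_mul hv'))
  refine ⟨fun i => MvPolynomial.eval v' (φ i), j0, fun j => ?_, ?_, fun t ht => ?_, ?_⟩
  · have h6 : φ (Sum.inl ⟨t0, j⟩) = 0 := by rw [hφ, Sum.elim_inl, if_pos rfl]
    beta_reduce
    rw [h6, map_zero]
  · rw [MvPolynomial.eval_rename] at hv2
    have h6 : (fun i => MvPolynomial.eval v' (φ (Sum.inr i))) = v' ∘ Sum.inr := by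
      funext i
      rw [hφ, Sum.elim_inr, MvPolynomial.eval_X]
      rfl
    beta_reduce
    rw [h6]
    exact hv2
  · have h6 : (fun i => MvPolynomial.eval v' (φ i)) ∘ Sum.inr = v' ∘ Sum.inr := by
      funext i
      rw [Function.comp_apply, hφ, Sum.elim_inr, MvPolynomial.eval_X]
      rfl
    have h4 : MvPolynomial.eval (fun i => MvPolynomial.eval v' (φ i)) (blockForm f t)
        = MvPolynomial.eval v' (blockForm f t) := by
      rw [blockForm, map_sum, map_sum]
      refine Finset.sum_congr rfl fun j _ => ?_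
      rw [map_mul, map_mul, MvPolynomial.eval_X, MvPolynomial.eval_X, MvPolynomial.eval_rename,
        MvPolynomial.eval_rename, h6]
      congr 1
      rw [hφ, Sum.elim_inl, if_neg ht, MvPolynomial.eval_X]
    rw [h4]
    exact hv3 t (Finset.mem_erase.2 ⟨ht, Finset.mem_univ t⟩)
  · rw [eval_eval]
    exact hv1

end Strict

end Pool.Agent.TH192.DT
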