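import Pool.Agent.TH192.DT.Strict

set_option autoImplicit false
set_option linter.unusedSectionVars false
set_option linter.unusedVariables false

/-! # Products of powers of forms `∑ y_{t, j} f_{t, j}` with separate variables: the roots which
come from the strict transforms, the chart -/

namespace Pool.Agent.TH192.DT

open MvPowerSeries Pool.Agent.W574.SM Pool.Agent.W574.HS Pool.Agent.W574.LM

section Strict

variable {σ τ : Type} [Fintype σ] [DecidableEq σ] [Fintype τ] [DecidableEq τ] {κ : τ → Type}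
  [∀ t, Fintype (κ t)] [∀ t, DecidableEq (κ t)]

/-- the shift to the point `v` -/
noncomputable def shiftV (v : (Σ t, κ t) ⊕ σ → ℂ) (i : (Σ t, κ t) ⊕ σ) :
    MvPowerSeries ((Σ t, κ t) ⊕ σ) ℂ := MvPowerSeries.C (v i) + X i

/-- the value of a polynomial in the variables `x` -/
noncomputable def valX (v : (Σ t, κ t) ⊕ σ → ℂ) (p : MvPolynomial σ ℂ) :
    MvPowerSeries ((Σ t, κ t) ⊕ σ) ℂ := MvPolynomial.aeval (fun i => shiftV v (Sum.inr i)) p

/-- the chart at a point of the strict transform of the form `t0` -/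
noncomputable def chartV (f : (t : τ) → κ t → MvPolynomial σ ℂ) (v : (Σ t, κ t) ⊕ σ → ℂ)
    (t0 : τ) (j0 : κ t0) (i : (Σ t, κ t) ⊕ σ) : MvPowerSeries ((Σ t, κ t) ⊕ σ) ℂ :=
  if i = Sum.inl ⟨t0, j0⟩ then
    (X (Sum.inl ⟨t0, j0⟩) - ∑ j ∈ Finset.univ.erase j0, X (Sum.inl ⟨t0, j⟩) * valX v (f t0 j)) *
      (valX v (f t0 j0))⁻¹
  else shiftV v i

theorem cc_aeval_eval {s r : Type} (ξ : s → MvPowerSeries r ℂ) (p : MvPolynomial s ℂ) :
    constantCoeff (MvPolynomial.aeval ξ p)
      = MvPolynomial.eval (fun i => constantCoeff (ξ i)) p := by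
  induction p using MvPolynomial.induction_on with
  | C c =>
    rw [MvPolynomial.aeval_C, MvPolynomial.eval_C]
    exact constantCoeff_C c
  | add p q hp hq => rw [map_add, map_add, map_add, hp, hq]
  | mul_X p i hp => rw [map_mul, map_mul, map_mul, hp, MvPolynomial.aeval_X, MvPolynomial.eval_X]

variable (f : (t : τ) → κ t → MvPolynomial σ ℂ) (v : (Σ t, κ t) ⊕ σ → ℂ) (t0 : τ) (j0 : κ t0)

theorem cc_shiftV (i : (Σ t, κ t) ⊕ σ) : constantCoeff (shiftV v i) = v i := by
  rw [shiftV, map_add, constantCoeff_C, constantCoeff_X, add_zero]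

theorem cc_valX (p : MvPolynomial σ ℂ) :
    constantCoeff (valX v p) = MvPolynomial.eval (fun i => v (Sum.inr i)) p := by
  rw [valX, cc_aeval_eval]
  simp only [cc_shiftV]

theorem chartV_ne (i : (Σ t, κ t) ⊕ σ) (h : i ≠ Sum.inl ⟨t0, j0⟩) :
    chartV f v t0 j0 i = shiftV v i := if_neg h

theorem chartV_z : chartV f v t0 j0 (Sum.inl ⟨t0, j0⟩) =
    (X (Sum.inl ⟨t0, j0⟩) - ∑ j ∈ Finset.univ.erase j0, X (Sum.inl ⟨t0, j⟩) * valX v (f t0 j)) *
      (valX v (f t0 j0))⁻¹ := if_pos rfl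

theorem chartV_r (p : MvPolynomial σ ℂ) :
    MvPolynomial.aeval (chartV f v t0 j0) (MvPolynomial.rename Sum.inr p) = valX v p := by
  rw [MvPolynomial.aeval_rename, valX]
  congr 2

theorem cc_chartV (hv : ∀ j, v (Sum.inl ⟨t0, j⟩) = 0) (i : (Σ t, κ t) ⊕ σ) :
    constantCoeff (chartV f v t0 j0 i) = v i := by
  by_cases h : i = Sum.inl ⟨t0, j0⟩
  · subst h
    rw [chartV_z, map_mul, map_sub, constantCoeff_X, map_sum, Finset.sum_eq_zero, sub_zero,
      zero_mul, hv]
    intro j _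
    rw [map_mul, constantCoeff_X, zero_mul]
  · rw [chartV_ne f v t0 j0 i h, cc_shiftV]

theorem chart_form (hv : ∀ j, v (Sum.inl ⟨t0, j⟩) = 0)
    (hf : MvPolynomial.eval (fun i => v (Sum.inr i)) (f t0 j0) ≠ 0) :
    MvPolynomial.aeval (chartV f v t0 j0) (blockForm f t0) = X (Sum.inl ⟨t0, j0⟩) := by
  have hinv : valX v (f t0 j0) * (valX v (f t0 j0))⁻¹ = 1 :=
    MvPowerSeries.mul_inv_cancel _ (by rw [cc_valX]; exact hf)
  rw [blockForm, map_sum, ← Finset.add_sum_erase _ _ (Finset.mem_univ j0)]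
  have h1 : ∀ j ∈ Finset.univ.erase j0, MvPolynomial.aeval (chartV f v t0 j0)
      (MvPolynomial.X (Sum.inl ⟨t0, j⟩) * MvPolynomial.rename Sum.inr (f t0 j))
      = X (Sum.inl ⟨t0, j⟩) * valX v (f t0 j) := by
    intro j hj
    rw [map_mul, MvPolynomial.aeval_X, chartV_r, chartV_ne, shiftV, hv, map_zero, zero_add]
    intro h
    apply Finset.ne_of_mem_erase hj
    simpa using h
  rw [Finset.sum_congr rfl h1, map_mul, MvPolynomial.aeval_X, chartV_r, chartV_z]
  linear_combination (X (Sum.inl ⟨t0, j0⟩) - ∑ j ∈ Finset.univ.erase j0,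
    X (Sum.inl ⟨t0, j⟩) * valX v (f t0 j)) * hinv

theorem pderiv_shiftV (t i : (Σ t, κ t) ⊕ σ) :
    pderiv ℂ t (shiftV v i) = if t = i then 1 else 0 := by
  rw [shiftV, map_add, pderiv_C, zero_add]
  by_cases h : t = i
  · subst h
    rw [pderiv_X_self, if_pos rfl]
  · rw [pderiv_X_of_ne (Ne.symm h), if_neg h]

theorem pderiv_valX (q : Σ t, κ t) (p : MvPolynomial σ ℂ) :
    pderiv ℂ (Sum.inl q) (valX v p) = 0 := by
  rw [valX, pderiv_aeval]
  refine Finset.sum_eq_zero fun s _ => ?_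
  rw [pderiv_shiftV, if_neg (by simp), mul_zero]

theorem pderiv_inv_zero {r : Type} (t : r) (w : MvPowerSeries r ℂ) (hw : constantCoeff w ≠ 0)
    (h : pderiv ℂ t w = 0) : pderiv ℂ t w⁻¹ = 0 := by
  have h1 := congrArg (pderiv ℂ t) (MvPowerSeries.mul_inv_cancel w hw)
  rw [Derivation.leibniz, h, smul_zero, add_zero, pderiv_one, smul_eq_mul] at h1
  have h2 := congrArg (fun x => w⁻¹ * x) h1
  simp only [mul_zero] at h2
  rw [← mul_assoc, mul_comm w⁻¹ w, MvPowerSeries.mul_inv_cancel w hw, one_mul] at h2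
  exact h2

theorem chart_jac (hf : MvPolynomial.eval (fun i => v (Sum.inr i)) (f t0 j0) ≠ 0) :
    (Matrix.of fun t i => pderiv ℂ t (chartV f v t0 j0 i)).det
      = X (Sum.inl ⟨t0, j0⟩) ^ 0 * (valX v (f t0 j0))⁻¹ := by
  have hcc : constantCoeff (valX v (f t0 j0)) ≠ 0 := by rw [cc_valX]; exact hf
  rw [det_of_rank _ (fun t => if t = Sum.inl ⟨t0, j0⟩ then 1 else 0),
    Finset.prod_eq_single (Sum.inl ⟨t0, j0⟩)]
  · rw [Matrix.of_apply, chartV_z, Derivation.leibniz, map_sub, map_sum,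
      pderiv_inv_zero _ _ hcc (pderiv_valX v _ _), smul_zero, zero_add, pderiv_X_self,
      Finset.sum_eq_zero, sub_zero, smul_eq_mul, mul_one, pow_zero, one_mul]
    intro j hj
    rw [Derivation.leibniz, pderiv_valX, smul_zero, zero_add, pderiv_X_of_ne, smul_zero]
    intro h
    apply Finset.ne_of_mem_erase hj
    simpa using h
  · intro i _ hi
    rw [Matrix.of_apply, chartV_ne f v t0 j0 i hi, pderiv_shiftV, if_pos rfl]
  · intro h; exact absurd (Finset.mem_univ _) h
  · intro t i hti hb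
    by_cases hi : i = Sum.inl ⟨t0, j0⟩
    · rw [if_pos hi] at hb
      rw [if_neg] at hb
      · omega
      · intro h; exact hti (h.trans hi.symm)
    · rw [Matrix.of_apply, chartV_ne f v t0 j0 i hi, pderiv_shiftV, if_neg hti]

/-- **The roots which come from the strict transforms.** -/
theorem strict_root (a : τ → ℕ) (hne : ∀ t, ∃ j, f t j ≠ 0)
    (b : Polynomial ℂ) (H : MvPolynomial ((Σ t, κ t) ⊕ σ) ℂ)
    (hH : MvPolynomial.constantCoeff H ≠ 0)
    (hb : IsLocEq H (fun _ : Unit => powProd a f) b) (l : ℕ) (hl : l < a t0) :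
    b.eval (-(1 + (l : ℂ)) / a t0) = 0 := by
  classical
  obtain ⟨v, j0, hv0, hvf, hvt, hvH⟩ := exists_point f hne t0 H hH
  have hcc : ∀ p, constantCoeff (MvPolynomial.aeval (chartV f v t0 j0) p)
      = MvPolynomial.eval v p := by
    intro p
    rw [cc_aeval_eval]
    simp only [cc_chartV f v t0 j0 hv0]
  have hU0 : constantCoeff (valX v (f t0 j0))⁻¹ ≠ 0 := by
    rw [MvPowerSeries.constantCoeff_inv, cc_valX]
    exact inv_ne_zero hvf
  have hpow : MvPolynomial.aeval (chartV f v t0 j0) (powProd a f)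
      = X (Sum.inl ⟨t0, j0⟩) ^ a t0 * ∏ t ∈ Finset.univ.erase t0,
        MvPolynomial.aeval (chartV f v t0 j0) (blockForm f t) ^ a t := by
    rw [powProd, map_prod, ← Finset.mul_prod_erase _ _ (Finset.mem_univ t0), map_pow,
      chart_form f v t0 j0 hv0 hvf]
    congr 1
    exact Finset.prod_congr rfl fun t _ => by rw [map_pow]
  have h := rees_rootL' (fun _ : Unit => powProd a f) b H hb (Sum.inl ⟨t0, j0⟩)
    (chartV f v t0 j0) (by rw [hcc]; exact hvH) 0 (a t0) l hl (valX v (f t0 j0))⁻¹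
    (∏ t ∈ Finset.univ.erase t0, MvPolynomial.aeval (chartV f v t0 j0) (blockForm f t) ^ a t) 1
    hU0 (by
      rw [map_prod]
      refine Finset.prod_ne_zero_iff.2 fun t ht => ?_
      rw [map_pow, hcc]
      exact pow_ne_zero _ (hvt t (Finset.ne_of_mem_erase ht)))
    (by simp) (chart_jac f v t0 j0 hvf) () (fun _ => ⟨_, hpow⟩) hpow (blockForm f t0 ^ l)
    (by rw [map_pow, chart_form f v t0 j0 hv0 hvf, mul_one])
    (fun t ht => Or.inl ⟨MvPolynomial.X t - MvPolynomial.C (v t), by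
      rw [map_sub, MvPolynomial.aeval_X, MvPolynomial.aeval_C, chartV_ne f v t0 j0 t ht, shiftV]
      have h5 : algebraMap ℂ (MvPowerSeries ((Σ t, κ t) ⊕ σ) ℂ) (v t) = MvPowerSeries.C (v t) :=
        rfl
      rw [h5, add_sub_cancel_left]
      refine ⟨constantCoeff_X t, ?_, ?_⟩
      · rw [coeff_X, if_pos rfl]; exact one_ne_zero
      · intro l _ hl
        rw [coeff_X, if_neg]
        intro h6
        exact hl (Finsupp.single_left_injective one_ne_zero h6)⟩)
  rw [← h]
  congr 1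
  push_cast
  ring

end Strict

end Pool.Agent.TH192.DT
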