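import Pool.Agent.TH192.DT.Poles

set_option autoImplicit false
set_option linter.unusedSectionVars false

/-! # The three spaces of matrices -/

namespace Pool.Agent.TH192.DT

open Pool.Agent.W574.SM Pool.Agent.W574.LM Pool.Agent.H628R4.TP Pool.Agent.W574.HS

/-- The spaces of matrices: all `m × n` matrices, the symmetric `n × n` matrices, the skew symmetric
`n × n` matrices. -/
inductive MSpace : Type
  | gen (m n : ℕ) : MSpace
  | sym (n : ℕ) : MSpace
  | skew (n : ℕ) : MSpace

namespace MSpace

/-- The coordinates of the space of matrices: the places `(i, j)`; the places `(i, j) = (j, i)`; the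
places `(i, j)`, `i < j`. -/
def Var : MSpace → Type
  | gen m n => Fin m × Fin n
  | sym n => Sym2 (Fin n)
  | skew n => {q : Fin n × Fin n // q.1 < q.2}

instance instFintypeVar : (S : MSpace) → Fintype S.Var
  | gen m n => inferInstanceAs (Fintype (Fin m × Fin n))
  | sym n => inferInstanceAs (Fintype (Sym2 (Fin n)))
  | skew n => inferInstanceAs (Fintype {q : Fin n × Fin n // q.1 < q.2})

instance instDecidableEqVar : (S : MSpace) → DecidableEq S.Var
  | gen m n => inferInstanceAs (DecidableEq (Fin m × Fin n))
  | sym n => inferInstanceAs (DecidableEq (Sym2 (Fin n)))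
  | skew n => inferInstanceAs (DecidableEq {q : Fin n × Fin n // q.1 < q.2})

/-- The index set of the minors (Pfaffians) of size `p` (`2 p`): the choices of `p` rows and `p`
columns (of `2 p` rows and the same columns). -/
def Idx : MSpace → ℕ → Type
  | gen m n, p => (Fin p ↪o Fin m) × (Fin p ↪o Fin n)
  | sym n, p => (Fin p ↪o Fin n) × (Fin p ↪o Fin n)
  | skew n, p => Fin (2 * p) ↪o Fin n

noncomputable instance instFintypeIdx : (S : MSpace) → (p : ℕ) → Fintype (S.Idx p)
  | gen m n, p => inferInstanceAs (Fintype ((Fin p ↪o Fin m) × (Fin p ↪o Fin n)))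
  | sym n, p => inferInstanceAs (Fintype ((Fin p ↪o Fin n) × (Fin p ↪o Fin n)))
  | skew n, p => inferInstanceAs (Fintype (Fin (2 * p) ↪o Fin n))

noncomputable instance (S : MSpace) (p : ℕ) : DecidableEq (S.Idx p) := Classical.decEq _

/-- The minors of size `p` of the generic, or symmetric, matrix; the Pfaffians of size `2 p` of the
skew symmetric matrix. -/
noncomputable def minors : (S : MSpace) → (p : ℕ) → S.Idx p → MvPolynomial S.Var ℂ
  | gen m n, p => minorsOf (genericMatrix m n) p
  | sym n, p => minorsOf (symmetricMatrix n) p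
  | skew n, p => pfaffians n p

/-- The number of the loci of matrices of rank at most `d` (`2 d`) which are not the whole
space. -/
def rk : MSpace → ℕ
  | gen m n => min m n
  | sym n => n
  | skew n => n / 2

/-- The minors (Pfaffians) belong to a proper submatrix: `p < m` and `p < n`, `p < n`, and
`2 p + 1 < n`. -/
def Small : MSpace → ℕ → Prop
  | gen m n, p => p < m ∧ p < n
  | sym n, p => p < n
  | skew n, p => 2 * p + 1 < n

/-- The codimension of the locus of the matrices of rank at most `d` (`2 d`): `(m - d) (n - d)`,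
`(n - d) (n - d + 1) / 2`, `(n - 2 d) (n - 2 d - 1) / 2`. -/
def codim : MSpace → ℕ → ℕ
  | gen m n, d => (m - d) * (n - d)
  | sym n, d => (n - d) * (n - d + 1) / 2
  | skew n, d => (n - 2 * d) * (n - 2 * d - 1) / 2

/-- The numbers `ν_i`: the codimension for `E_d`, and `1` for the strict transforms. -/
def nu (S : MSpace) (T : ℕ) : Fin S.rk ⊕ Fin T → ℕ := Sum.elim (fun d => S.codim d) fun _ => 1

theorem nu_pos (S : MSpace) (T : ℕ) (i : Fin S.rk ⊕ Fin T) : 0 < S.nu T i := by
  cases S with
  | gen m n => rcases i with d | t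
               · exact nuG_pos m n T (Sum.inl d)
               · exact one_pos
  | sym n => rcases i with d | t
             · exact nuS_pos n T (Sum.inl d)
             · exact one_pos
  | skew n => rcases i with d | t
              · exact nuK_pos n T (Sum.inl d)
              · exact one_pos

theorem minors_ne (S : MSpace) (p : ℕ) (h : S.Small p) : ∃ j, S.minors p j ≠ 0 := by
  cases S with
  | gen m n => exact generic_ne h.1.le h.2.le
  | sym n => exact symm_ne (Nat.le_of_lt h)
  | skew n =>
    change 2 * p + 1 < n at h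
    exact pfaffians_ne (by omega)

/-- the roots of the Bernstein-Sato polynomial of a product of powers of forms -/
theorem roots (S : MSpace) (T : ℕ) (p a : Fin T → ℕ) (hp : ∀ t, S.Small (p t)) (b : Polynomial ℂ)
    (hb : PowData a (fun t => S.minors (p t)) b) (i : Fin S.rk ⊕ Fin T) (l : ℕ)
    (hl : l < mulN S.rk p a i) :
    b.eval (-((S.nu T i : ℂ) + l) / mulN S.rk p a i) = 0 := by
  cases S with
  | gen m n =>
    have hb' : PowData a (fun t => minorsOf (genericMatrix m n) (p t)) b := by
      refine ⟨fun h => ?_, hb.strict⟩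
      obtain ⟨H, h1, h2⟩ := hb.ideal h
      exact ⟨H, h1, h2⟩
    exact pow_generic m n T p a (fun t => (hp t).1) (fun t => (hp t).2) b hb' i l hl
  | sym n =>
    have hb' : PowData a (fun t => minorsOf (symmetricMatrix n) (p t)) b := by
      refine ⟨fun h => ?_, hb.strict⟩
      obtain ⟨H, h1, h2⟩ := hb.ideal h
      exact ⟨H, h1, h2⟩
    exact pow_symm n T p a hp b hb' i l hl
  | skew n =>
    have hb' : PowData a (fun t => pfaffians n (p t)) b := by
      refine ⟨fun h => ?_, hb.strict⟩
      obtain ⟨H, h1, h2⟩ := hb.ideal h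
      exact ⟨H, h1, h2⟩
    exact pow_skew n T p a hp b hb' i l hl

/-- the product of powers of forms -/
noncomputable def form (S : MSpace) {T : ℕ} (p a : Fin T → ℕ) :
    MvPolynomial ((Σ t, S.Idx (p t)) ⊕ S.Var) ℂ := powProd a fun t => S.minors (p t)

theorem roots_global (S : MSpace) (T : ℕ) (p a : Fin T → ℕ) (hp : ∀ t, S.Small (p t))
    (b : Polynomial ℂ) (hb : IsBFunction (S.form p a) b) (i : Fin S.rk ⊕ Fin T) (l : ℕ)
    (hl : l < mulN S.rk p a i) :
    b.eval (-((S.nu T i : ℂ) + l) / mulN S.rk p a i) = 0 :=
  S.roots T p a hp b (powData_global a _ (fun t => S.minors_ne (p t) (hp t)) b hb) i l hl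

theorem roots_local (S : MSpace) (T : ℕ) (p a : Fin T → ℕ) (hp : ∀ t, S.Small (p t))
    (b : Polynomial ℂ) (hb : IsLocalBFunction (S.form p a) b) (i : Fin S.rk ⊕ Fin T) (l : ℕ)
    (hl : l < mulN S.rk p a i) :
    b.eval (-((S.nu T i : ℂ) + l) / mulN S.rk p a i) = 0 :=
  S.roots T p a hp b (powData_local a _ (fun t => S.minors_ne (p t) (hp t)) b hb) i l hl

end MSpace

end Pool.Agent.TH192.DT
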